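import Pool.Agent.Run7.h870.LG.Gen

/-!
# The mean of the correction factor over the multiples of `s`; the singular series on average
-/

set_option autoImplicit false
set_option linter.all false

namespace Run7.h870.LG

open Finset Filter
open Run7.h870.LI (Per rr per_mul per_mod rr_le per_count per_not fac_nonneg fac_le_one)
open scoped Classical

variable {Q : ℕ → ℕ → Prop} {c : ℕ}

theorem cnt_Cd (hQ : Base Q c) (hc : 1 ≤ c) {p : ℕ} (hp : p.Prime) {s : ℕ} (hs : ¬ p ∣ s) {H : ℕ}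
    (hH : p ≤ H) :
    (((Icc 1 H).filter fun h => Cd Q p (h * s)).card : ℝ) ≤ 2 * (c : ℝ) ^ 2 * H / p := by
  have hper : ∀ n, Cd Q p ((n + p) * s) ↔ Cd Q p (n * s) := by
    intro n
    rw [show (n + p) * s = n * s + p * s by ring]
    exact per_mul (per_Cd hQ.per) p _ _
  have h1 := per_count (P := fun h => Cd Q p (h * s)) hp.pos hper 1 H
  have e : Ico 1 (1 + H) = Icc 1 H := by ext x; simp; omega
  rw [e] at h1
  have hcop : s.Coprime p := ((hp.coprime_iff_not_dvd).2 hs).symm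
  have h2 : (((range p).filter fun h => Cd Q p (h * s)).card : ℝ) ≤ (c : ℝ) ^ 2 := by
    have h3 := perm_count (G := fun n => Cd Q p n) hp.pos (fun n => per_Cd hQ.per p n) hcop 0 0
    have h4 : ((range p).filter fun h => Cd Q p (h * s)).card = rr (Cd Q) p := by
      unfold rr
      rw [← h3]
      congr 1
      ext h
      simp only [mem_filter, mem_Ico, mem_range, zero_add]
      constructor
      · rintro ⟨h5, h6⟩
        exact ⟨⟨Nat.zero_le _, h5⟩, h6⟩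
      · rintro ⟨⟨_, h5⟩, h6⟩
        exact ⟨h5, h6⟩
    rw [h4]
    exact_mod_cast rr_Cd hQ hp
  have hp0 : (0 : ℝ) < p := by exact_mod_cast hp.pos
  have hHr : (p : ℝ) ≤ H := by exact_mod_cast hH
  have hcr : (1 : ℝ) ≤ (c : ℝ) ^ 2 := by
    have : (1 : ℝ) ≤ c := by exact_mod_cast hc
    nlinarith
  have h3 := (abs_le.1 h1).2
  have h4 : (H : ℝ) * ((((range p).filter fun h => Cd Q p (h * s)).card : ℝ) / p) ≤
      H * ((c : ℝ) ^ 2 / p) := by
    apply mul_le_mul_of_nonneg_left _ (Nat.cast_nonneg _)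
    exact div_le_div_of_nonneg_right h2 hp0.le
  have h5 : (1 : ℝ) ≤ H / p := by rwa [one_le_div hp0]
  have h6 : (H : ℝ) * ((c : ℝ) ^ 2 / p) = (c : ℝ) ^ 2 * (H / p) := by ring
  have h7 : 2 * (c : ℝ) ^ 2 * H / p = 2 * ((c : ℝ) ^ 2 * (H / p)) := by ring
  have h8 : (c : ℝ) ^ 2 ≤ (c : ℝ) ^ 2 * (H / p) := le_mul_of_one_le_right (by positivity) h5
  rw [h7]
  linarith

/-- a crude bound for the products over the primes -/
theorem prod_small (c : ℕ) : ∃ C : ℝ, 0 < C ∧ ∀ (p : ℕ) (s : Finset ℕ), 3 ≤ p →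
    (∀ q ∈ s, q.Prime ∧ q < p) → ∏ q ∈ s, (1 + 2 * (c : ℝ) / (q : ℝ)) ≤ C * (p : ℝ) ^ (1 / 4 : ℝ) := by
  obtain ⟨C0, hC0⟩ := Pool.Agent.Erdos456.Mert.mertens_inv
  obtain ⟨k, hk⟩ : ∃ k : ℝ, k = 2 * (c : ℝ) := ⟨_, rfl⟩
  have hk0 : 0 ≤ k := by rw [hk]; positivity
  rw [← hk]
  have h1 : ∀ᶠ x : ℝ in atTop, Real.log x ^ k ≤ x ^ (1 / 4 : ℝ) := by
    have h := (isLittleO_log_rpow_rpow_atTop k (show (0 : ℝ) < 1 / 4 by norm_num)).bound
      (show (0 : ℝ) < 1 by norm_num)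
    filter_upwards [h, eventually_ge_atTop 1] with x hx hx1
    rw [Real.norm_of_nonneg (Real.rpow_nonneg (Real.log_nonneg hx1) _),
      Real.norm_of_nonneg (by positivity), one_mul] at hx
    exact hx
  obtain ⟨x0, hx0⟩ := eventually_atTop.1 h1
  obtain ⟨K, hK⟩ : ∃ K : ℝ, K = 1 + |Real.log (max x0 3)| ^ k := ⟨_, rfl⟩
  have hK1 : 1 ≤ K := by
    rw [hK]
    have : 0 ≤ |Real.log (max x0 3)| ^ k := by positivity
    linarith
  refine ⟨Real.exp (k * C0) * K, by positivity, ?_⟩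
  intro p s hp hs
  have hpr : (3 : ℝ) ≤ p := by exact_mod_cast hp
  have hlp : 1 < Real.log p := by
    rw [Real.lt_log_iff_exp_lt (by linarith)]
    linarith [Real.exp_one_lt_d9]
  have h2 : ∏ q ∈ s, (1 + k / (q : ℝ)) ≤ Real.exp (k * (Real.log (Real.log p) + C0)) := by
    calc ∏ q ∈ s, (1 + k / (q : ℝ)) ≤ ∏ q ∈ s, Real.exp (k * (1 / (q : ℝ))) := by
          apply Finset.prod_le_prod
          · intro q _
            positivity
          · intro q _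
            have := Real.add_one_le_exp (k * (1 / (q : ℝ)))
            have e : k / (q : ℝ) = k * (1 / (q : ℝ)) := by ring
            rw [e]
            linarith
      _ = Real.exp (k * ∑ q ∈ s, 1 / (q : ℝ)) := by rw [← Real.exp_sum, mul_sum]
      _ ≤ Real.exp (k * (Real.log (Real.log p) + C0)) := by
          apply Real.exp_le_exp.2
          apply mul_le_mul_of_nonneg_left _ hk0
          have h3 : ∑ q ∈ s, 1 / (q : ℝ) ≤ ∑ q ∈ (Icc 1 p).filter Nat.Prime, 1 / (q : ℝ) := by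
            apply sum_le_sum_of_subset_of_nonneg
            · intro q hq
              obtain ⟨h4, h5⟩ := hs q hq
              rw [mem_filter, mem_Icc]
              exact ⟨⟨h4.one_le, h5.le⟩, h4⟩
            · intro q _ _
              positivity
          have h4 := (abs_le.1 (hC0 p hp)).2
          linarith
  have h3 : Real.exp (k * (Real.log (Real.log p) + C0)) =
      Real.exp (k * C0) * Real.log p ^ k := by
    rw [Real.rpow_def_of_pos (by linarith), ← Real.exp_add]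
    congr 1
    ring
  rw [h3] at h2
  refine h2.trans ?_
  rw [mul_assoc]
  apply mul_le_mul_of_nonneg_left _ (Real.exp_pos _).le
  have hp1 : (1 : ℝ) ≤ (p : ℝ) ^ (1 / 4 : ℝ) := Real.one_le_rpow (by linarith) (by norm_num)
  by_cases hpx : x0 ≤ p
  · have h4 := hx0 p hpx
    nlinarith
  · push Not at hpx
    have h4 : Real.log p ≤ |Real.log (max x0 3)| := by
      refine le_trans ?_ (le_abs_self _)
      exact Real.log_le_log (by linarith) (hpx.le.trans (le_max_left _ _))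
    have h5 : Real.log p ^ k ≤ |Real.log (max x0 3)| ^ k :=
      Real.rpow_le_rpow (by linarith) h4 hk0
    nlinarith

/-- the mean of the correction factor -/
theorem KK_avg (hQ : Base Q c) (hc : 1 ≤ c) : ∃ C : ℝ, 0 < C ∧ ∀ (w H s : ℕ) (P : Finset ℕ), 3 ≤ w →
    (∀ p ∈ P, p.Prime ∧ w < p ∧ p ≤ H ∧ ¬ p ∣ s) →
    ∑ h ∈ Icc 1 H, (KK Q c P (h * s) - 1) ≤ C * (H * (w : ℝ) ^ (-(1 / 4 : ℝ))) := by
  obtain ⟨C1, hC1, HC⟩ := prod_small c
  have hsum : Summable fun n : ℕ => 1 / (n : ℝ) ^ (3 / 2 : ℝ) :=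
    Real.summable_one_div_nat_rpow.2 (by norm_num)
  obtain ⟨C2, hC2⟩ : ∃ C2 : ℝ, C2 = ∑' n : ℕ, 1 / (n : ℝ) ^ (3 / 2 : ℝ) := ⟨_, rfl⟩
  have hC20 : 0 ≤ C2 := by
    rw [hC2]
    exact tsum_nonneg fun n => by positivity
  have hcr : (1 : ℝ) ≤ c := by exact_mod_cast hc
  refine ⟨2 * c * C1 * (2 * (c : ℝ) ^ 2 * C2 + 1), by positivity, ?_⟩
  intro w H s P hw hP
  have hwr : (3 : ℝ) ≤ w := by exact_mod_cast hw
  -- pointwise
  have hpt : ∀ h, KK Q c P h - 1 ≤ 2 * c * C1 * ∑ p ∈ P.filter (fun p => Cd Q p h),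
      (p : ℝ) ^ (-(3 / 4) : ℝ) := by
    intro h
    unfold KK
    rw [prod_add_ordered, prod_const_one, add_sub_cancel_left, sum_filter, mul_sum]
    refine sum_le_sum fun p hp => ?_
    rw [prod_const_one, mul_one]
    have hpp := (hP p hp).1
    have hp3 : 3 ≤ p := by have := (hP p hp).2.1; omega
    have hp0 : (0 : ℝ) < p := by exact_mod_cast hpp.pos
    by_cases hcd : Cd Q p h
    · rw [if_pos hcd, if_pos hcd]
      have h1 : ∏ j ∈ P.filter (fun j => j < p), (1 + if Cd Q j h then 2 * (c : ℝ) / (j : ℝ) else 0)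
          ≤ C1 * (p : ℝ) ^ (1 / 4 : ℝ) := by
        refine le_trans ?_ (HC p (P.filter (fun j => j < p)) hp3 fun q hq => ?_)
        · apply Finset.prod_le_prod
          · intro q _
            split_ifs <;> positivity
          · intro q _
            split_ifs
            · exact le_rfl
            · have : (0 : ℝ) ≤ 2 * (c : ℝ) / (q : ℝ) := by positivity
              linarith
        · rw [mem_filter] at hq
          exact ⟨(hP q hq.1).1, hq.2⟩
      calc 2 * (c : ℝ) / (p : ℝ) * _ ≤ 2 * (c : ℝ) / (p : ℝ) * (C1 * (p : ℝ) ^ (1 / 4 : ℝ)) :=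
            mul_le_mul_of_nonneg_left h1 (by positivity)
        _ = 2 * c * C1 * (p : ℝ) ^ (-(3 / 4) : ℝ) := by
            have e : (p : ℝ) ^ (-(3 / 4) : ℝ) = (p : ℝ) ^ (1 / 4 : ℝ) / p := by
              rw [show (-(3 / 4) : ℝ) = 1 / 4 - 1 by norm_num, Real.rpow_sub hp0, Real.rpow_one]
            rw [e]
            ring
    · rw [if_neg hcd, if_neg hcd, zero_mul, mul_zero]
  have hsmall : ∑ h ∈ Icc 1 H, ∑ p ∈ P, (if Cd Q p (h * s) then (p : ℝ) ^ (-(3 / 4) : ℝ) else 0) ≤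
      2 * (c : ℝ) ^ 2 * C2 * (H * (w : ℝ) ^ (-(1 / 4 : ℝ))) := by
    rw [sum_comm]
    have h1 : ∀ p ∈ P, ∑ h ∈ Icc 1 H,
        (if Cd Q p (h * s) then (p : ℝ) ^ (-(3 / 4) : ℝ) else 0) ≤
        2 * (c : ℝ) ^ 2 * H * (w : ℝ) ^ (-(1 / 4 : ℝ)) * (1 / (p : ℝ) ^ (3 / 2 : ℝ)) := by
      intro p hp
      obtain ⟨hpp, hwp', hpH, hps⟩ := hP p hp
      have hp0 : (0 : ℝ) < p := by exact_mod_cast hpp.pos
      have hwp : (w : ℝ) ≤ p := by exact_mod_cast hwp'.le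
      rw [← sum_filter, sum_const, nsmul_eq_mul]
      have h2 := cnt_Cd hQ hc hpp hps hpH
      calc _ ≤ 2 * (c : ℝ) ^ 2 * H / p * (p : ℝ) ^ (-(3 / 4) : ℝ) :=
            mul_le_mul_of_nonneg_right h2 (by positivity)
        _ = 2 * (c : ℝ) ^ 2 * H * ((p : ℝ) ^ (-(1 / 4 : ℝ)) * (1 / (p : ℝ) ^ (3 / 2 : ℝ))) := by
            have e1 : 1 / (p : ℝ) ^ (3 / 2 : ℝ) = (p : ℝ) ^ (-(3 / 2) : ℝ) := by
              rw [Real.rpow_neg hp0.le, one_div]
            have e2 : (1 : ℝ) / p = (p : ℝ) ^ (-1 : ℝ) := by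
              rw [Real.rpow_neg hp0.le, Real.rpow_one, one_div]
            have e3 : 2 * (c : ℝ) ^ 2 * H / p = 2 * (c : ℝ) ^ 2 * H * (1 / p) := by ring
            rw [e1, e3, e2, mul_assoc, ← Real.rpow_add hp0, ← Real.rpow_add hp0]
            norm_num
        _ ≤ 2 * (c : ℝ) ^ 2 * H * ((w : ℝ) ^ (-(1 / 4 : ℝ)) * (1 / (p : ℝ) ^ (3 / 2 : ℝ))) := by
            apply mul_le_mul_of_nonneg_left _ (by positivity)
            apply mul_le_mul_of_nonneg_right _ (by positivity)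
            exact Real.rpow_le_rpow_of_nonpos (by linarith) hwp (by norm_num)
        _ = _ := by ring
    refine (sum_le_sum h1).trans ?_
    rw [← mul_sum]
    have h2 : ∑ p ∈ P, 1 / (p : ℝ) ^ (3 / 2 : ℝ) ≤ C2 := by
      rw [hC2]
      exact hsum.sum_le_tsum _ fun n _ => by positivity
    calc _ ≤ 2 * (c : ℝ) ^ 2 * H * (w : ℝ) ^ (-(1 / 4 : ℝ)) * C2 :=
          mul_le_mul_of_nonneg_left h2 (by positivity)
      _ = _ := by ring
  calc ∑ h ∈ Icc 1 H, (KK Q c P (h * s) - 1) ≤ ∑ h ∈ Icc 1 H, 2 * c * C1 *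
        ∑ p ∈ P.filter (fun p => Cd Q p (h * s)), (p : ℝ) ^ (-(3 / 4) : ℝ) :=
        sum_le_sum fun h _ => hpt _
    _ = 2 * c * C1 * ∑ h ∈ Icc 1 H, ∑ p ∈ P, (if Cd Q p (h * s) then (p : ℝ) ^ (-(3 / 4) : ℝ)
          else 0) := by
        rw [← mul_sum]
        congr 1
        exact sum_congr rfl fun h _ => by rw [sum_filter]
    _ ≤ 2 * c * C1 * (2 * (c : ℝ) ^ 2 * C2 * (H * (w : ℝ) ^ (-(1 / 4 : ℝ)))) :=
        mul_le_mul_of_nonneg_left hsmall (by positivity)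
    _ ≤ _ := by
        have h1 : 0 ≤ H * (w : ℝ) ^ (-(1 / 4 : ℝ)) := by positivity
        have h3 : 2 * (c : ℝ) ^ 2 * C2 * (H * (w : ℝ) ^ (-(1 / 4 : ℝ))) ≤
            (2 * (c : ℝ) ^ 2 * C2 + 1) * (H * (w : ℝ) ^ (-(1 / 4 : ℝ))) := by nlinarith
        calc _ ≤ 2 * c * C1 * ((2 * (c : ℝ) ^ 2 * C2 + 1) * (H * (w : ℝ) ^ (-(1 / 4 : ℝ)))) :=
              mul_le_mul_of_nonneg_left h3 (by positivity)
          _ = _ := by ring

/-- the large primes -/
theorem KK_large (Q : ℕ → ℕ → Prop) (c : ℕ) {P : Finset ℕ} {H h : ℕ} {θ : ℝ} (hH : 0 < H)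
    (hP : ∀ p ∈ P, H < p) (hB : ((P.filter fun p => Cd Q p h).card : ℝ) ≤ θ * H) :
    KK Q c P h ≤ Real.exp (2 * c * θ) := by
  have hHr : (0 : ℝ) < H := by exact_mod_cast hH
  have e : KK Q c P h = ∏ p ∈ P.filter (fun p => Cd Q p h), (1 + 2 * (c : ℝ) / (p : ℝ)) := by
    unfold KK
    rw [prod_filter]
    refine prod_congr rfl fun p _ => ?_
    split_ifs <;> simp
  rw [e]
  calc ∏ p ∈ P.filter (fun p => Cd Q p h), (1 + 2 * (c : ℝ) / (p : ℝ)) ≤
      ∏ p ∈ P.filter (fun p => Cd Q p h), Real.exp (2 * c / H) := by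
        apply Finset.prod_le_prod
        · intro p _
          positivity
        · intro p hp
          have hp1 : (H : ℝ) ≤ p := by exact_mod_cast (hP p (mem_filter.1 hp).1).le
          have h1 : 2 * (c : ℝ) / p ≤ 2 * c / H :=
            div_le_div_of_nonneg_left (by positivity) hHr hp1
          have h2 := Real.add_one_le_exp (2 * (c : ℝ) / H)
          linarith
    _ = Real.exp (((P.filter fun p => Cd Q p h).card : ℝ) * (2 * c / H)) := by
        rw [prod_const, ← Real.exp_nat_mul]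
    _ ≤ Real.exp (2 * c * θ) := by
        apply Real.exp_le_exp.2
        calc ((P.filter fun p => Cd Q p h).card : ℝ) * (2 * c / H) ≤ (θ * H) * (2 * c / H) :=
              mul_le_mul_of_nonneg_right hB (by positivity)
          _ = 2 * c * θ := by field_simp

/-- **The singular series on average.** -/
theorem sing (hQ : Base Q c) (hc : 1 ≤ c) {cl : ℝ} (hcl : 0 < cl)
    (hlo : ∀ y : ℕ, 3 ≤ y → cl / Real.log y ≤ V1 Q ((Icc 1 y).filter Nat.Prime))
    {η : ℝ} (hη : 0 < η) : ∃ (w H0 : ℕ) (θ : ℝ), 0 < θ ∧ ∀ H : ℕ, H0 ≤ H → ∀ (s : ℕ) (P : Finset ℕ),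
    (∀ p ∈ P, p.Prime) → (Icc 1 w).filter Nat.Prime ⊆ P →
    (∀ h ∈ Icc 1 H, ((P.filter fun p => H < p ∧ Cd Q p (h * s)).card : ℝ) ≤ θ * H) → ∀ k ≤ H,
      ∑ h ∈ Icc 1 k, V2 Q (h * s) P ≤
        V1 Q P ^ 2 / V1 Q (P.filter fun p => p ∣ s) * (k + η * H) := by
  obtain ⟨C, hC, HC⟩ := KK_avg hQ hc
  have hcr : (1 : ℝ) ≤ c := by exact_mod_cast hc
  obtain ⟨η1, hη1⟩ : ∃ η1 : ℝ, η1 = min (η / 3) 1 := ⟨_, rfl⟩
  have hη10 : 0 < η1 := by rw [hη1]; exact lt_min (by positivity) one_pos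
  have hη11 : η1 ≤ 1 := by rw [hη1]; exact min_le_right _ _
  have hη13 : η1 ≤ η / 3 := by rw [hη1]; exact min_le_left _ _
  obtain ⟨θ, hθ⟩ : ∃ θ : ℝ, θ = Real.log (1 + η1) / (2 * c) := ⟨_, rfl⟩
  have hθ0 : 0 < θ := by
    rw [hθ]
    apply div_pos (Real.log_pos (by linarith)) (by positivity)
  have hθe : Real.exp (2 * c * θ) = 1 + η1 := by
    rw [hθ, mul_div_cancel₀ _ (by positivity), Real.exp_log (by linarith)]
  -- the choice of `w`
  have ev1 : ∀ᶠ x : ℝ in atTop, Real.log x ^ (2 : ℝ) * C / cl ^ 2 * x ^ (-(1 / 4 : ℝ)) ≤ η / 6 := by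
    have h := (isLittleO_log_rpow_rpow_atTop (2 : ℝ) (show (0 : ℝ) < 1 / 4 by norm_num)).bound
      (show (0 : ℝ) < η / 6 * cl ^ 2 / C by positivity)
    filter_upwards [h, eventually_ge_atTop 1] with x hx hx1
    rw [Real.norm_of_nonneg (Real.rpow_nonneg (Real.log_nonneg hx1) _),
      Real.norm_of_nonneg (by positivity)] at hx
    have hx0 : (0 : ℝ) < x ^ (1 / 4 : ℝ) := by positivity
    rw [Real.rpow_neg (by linarith), ← div_eq_mul_inv, div_le_iff₀ hx0]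
    calc Real.log x ^ (2 : ℝ) * C / cl ^ 2 ≤
          (η / 6 * cl ^ 2 / C * x ^ (1 / 4 : ℝ)) * C / cl ^ 2 := by gcongr
      _ = _ := by field_simp
  obtain ⟨w0, hw0⟩ := eventually_atTop.1 (tendsto_natCast_atTop_atTop.eventually ev1)
  obtain ⟨w, hw⟩ : ∃ w, w = max w0 (2 * c + 5) := ⟨_, rfl⟩
  have hw5 : 2 * c + 5 ≤ w := hw ▸ le_max_right _ _
  have hww := hw0 w (hw ▸ le_max_left _ _)
  obtain ⟨PW, hPW⟩ : ∃ PW, PW = (Icc 1 w).filter Nat.Prime := ⟨_, rfl⟩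
  have hPWp : ∀ p ∈ PW, p.Prime := fun p hp => by rw [hPW, mem_filter] at hp; exact hp.2
  obtain ⟨q, hq⟩ : ∃ q, q = ∏ p ∈ PW, p := ⟨_, rfl⟩
  have hwr : (5 : ℝ) ≤ w := by exact_mod_cast (by omega : 5 ≤ w)
  have hlw : 0 < Real.log w := Real.log_pos (by linarith)
  have hVlow : cl / Real.log w ≤ V1 Q PW := by rw [hPW]; exact hlo w (by omega)
  have ev3 : ∀ᶠ x : ℝ in atTop, (q : ℝ) ≤ η / 6 * x := by
    filter_upwards [eventually_ge_atTop (6 * q / η)] with x hx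
    rw [div_le_iff₀ hη] at hx
    linarith
  obtain ⟨H1, hH1⟩ := eventually_atTop.1 (tendsto_natCast_atTop_atTop.eventually ev3)
  refine ⟨w, max H1 1, θ, hθ0, ?_⟩
  intro H hH s P hP hwP hB k hk
  have e3 := hH1 H ((le_max_left _ _).trans hH)
  have hHpos : 0 < H := (le_max_right _ _).trans hH
  rw [← hPW] at hwP
  obtain ⟨Pd, hPd⟩ : ∃ Pd, Pd = P.filter fun p => p ∣ s := ⟨_, rfl⟩
  obtain ⟨Pc, hPc⟩ : ∃ Pc, Pc = P.filter fun p => ¬ p ∣ s := ⟨_, rfl⟩
  obtain ⟨Pw, hPw⟩ : ∃ Pw, Pw = PW.filter fun p => ¬ p ∣ s := ⟨_, rfl⟩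
  rw [← hPd]
  have hPdp : ∀ p ∈ Pd, p.Prime := fun p hp => by rw [hPd, mem_filter] at hp; exact hP p hp.1
  have hPcp : ∀ p ∈ Pc, p.Prime := fun p hp => by rw [hPc, mem_filter] at hp; exact hP p hp.1
  have hPwp : ∀ p ∈ Pw, p.Prime := fun p hp => by rw [hPw, mem_filter] at hp; exact hPWp p hp.1
  have hPws : ∀ p ∈ Pw, ¬ p ∣ s := fun p hp => by rw [hPw, mem_filter] at hp; exact hp.2
  have hPwPc : Pw ⊆ Pc := by
    rw [hPw, hPc]
    exact filter_subset_filter _ hwP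
  have hsplit : ∀ F : ℕ → ℝ, ∏ p ∈ P, F p = (∏ p ∈ Pd, F p) * ∏ p ∈ Pc, F p := by
    intro F
    rw [hPd, hPc]
    exact (prod_filter_mul_prod_filter_not P (fun p => p ∣ s) F).symm
  have hVd := V1_pos hQ hPdp
  have hVc := V1_pos hQ hPcp
  have hVw := V1_pos hQ hPwp
  have hVP : V1 Q P = V1 Q Pd * V1 Q Pc := hsplit _
  have hVeq : V1 Q P ^ 2 / V1 Q Pd = V1 Q Pd * V1 Q Pc ^ 2 := by
    rw [hVP]
    field_simp
  have hV2P : ∀ h, V2 Q (h * s) P = V1 Q Pd * V2 Q (h * s) Pc := by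
    intro h
    have h1 : V2 Q (h * s) P = V2 Q (h * s) Pd * V2 Q (h * s) Pc := hsplit _
    rw [h1]
    congr 1
    refine prod_congr rfl fun p hp => ?_
    rw [hPd, mem_filter] at hp
    rw [rr_Q2_dvd hQ.per (hp.2.mul_left h)]
  rw [hVeq, sum_congr rfl fun h _ => hV2P h, ← mul_sum, mul_assoc]
  apply mul_le_mul_of_nonneg_left _ hVd.le
  -- the density of `Pw`
  have hVw2 : V1 Q PW ≤ V1 Q Pw := by
    have hsub : Pw ⊆ PW := by rw [hPw]; exact filter_subset _ _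
    have h1 : V1 Q PW = V1 Q (PW \ Pw) * V1 Q Pw := (prod_sdiff hsub).symm
    rw [h1]
    have h2 : V1 Q (PW \ Pw) ≤ 1 := V1_le_one Q fun p hp => hPWp p (Finset.mem_sdiff.1 hp).1
    nlinarith
  have hVinv : (V1 Q Pw ^ 2)⁻¹ ≤ Real.log w ^ (2 : ℝ) / cl ^ 2 := by
    rw [Real.rpow_two, ← div_pow, ← inv_pow]
    apply pow_le_pow_left₀ (by positivity)
    rw [inv_le_comm₀ hVw (by positivity), inv_div]
    exact hVlow.trans hVw2
  have hqw : ((∏ p ∈ Pw, p : ℕ) : ℝ) ≤ q := by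
    rw [hq]
    have hsub : Pw ⊆ PW := by rw [hPw]; exact filter_subset _ _
    have : ∏ p ∈ Pw, p ≤ ∏ p ∈ PW, p :=
      prod_le_prod_of_subset_of_one_le' hsub fun p hp _ => (hPWp p hp).one_le
    exact_mod_cast this
  -- the other primes
  have hbig : ∀ p ∈ Pc \ Pw, p.Prime ∧ w < p ∧ ¬ p ∣ s := by
    intro p hp
    rw [Finset.mem_sdiff] at hp
    have hpp := hPcp p hp.1
    have hps : ¬ p ∣ s := by
      have := hp.1
      rw [hPc, mem_filter] at this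
      exact this.2
    refine ⟨hpp, ?_, hps⟩
    by_contra h
    push Not at h
    apply hp.2
    rw [hPw, hPW, mem_filter, mem_filter, mem_Icc]
    exact ⟨⟨⟨hpp.one_le, h⟩, hpp⟩, hps⟩
  obtain ⟨Pm, hPm⟩ : ∃ Pm, Pm = (Pc \ Pw).filter fun p => p ≤ H := ⟨_, rfl⟩
  obtain ⟨Pl, hPl⟩ : ∃ Pl, Pl = (Pc \ Pw).filter fun p => ¬ p ≤ H := ⟨_, rfl⟩
  have hKK : ∀ h, KK Q c (Pc \ Pw) h = KK Q c Pm h * KK Q c Pl h := by
    intro h
    unfold KK
    rw [hPm, hPl]
    exact (prod_filter_mul_prod_filter_not (Pc \ Pw) (fun p => p ≤ H) _).symm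
  have hKl : ∀ h ∈ Icc 1 H, KK Q c Pl (h * s) ≤ 1 + η1 := by
    intro h hh
    rw [← hθe]
    apply KK_large Q c hHpos
    · intro p hp
      rw [hPl, mem_filter] at hp
      omega
    · refine le_trans ?_ (hB h hh)
      have : (Pl.filter fun p => Cd Q p (h * s)).card ≤
          (P.filter fun p => H < p ∧ Cd Q p (h * s)).card := by
        apply card_le_card
        intro p hp
        rw [mem_filter, hPl, mem_filter, Finset.mem_sdiff, hPc, mem_filter] at hp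
        rw [mem_filter]
        exact ⟨hp.1.1.1.1, by omega, hp.2⟩
      exact_mod_cast this
  have h1 := HC w H s Pm (by omega) (fun p hp => by
    rw [hPm, mem_filter] at hp
    obtain ⟨a1, a2, a3⟩ := hbig p hp.1
    exact ⟨a1, a2, hp.2, a3⟩)
  have h2 : ∑ h ∈ Icc 1 k, V2 Q (h * s) Pw * KK Q c (Pc \ Pw) (h * s) ≤
      (1 + η1) * (((k : ℝ) + q) * V1 Q Pw ^ 2 + C * (H * (w : ℝ) ^ (-(1 / 4 : ℝ)))) := by
    have h3 : ∀ h ∈ Icc 1 k, V2 Q (h * s) Pw * KK Q c (Pc \ Pw) (h * s) ≤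
        (1 + η1) * (V2 Q (h * s) Pw + (KK Q c Pm (h * s) - 1)) := by
      intro h hh
      rw [mem_Icc] at hh
      have h4 := V2_le_one Q (h * s) hPwp
      have h5 := V2_nonneg Q (h * s) hPwp
      have h6 := KK_ge_one Q c Pm (h * s)
      have h7 := hKl h (mem_Icc.2 ⟨hh.1, hh.2.trans hk⟩)
      rw [hKK]
      have h8 : V2 Q (h * s) Pw * KK Q c Pm (h * s) ≤ V2 Q (h * s) Pw + (KK Q c Pm (h * s) - 1) := by
        nlinarith
      calc V2 Q (h * s) Pw * (KK Q c Pm (h * s) * KK Q c Pl (h * s)) =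
          (V2 Q (h * s) Pw * KK Q c Pm (h * s)) * KK Q c Pl (h * s) := by ring
        _ ≤ (V2 Q (h * s) Pw * KK Q c Pm (h * s)) * (1 + η1) :=
            mul_le_mul_of_nonneg_left h7 (by positivity)
        _ ≤ (V2 Q (h * s) Pw + (KK Q c Pm (h * s) - 1)) * (1 + η1) :=
            mul_le_mul_of_nonneg_right h8 (by positivity)
        _ = _ := by ring
    refine (sum_le_sum h3).trans ?_
    rw [← mul_sum, sum_add_distrib]
    apply mul_le_mul_of_nonneg_left _ (by positivity)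
    apply add_le_add
    · refine (V2_sum hQ hPwp hPws k).trans ?_
      apply mul_le_mul_of_nonneg_right _ (sq_nonneg _)
      linarith
    · refine le_trans ?_ h1
      apply sum_le_sum_of_subset_of_nonneg (Icc_subset_Icc_right hk)
      intro h _ _
      linarith [KK_ge_one Q c Pm (h * s)]
  have h3 : ∑ h ∈ Icc 1 k, V2 Q (h * s) Pc ≤ (V1 Q Pc / V1 Q Pw) ^ 2 *
      ∑ h ∈ Icc 1 k, V2 Q (h * s) Pw * KK Q c (Pc \ Pw) (h * s) := by
    rw [mul_sum]
    exact sum_le_sum fun h _ => V2_le hQ (h * s) hPcp hPwPc fun p hp => by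
      have := (hbig p hp).2.1
      omega
  refine h3.trans ?_
  calc (V1 Q Pc / V1 Q Pw) ^ 2 * ∑ h ∈ Icc 1 k, V2 Q (h * s) Pw * KK Q c (Pc \ Pw) (h * s) ≤
      (V1 Q Pc / V1 Q Pw) ^ 2 * ((1 + η1) * (((k : ℝ) + q) * V1 Q Pw ^ 2 +
        C * (H * (w : ℝ) ^ (-(1 / 4 : ℝ))))) := mul_le_mul_of_nonneg_left h2 (sq_nonneg _)
    _ = V1 Q Pc ^ 2 * ((1 + η1) * (((k : ℝ) + q) + (V1 Q Pw ^ 2)⁻¹ *
        (C * (H * (w : ℝ) ^ (-(1 / 4 : ℝ)))))) := by
        field_simp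
    _ ≤ V1 Q Pc ^ 2 * (k + η * H) := by
        apply mul_le_mul_of_nonneg_left _ (sq_nonneg _)
        have h4 : 0 ≤ C * (H * (w : ℝ) ^ (-(1 / 4 : ℝ))) := by positivity
        have h5 := mul_le_mul_of_nonneg_right hVinv h4
        have h6 : Real.log w ^ (2 : ℝ) / cl ^ 2 * (C * (H * (w : ℝ) ^ (-(1 / 4 : ℝ)))) =
            (Real.log w ^ (2 : ℝ) * C / cl ^ 2 * (w : ℝ) ^ (-(1 / 4 : ℝ))) * H := by ring
        have h7 : (Real.log w ^ (2 : ℝ) * C / cl ^ 2 * (w : ℝ) ^ (-(1 / 4 : ℝ))) * H ≤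
            η / 6 * H := mul_le_mul_of_nonneg_right hww (Nat.cast_nonneg _)
        have h8 : ((k : ℝ) + q) + (V1 Q Pw ^ 2)⁻¹ * (C * (H * (w : ℝ) ^ (-(1 / 4 : ℝ)))) ≤
            k + η / 3 * H := by linarith
        have hkr : (k : ℝ) ≤ H := by exact_mod_cast hk
        have hHr : (0 : ℝ) ≤ H := Nat.cast_nonneg _
        calc (1 + η1) * (((k : ℝ) + q) + (V1 Q Pw ^ 2)⁻¹ *
              (C * (H * (w : ℝ) ^ (-(1 / 4 : ℝ))))) ≤ (1 + η1) * (k + η / 3 * H) :=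
              mul_le_mul_of_nonneg_left h8 (by positivity)
          _ = k + η1 * k + (η / 3 * H) + η1 * (η / 3 * H) := by ring
          _ ≤ k + η / 3 * H + η / 3 * H + 1 * (η / 3 * H) := by
              have a1 : η1 * k ≤ η / 3 * H := mul_le_mul hη13 hkr (Nat.cast_nonneg _) (by positivity)
              have a2 : η1 * (η / 3 * H) ≤ 1 * (η / 3 * H) :=
                mul_le_mul_of_nonneg_right hη11 (by positivity)
              linarith
          _ = k + η * H := by ring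

end Run7.h870.LG
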