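import Pool.Agent.Run7.h870.LG.Short

/-!
# Almost prime values in almost all very short intervals, and in almost all residue classes
-/

set_option autoImplicit false
set_option linter.all false

namespace Run7.h870.LG

open Finset Filter
open Pool.Agent.Y882
open Pool.Agent.W23.DC
open Pool.Agent.Y882.PX Pool.Agent.Y882.KW
open Run7.h870.LI (Per rr evlog per_mod per_mul crt_range)
open scoped Classical

section

variable {F : ℕ → ℤ} {c g D : ℕ} {cl : ℝ} {R : ℕ → ℕ}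

/-- the almost primes in an interval -/
noncomputable def iset (F : ℕ → ℤ) (r : ℕ) (z : ℝ) (N H : ℕ) : Finset ℕ :=
  (Ioc N (N + H)).filter fun n => (F n).natAbs.primeFactorsList.length ≤ r ∧
    ∀ p : ℕ, p.Prime → (p : ℤ) ∣ F n → z ≤ p

theorem gset_iset (F : ℕ → ℤ) (r : ℕ) (z : ℝ) (N H : ℕ) :
    (gset F r z 1 (N + 1) H).card ≤ (iset F r z N H).card := by
  apply card_le_card_of_injOn (fun j => N + 1 + j * 1)
  · intro j hj
    show N + 1 + j * 1 ∈ _
    unfold gset at hj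
    rw [mem_coe, mem_filter, mem_range] at hj
    unfold iset
    rw [mem_coe, mem_filter, mem_Ioc]
    exact ⟨⟨by omega, by omega⟩, hj.2⟩
  · intro x _ y _ hxy
    simpa using hxy

/-- **intervals** -/
theorem intervals (hF : Dat F c g D cl R) (r : ℕ) {τ ζ υ lam S : ℝ} (hP : Par τ ζ υ lam)
    (hS : (g : ℝ) < S) (hr : 1 / lam + S / υ ≤ r + 1) :
    ∃ δ : ℝ, 0 < δ ∧ ∀ ε : ℝ, 0 < ε → ∃ K : ℝ, 0 < K ∧
      ∃ X0 : ℕ, ∀ X : ℕ, X0 ≤ X → ∀ H : ℕ, K * Real.log X ≤ H → H ≤ X →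
      (((Icc 1 X).filter (fun N => ((iset F r ((X : ℝ) ^ ζ) N H).card : ℝ) <
        δ * H / Real.log X)).card : ℝ) ≤ ε * X := by
  obtain ⟨δ, hδ, HS⟩ := short hF r hP le_rfl (by simpa using hS) hr
  refine ⟨δ, hδ, fun ε hε => ?_⟩
  obtain ⟨K, ε₁, hK, hε₁, X0, HX⟩ := HS ε hε
  refine ⟨K, hK, max X0 2, fun X hX H hH1 hH2 => ?_⟩
  have h1 := HX X ((le_max_left _ _).trans hX) 1 H 2 le_rfl
    (by have := (le_max_right X0 2).trans hX; omega) (by norm_num)
    ((le_max_right _ _).trans hX) hH1 hH2 (by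
      rw [add_zero, Real.rpow_one, mul_one]
      exact_mod_cast hH2)
  have h2 : (PZ X ε₁).filter (fun p => p ∣ 1) = ∅ := by
    apply filter_eq_empty_iff.2
    intro p hp hp1
    unfold PZ at hp
    rw [mem_filter] at hp
    exact hp.2.1.one_lt.ne' (Nat.dvd_one.1 hp1)
  have h3 : V1 (Qf F) ((PZ X ε₁).filter fun p => p ∣ 1) = 1 := by
    rw [h2]
    simp [V1]
  have h4 : Gd (Qf F) (PZ X ε₁) 1 2 X = Ico 2 (2 + X) := by
    unfold Gd
    rw [h2]
    simp
  rw [h3, h4, one_mul, mul_one] at h1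
  refine le_trans ?_ h1
  have h5 : ((Icc 1 X).filter (fun N => ((iset F r ((X : ℝ) ^ ζ) N H).card : ℝ) <
        δ * H / Real.log X)).card ≤
      ((Ico 2 (2 + X)).filter (fun n => ((gset F r ((X : ℝ) ^ ζ) 1 n H).card : ℝ) <
        δ * H / Real.log X)).card := by
    apply card_le_card_of_injOn (fun N => N + 1)
    · intro N hN
      rw [mem_coe, mem_filter, mem_Icc] at hN
      show N + 1 ∈ _
      rw [mem_coe, mem_filter, mem_Ico]
      refine ⟨⟨by omega, by omega⟩, lt_of_le_of_lt ?_ hN.2⟩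
      exact_mod_cast gset_iset F r _ N H
    · intro x _ y _ hxy
      simpa using hxy
  exact_mod_cast h5

/-- the number of the classes with no common factor -/
noncomputable def Phi (F : ℕ → ℤ) (m : ℕ) : ℕ :=
  ((range m).filter fun a => ∀ p ∈ m.primeFactors, ¬ Qf F p a).card

theorem count_mul {P : ℕ → Prop} [DecidablePred P] {q : ℕ} (hP : ∀ n, P (n + q) ↔ P n) (k : ℕ) :
    ((range (q * k)).filter P).card = ((range q).filter P).card * k := by
  have hper : Function.Periodic P q := fun n => propext (hP n)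
  induction k with
  | zero => simp
  | succ k ih =>
    have e : (range (q * (k + 1))).filter P =
        (range (q * k)).filter P ∪ (Ico (q * k) (q * k + q)).filter P := by
      rw [← filter_union]
      congr 1
      ext n
      rw [mem_union, mem_range, mem_range, mem_Ico, mul_add, mul_one]
      omega
    rw [e, card_union_of_disjoint, ih, Nat.filter_Ico_card_eq_of_periodic _ q P hper,
      Nat.count_eq_card_filter_range]
    · ring
    · apply disjoint_filter_filter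
      rw [disjoint_left]
      intro n hn hn'
      rw [mem_range] at hn
      rw [mem_Ico] at hn'
      omega

theorem Phi_eq (hF : Dat F c g D cl R) {m : ℕ} (hm : 0 < m) :
    (Phi F m : ℝ) = m * V1 (Qf F) m.primeFactors := by
  have hS : ∀ p ∈ m.primeFactors, p.Prime := fun p hp => Nat.prime_of_mem_primeFactors hp
  obtain ⟨k, hk⟩ := Nat.prod_primeFactors_dvd m
  have hper : Per (fun p n => ¬ Qf F p n) := Run7.h870.LI.per_not hF.base.per
  have h1 : ∀ n, (∀ p ∈ m.primeFactors, ¬ Qf F p (n + ∏ p ∈ m.primeFactors, p)) ↔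
      ∀ p ∈ m.primeFactors, ¬ Qf F p n := by
    intro n
    refine forall₂_congr fun p hp => ?_
    obtain ⟨l, hl⟩ : p ∣ ∏ p ∈ m.primeFactors, p := dvd_prod_of_mem _ hp
    rw [hl]
    exact per_mul hper p n l
  have h2 := count_mul (P := fun n => ∀ p ∈ m.primeFactors, ¬ Qf F p n) h1 k
  rw [← hk] at h2
  have h3 : ((range (∏ p ∈ m.primeFactors, p)).filter
      fun n => ∀ p ∈ m.primeFactors, ¬ Qf F p n).card =
      ∏ p ∈ m.primeFactors, rr (fun p n => ¬ Qf F p n) p := by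
    rw [← crt_range hper m.primeFactors hS]
    congr
  have h4 : (∏ p ∈ m.primeFactors, rr (fun p n => ¬ Qf F p n) p : ℕ) =
      ((∏ p ∈ m.primeFactors, p : ℕ) : ℝ) * V1 (Qf F) m.primeFactors := by
    unfold V1
    push_cast
    rw [← prod_mul_distrib]
    apply prod_congr rfl
    intro p hp
    have h5 := Run7.h870.LI.rr_not (Q := Qf F) p
    have h6 := Run7.h870.LI.rr_le (Qf F) p
    have hp0 : (p : ℝ) ≠ 0 := by exact_mod_cast (hS p hp).ne_zero
    rw [h5, Nat.cast_sub h6]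
    field_simp
  have h5 : (m : ℝ) = ((∏ p ∈ m.primeFactors, p : ℕ) : ℝ) * k := by exact_mod_cast hk
  unfold Phi
  rw [h2, h3]
  obtain ⟨V, hV⟩ : ∃ V, V = V1 (Qf F) m.primeFactors := ⟨_, rfl⟩
  rw [← hV] at h4 ⊢
  push_cast at h4 h5 ⊢
  rw [h4, h5]
  ring


/-- the primes dividing the modulus -/
theorem W_le (hF : Dat F c g D cl R) {ε₁ : ℝ} (hε : 0 < ε₁) : ∃ X0 : ℕ, ∀ X : ℕ, X0 ≤ X →
    X * V1 (Qf F) ((PZ X ε₁).filter fun p => p ∣ X) ≤ 2 * (Phi F X : ℝ) ∧
    (Phi F X : ℝ) ≤ X * V1 (Qf F) ((PZ X ε₁).filter fun p => p ∣ X) := by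
  obtain ⟨m1, hm1⟩ := exists_nat_ge (1 / ε₁)
  have ev1 : ∀ᶠ X : ℕ in atTop, (c : ℝ) * (2 * m1 + 1) ≤ (X : ℝ) ^ ε₁ :=
    ((tendsto_rpow_atTop hε).comp tendsto_natCast_atTop_atTop).eventually_ge_atTop _
  obtain ⟨X0, hX0⟩ := eventually_atTop.1 (ev1.and (eventually_ge_atTop 3))
  refine ⟨X0, fun X hX => ?_⟩
  obtain ⟨e1, e2⟩ := hX0 X hX
  have hXr : (3 : ℝ) ≤ X := by exact_mod_cast e2
  have hX0 : (0 : ℝ) < X := by linarith
  have hPhi := Phi_eq hF (show 0 < X by omega)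
  obtain ⟨A, hA⟩ : ∃ A, A = (PZ X ε₁).filter fun p => p ∣ X := ⟨_, rfl⟩
  have hAsub : A ⊆ X.primeFactors := by
    intro p hp
    rw [hA, mem_filter] at hp
    obtain ⟨hp1, hp2⟩ := hp
    unfold PZ at hp1
    rw [mem_filter] at hp1
    exact Nat.mem_primeFactors.2 ⟨hp1.2.1, hp2, by omega⟩
  have hXp : ∀ p ∈ X.primeFactors, p.Prime := fun p hp => Nat.prime_of_mem_primeFactors hp
  have hA1 := V1_anti hF.base hXp hAsub
  rw [← hA]
  refine ⟨?_, by rw [hPhi]; exact mul_le_mul_of_nonneg_left hA1 hX0.le⟩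
  obtain ⟨B, hB⟩ : ∃ B, B = X.primeFactors \ A := ⟨_, rfl⟩
  have e : V1 (Qf F) X.primeFactors = V1 (Qf F) B * V1 (Qf F) A := by
    rw [hB]
    exact (prod_sdiff hAsub).symm
  have hBp : ∀ p ∈ B, p.Prime ∧ p ∣ X ∧ (X : ℝ) ^ ε₁ ≤ p := by
    intro p hp
    rw [hB] at hp
    obtain ⟨hp1, hp2⟩ := Finset.mem_sdiff.1 hp
    have h1 := Nat.mem_primeFactors.1 hp1
    refine ⟨h1.1, h1.2.1, ?_⟩
    by_contra h2
    push Not at h2
    apply hp2
    rw [hA, mem_filter]
    unfold PZ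
    rw [mem_filter, mem_Icc]
    exact ⟨⟨⟨h1.1.one_le, Nat.le_of_dvd (by omega) h1.2.1⟩, h1.1,
      (tt_lt X p ε₁ (by omega) h1.1.pos).2 h2⟩, h1.2.1⟩
  have hBc : B.card ≤ m1 := by
    apply Run7.h870.LI.card_le_of_prod (X := X) (σ := 1) (by omega) hε (fun p hp => (hBp p hp).2.2)
      _ hm1
    have h1 : ∏ p ∈ B, p ∣ X := by
      apply Finset.prod_primes_dvd
      · intro p hp
        exact (hBp p hp).1.prime
      · exact fun p hp => (hBp p hp).2.1
    rw [Real.rpow_one]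
    exact_mod_cast Nat.le_of_dvd (by omega) h1
  have hpw : 0 < (X : ℝ) ^ ε₁ := by positivity
  have hcr : (1 : ℝ) ≤ c := by exact_mod_cast hF.hc
  have hm10 : (0 : ℝ) ≤ m1 := Nat.cast_nonneg _
  obtain ⟨y, hy⟩ : ∃ y : ℝ, y = c / (X : ℝ) ^ ε₁ := ⟨_, rfl⟩
  have hy0 : 0 ≤ y := by rw [hy]; positivity
  have hy1 : y * (2 * m1 + 1) ≤ 1 := by
    rw [hy, div_mul_eq_mul_div, div_le_one hpw]
    exact e1
  have hy2 : y ≤ 1 := by nlinarith
  have h1 : (1 - y) ^ B.card ≤ V1 (Qf F) B := by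
    unfold V1
    rw [← prod_const]
    apply Finset.prod_le_prod
    · intro p _
      linarith
    · intro p hp
      obtain ⟨h1, h2, h3⟩ := hBp p hp
      have h4 : (rr (Qf F) p : ℝ) / p ≤ c / (X : ℝ) ^ ε₁ := by
        have h5 : (rr (Qf F) p : ℝ) ≤ c := by exact_mod_cast hF.base.le p h1
        exact div_le_div₀ (by positivity) h5 hpw h3
      rw [hy]
      linarith
  have h2 : (1 - y) ^ m1 ≤ (1 - y) ^ B.card :=
    pow_le_pow_of_le_one (by linarith) (by linarith) hBc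
  have h3 : 1 + (m1 : ℝ) * (-y) ≤ (1 + (-y)) ^ m1 := one_add_mul_le_pow (by linarith) m1
  have h4 : (1 : ℝ) / 2 ≤ V1 (Qf F) B := by
    have h5 : (1 + (-y)) ^ m1 = (1 - y) ^ m1 := by ring
    rw [h5] at h3
    nlinarith
  have hA0 : 0 < V1 (Qf F) A := V1_pos hF.base fun p hp => hXp p (hAsub hp)
  rw [hPhi, e]
  have h6 : X * V1 (Qf F) A * 1 ≤ X * V1 (Qf F) A * (2 * V1 (Qf F) B) := by
    apply mul_le_mul_of_nonneg_left _ (by positivity)
    linarith
  linarith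

/-- the almost primes in a residue class -/
noncomputable def cset (F : ℕ → ℤ) (r : ℕ) (z : ℝ) (m a H : ℕ) : Finset ℕ :=
  (Icc 1 (H * m)).filter fun n => n ≡ a [MOD m] ∧ (F n).natAbs.primeFactorsList.length ≤ r ∧
    ∀ p : ℕ, p.Prime → (p : ℤ) ∣ F n → z ≤ p

theorem gset_cset (F : ℕ → ℤ) (r : ℕ) (z : ℝ) {m a H : ℕ} (hm : 0 < m) (ha : 1 ≤ a) (ham : a ≤ m) :
    (gset F r z m a H).card ≤ (cset F r z m a H).card := by
  apply card_le_card_of_injOn (fun j => a + j * m)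
  · intro j hj
    show a + j * m ∈ _
    unfold gset at hj
    rw [mem_coe, mem_filter, mem_range] at hj
    unfold cset
    rw [mem_coe, mem_filter, mem_Icc]
    refine ⟨⟨by omega, ?_⟩, ?_, hj.2⟩
    · have h1 : (j + 1) * m ≤ H * m := Nat.mul_le_mul_right m hj.1
      have h2 : (j + 1) * m = j * m + m := by ring
      omega
    · show (a + j * m) % m = a % m
      rw [Nat.add_mul_mod_self_right]
  · intro x _ y _ hxy
    simp only at hxy
    exact Nat.eq_of_mul_eq_mul_right hm (by omega)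

/-- **residue classes** -/
theorem classes (hF : Dat F c g D cl R) (r : ℕ) {τ ζ υ lam S σ : ℝ} (hP : Par τ ζ υ lam)
    (hσ : 0 ≤ σ) (hσ1 : σ ≤ 1) (hS : g * (1 + σ) < S) (hr : 1 / lam + S / υ ≤ r + 1) :
    ∃ δ : ℝ, 0 < δ ∧ ∀ ε : ℝ, 0 < ε → ∃ K : ℝ, 0 < K ∧
      ∃ m0 : ℕ, ∀ m : ℕ, m0 ≤ m → ∀ H : ℕ, K * Real.log m ≤ H → (H : ℝ) ≤ (m : ℝ) ^ σ →
      (((Icc 1 m).filter (fun a => (∀ p ∈ m.primeFactors, ¬ Qf F p a) ∧
        ((cset F r ((m : ℝ) ^ ζ) m a H).card : ℝ) <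
        δ * (m / (Phi F m)) * (H / Real.log m))).card : ℝ) ≤ ε * Phi F m := by
  obtain ⟨δ, hδ, HS⟩ := short hF r hP hσ hS hr
  refine ⟨δ / 2, by positivity, fun ε hε => ?_⟩
  obtain ⟨K, ε₁, hK, hε₁, X0, HX⟩ := HS (ε / 2) (by positivity)
  obtain ⟨X1, HW⟩ := W_le hF hε₁
  refine ⟨K, hK, max (max X0 X1) 3, fun m hm H hH1 hH2 => ?_⟩
  have hm3 : 3 ≤ m := (le_max_right _ _).trans hm
  have hmr : (3 : ℝ) ≤ m := by exact_mod_cast hm3
  have hm0 : (0 : ℝ) < m := by linarith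
  have hlm : 0 < Real.log m := Real.log_pos (by linarith)
  have hHm : (H : ℝ) ≤ m := by
    refine hH2.trans ?_
    calc (m : ℝ) ^ σ ≤ (m : ℝ) ^ (1 : ℝ) := Real.rpow_le_rpow_of_exponent_le (by linarith) hσ1
      _ = m := Real.rpow_one _
  have h1 := HX m (((le_max_left _ _).trans (le_max_left _ _)).trans hm) m H 1 (by omega) le_rfl
    le_rfl (by omega) hH1 (by exact_mod_cast hHm) (by
      push_cast
      rw [add_comm, Real.rpow_add hm0, Real.rpow_one]
      exact mul_le_mul_of_nonneg_right hH2 hm0.le)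
  obtain ⟨hW1, hW2⟩ := HW m (((le_max_right _ _).trans (le_max_left _ _)).trans hm)
  obtain ⟨W, hW⟩ : ∃ W, W = V1 (Qf F) ((PZ m ε₁).filter fun p => p ∣ m) := ⟨_, rfl⟩
  rw [← hW] at h1 hW1 hW2
  have hW0 : 0 < W := by
    rw [hW]
    apply V1_pos hF.base
    intro p hp
    have := (mem_filter.1 hp).1
    unfold PZ at this
    exact (mem_filter.1 this).2.1
  have hPhi0 : (0 : ℝ) < Phi F m := by
    have : 0 < m * W := by positivity
    linarith
  refine le_trans ?_ (h1.trans (show ε / 2 * (m * W) ≤ ε * Phi F m by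
    calc ε / 2 * (m * W) ≤ ε / 2 * (2 * Phi F m) := mul_le_mul_of_nonneg_left hW1 (by positivity)
      _ = _ := by ring))
  have h5 : ((Icc 1 m).filter (fun a => (∀ p ∈ m.primeFactors, ¬ Qf F p a) ∧
        ((cset F r ((m : ℝ) ^ ζ) m a H).card : ℝ) <
        δ / 2 * (m / (Phi F m)) * (H / Real.log m))).card ≤
      ((Gd (Qf F) (PZ m ε₁) m 1 m).filter (fun n => ((gset F r ((m : ℝ) ^ ζ) m n H).card : ℝ) <
        δ * H / (W * Real.log m))).card := by
    apply card_le_card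
    intro a ha
    rw [mem_filter, mem_Icc] at ha
    rw [mem_filter]
    obtain ⟨⟨ha1, ha2⟩, ha3, ha4⟩ := ha
    constructor
    · unfold Gd
      rw [mem_filter, mem_Ico]
      refine ⟨⟨by omega, by omega⟩, fun p hp => ha3 p ?_⟩
      rw [mem_filter] at hp
      obtain ⟨hp1, hp2⟩ := hp
      unfold PZ at hp1
      rw [mem_filter] at hp1
      exact Nat.mem_primeFactors.2 ⟨hp1.2.1, hp2, by omega⟩
    · have h6 := gset_cset F r ((m : ℝ) ^ ζ) (H := H) (show 0 < m by omega) ha1 ha2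
      have h7 : ((gset F r ((m : ℝ) ^ ζ) m a H).card : ℝ) ≤
          ((cset F r ((m : ℝ) ^ ζ) m a H).card : ℝ) := by exact_mod_cast h6
      refine lt_of_le_of_lt h7 (lt_of_lt_of_le ha4 ?_)
      have h8 : (m : ℝ) / Phi F m ≤ 2 / W := by
        rw [div_le_div_iff₀ hPhi0 hW0]
        exact hW1
      calc δ / 2 * (m / (Phi F m)) * (H / Real.log m) ≤ δ / 2 * (2 / W) * (H / Real.log m) := by
            gcongr
        _ = _ := by field_simp
  exact_mod_cast h5

end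

end Run7.h870.LG
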