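import Pool.Agent.Run7.h870.LG.Rho

/-!
# The data of an irreducible polynomial
-/

set_option autoImplicit false
set_option linter.all false

namespace Run7.h870.LG

open Finset Filter Topology Polynomial
open Pool.Agent.Y882
open Pool.Agent.W23.DC
open Pool.Agent.Y882.KW Pool.Agent.Y882.PX
open Pool.Agent.H474R2.PG (rho)
open Pool.Agent.H373R2.T7 (nuB PerB pz)
open Run7.h870.LI (Per rr per_mod)
open scoped Classical

/-- a polynomial and its derivative -/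
theorem bezout (f : ℤ[X]) (hf : Irreducible f) (hd : 0 < f.natDegree) :
    ∃ (u v : ℤ[X]) (N : ℤ), N ≠ 0 ∧ u * f + v * derivative f = C N := by
  have hprim : f.IsPrimitive := hf.isPrimitive hd.ne'
  have hF : Irreducible (f.map (Int.castRingHom ℚ)) :=
    (IsPrimitive.Int.irreducible_iff_irreducible_map_cast hprim).1 hf
  obtain ⟨a, b, hab⟩ := hF.separable
  obtain ⟨b1, h1⟩ := IsLocalization.integerNormalization_map_to_map (nonZeroDivisors ℤ) a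
  obtain ⟨b2, h2⟩ := IsLocalization.integerNormalization_map_to_map (nonZeroDivisors ℤ) b
  obtain ⟨A, hA⟩ : ∃ A, A = IsLocalization.integerNormalization (nonZeroDivisors ℤ) a := ⟨_, rfl⟩
  obtain ⟨B, hB⟩ : ∃ B, B = IsLocalization.integerNormalization (nonZeroDivisors ℤ) b := ⟨_, rfl⟩
  rw [← hA] at h1
  rw [← hB] at h2
  have n1 : (b1 : ℤ) ≠ 0 := nonZeroDivisors.coe_ne_zero b1
  have n2 : (b2 : ℤ) ≠ 0 := nonZeroDivisors.coe_ne_zero b2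
  have e : (algebraMap ℤ ℚ) = Int.castRingHom ℚ := rfl
  rw [e] at h1 h2
  refine ⟨C (b2 : ℤ) * A, C (b1 : ℤ) * B, (b1 : ℤ) * (b2 : ℤ), mul_ne_zero n1 n2, ?_⟩
  apply Polynomial.map_injective (Int.castRingHom ℚ) (RingHom.injective_int _)
  rw [Polynomial.map_add, Polynomial.map_mul, Polynomial.map_mul, Polynomial.map_mul,
    Polynomial.map_mul, h1, h2, ← derivative_map, map_C, map_C, map_C]
  have s1 : ((b1 : ℤ) • a : ℚ[X]) = C ((b1 : ℤ) : ℚ) * a := by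
    rw [← smul_eq_C_mul, Int.cast_smul_eq_zsmul]
  have s2 : ((b2 : ℤ) • b : ℚ[X]) = C ((b2 : ℤ) : ℚ) * b := by
    rw [← smul_eq_C_mul, Int.cast_smul_eq_zsmul]
  have s3 : (Int.castRingHom ℚ) (b1 : ℤ) = ((b1 : ℤ) : ℚ) := rfl
  have s4 : (Int.castRingHom ℚ) (b2 : ℤ) = ((b2 : ℤ) : ℚ) := rfl
  have s5 : (Int.castRingHom ℚ) ((b1 : ℤ) * (b2 : ℤ)) = ((b1 : ℤ) : ℚ) * ((b2 : ℤ) : ℚ) := by
    rw [map_mul, s3, s4]
  rw [s1, s2, s3, s4, s5, C_mul]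
  calc C ((b2 : ℤ) : ℚ) * (C ((b1 : ℤ) : ℚ) * a) * map (Int.castRingHom ℚ) f +
      C ((b1 : ℤ) : ℚ) * (C ((b2 : ℤ) : ℚ) * b) * derivative (map (Int.castRingHom ℚ) f) =
      C ((b1 : ℤ) : ℚ) * C ((b2 : ℤ) : ℚ) * (a * map (Int.castRingHom ℚ) f +
        b * derivative (map (Int.castRingHom ℚ) f)) := by ring
    _ = _ := by rw [hab, mul_one]

/-- the values -/
def Fv (f : ℤ[X]) (n : ℕ) : ℤ := f.eval (n : ℤ)

theorem rr_rho (f : ℤ[X]) (p : ℕ) : rr (Qf (Fv f)) p = rho f p := by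
  unfold Run7.h870.LI.rr rho
  congr

/-- the hypotheses on the polynomial -/
structure Pol (f : ℤ[X]) : Prop where
  irr : Irreducible f
  deg : 0 < f.natDegree
  lead : 0 < f.leadingCoeff
  adm : ∀ p : ℕ, p.Prime → ∃ m : ℕ, ¬ (p : ℤ) ∣ f.eval (m : ℤ)

theorem Pol.sys {f : ℤ[X]} (hf : Pol f) : Pool.Agent.W123.RU.Poly.Sys (fun _ : Unit => f) :=
  ⟨fun _ => hf.irr, fun _ => hf.deg, fun _ => hf.lead, fun _ _ _ => rfl, fun p hp => by
    obtain ⟨m, hm⟩ := hf.adm p hp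
    exact ⟨m, fun _ => hm⟩⟩

theorem Q_iff (f : ℤ[X]) (p m : ℕ) :
    Pool.Agent.W123.RU.Poly.Q (fun _ : Unit => f) p m ↔ Qf (Fv f) p m := by
  unfold Pool.Agent.W123.RU.Poly.Q Qf Fv
  simp

theorem nuB_rr (f : ℤ[X]) (p : ℕ) :
    nuB (Pool.Agent.W123.RU.Poly.Q (fun _ : Unit => f)) p = rr (Qf (Fv f)) p := by
  unfold nuB Run7.h870.LI.rr
  congr 1
  ext n
  rw [mem_filter, mem_filter, Q_iff]

theorem per_f (f : ℤ[X]) (m n : ℕ) : (m : ℤ) ∣ Fv f (n + m) - Fv f n := by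
  unfold Fv
  have h := sub_dvd_eval_sub ((n + m : ℕ) : ℤ) (n : ℤ) f
  refine dvd_trans ?_ h
  push_cast
  rw [add_sub_cancel_left]

theorem base_f {f : ℤ[X]} (hf : Pol f) : ∃ c : ℕ, 1 ≤ c ∧ Base (Qf (Fv f)) c := by
  obtain ⟨c, hc, hP⟩ := Pool.Agent.W123.RU.Poly.exists_c _ hf.sys
  refine ⟨c, hc, ⟨?_, ?_, ?_⟩⟩
  · intro p n
    unfold Qf
    exact Int.dvd_iff_dvd_of_dvd_sub (per_f f p n)
  · intro p hp
    rw [← nuB_rr]
    exact hP.few p hp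
  · intro p hp
    rw [← nuB_rr]
    exact Pool.Agent.W123.RU.Poly.adm _ hf.sys p hp

theorem low_f {f : ℤ[X]} (hf : Pol f) : ∃ cl : ℝ, 0 < cl ∧ ∀ y : ℕ, 3 ≤ y →
    cl / Real.log y ≤ V1 (Qf (Fv f)) ((Icc 1 y).filter Nat.Prime) := by
  obtain ⟨v, Cv, hv, hCv, H⟩ := Pool.Agent.W123.RU.Poly.V_bounds _ hf.sys
  refine ⟨v, hv, fun y hy => ?_⟩
  have h1 := (H y hy).1
  rw [Fintype.card_unit, pow_one] at h1
  refine h1.trans (le_of_eq ?_)
  unfold Pool.Agent.W123.RP.Vq V1 pz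
  refine prod_congr ?_ fun p _ => ?_
  · congr
  · rw [nuB_rr]

theorem mer_f {f : ℤ[X]} (hf : Pol f) (ε₁ υ η : ℝ) (hε : 0 < ε₁) (hυ : υ ≤ 1) (hη : 0 < η) :
    ∃ Y0 : ℕ, ∀ Y : ℕ, Y0 ≤ Y → Mer (pr Y ε₁ υ) (tt Y) (gg (Qf (Fv f))) ε₁ υ η := by
  obtain ⟨Y0, h⟩ := mer_of_mean (fun p => (rho f p : ℝ)) (mean_rho f hf.irr hf.deg) ε₁ υ η hε hυ hη
  refine ⟨Y0, fun Y hY => ?_⟩
  have h1 := h Y hY
  have e : gg (Qf (Fv f)) = fun p => (rho f p : ℝ) / p := by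
    funext p
    unfold gg
    rw [rr_rho]
  rw [e]
  exact h1

theorem lift_f {f : ℤ[X]} (hf : Pol f) : ∃ D : ℕ, ∀ p : ℕ, p.Prime → D < p → ∀ n n' : ℕ,
    n ≡ n' [MOD p] → ((p ^ 2 : ℕ) : ℤ) ∣ Fv f n → ((p ^ 2 : ℕ) : ℤ) ∣ Fv f n' →
    n ≡ n' [MOD p ^ 2] := by
  obtain ⟨u, v, N, hN, huv⟩ := bezout f hf.irr hf.deg
  refine ⟨N.natAbs, fun p hp hpN n n' hnn h1 h2 => ?_⟩
  unfold Fv at h1 h2
  have hpZ : Prime (p : ℤ) := Nat.prime_iff_prime_int.1 hp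
  -- Taylor
  obtain ⟨k, hk⟩ := Polynomial.evalSubFactor f (n' : ℤ) (n : ℤ) |> fun _ =>
    Polynomial.binomExpansion f (n : ℤ) ((n' : ℤ) - n)
  rw [add_sub_cancel] at hk
  have hd1 : (p : ℤ) ∣ (n' : ℤ) - n := (Nat.modEq_iff_dvd).1 hnn
  have hd2 : ((p ^ 2 : ℕ) : ℤ) ∣ ((n' : ℤ) - n) ^ 2 := by
    push_cast
    exact pow_dvd_pow_of_dvd hd1 2
  have hd3 : ((p ^ 2 : ℕ) : ℤ) ∣ (derivative f).eval (n : ℤ) * ((n' : ℤ) - n) := by
    have e : (derivative f).eval (n : ℤ) * ((n' : ℤ) - n) =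
        f.eval (n' : ℤ) - f.eval (n : ℤ) - k * ((n' : ℤ) - n) ^ 2 := by
      rw [hk]
      ring
    rw [e]
    exact dvd_sub (dvd_sub h2 h1) (hd2.mul_left k)
  have hnd : ¬ (p : ℤ) ∣ (derivative f).eval (n : ℤ) := by
    intro h3
    have h4 : (p : ℤ) ∣ f.eval (n : ℤ) := by
      refine dvd_trans ?_ h1
      push_cast
      exact dvd_pow_self _ (by norm_num)
    have h5 := congrArg (fun q => q.eval (n : ℤ)) huv
    simp only [eval_add, eval_mul, eval_C] at h5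
    have h6 : (p : ℤ) ∣ N := by
      rw [← h5]
      exact dvd_add (h4.mul_left _) (h3.mul_left _)
    have h7 := Nat.le_of_dvd (Int.natAbs_pos.2 hN) (Int.natCast_dvd.1 h6)
    omega
  have hcop : IsCoprime ((p ^ 2 : ℕ) : ℤ) ((derivative f).eval (n : ℤ)) := by
    push_cast
    apply IsCoprime.pow_left
    exact (Prime.coprime_iff_not_dvd hpZ).2 hnd
  exact (Nat.modEq_iff_dvd).2 (hcop.dvd_of_dvd_mul_left hd3)

theorem dat_f {f : ℤ[X]} (hf : Pol f) : ∃ (c D : ℕ) (cl : ℝ) (R : ℕ → ℕ),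
    Dat (Fv f) c f.natDegree D cl R := by
  obtain ⟨c, hc, hb⟩ := base_f hf
  obtain ⟨cl, hcl, hlow⟩ := low_f hf
  obtain ⟨D1, hD1⟩ := lift_f hf
  obtain ⟨R, hR1, hR2⟩ := Pool.Agent.H474R2.GE.resultant_poly f hf.irr hf.deg
  obtain ⟨K1, hK1, HK1⟩ := Pool.Agent.H474R2.GE.eval_bound R
  obtain ⟨K2, hK2, HK2⟩ := Pool.Agent.H474R2.GE.eval_bound f
  obtain ⟨k1, hk1⟩ := exists_nat_ge K1
  obtain ⟨k2, hk2⟩ := exists_nat_ge K2
  obtain ⟨D, hD⟩ : ∃ D, D = D1 + k1 + k2 + R.natDegree + f.natDegree := ⟨_, rfl⟩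
  refine ⟨c, D, cl, fun h => (R.eval (h : ℤ)).natAbs, hb, hc, hcl, hlow, mer_f hf, ?_, ?_, ?_, ?_,
    by omega, per_f f, ?_⟩
  · intro h hh
    rw [Ne, Int.natAbs_eq_zero]
    exact hR1 h (by exact_mod_cast (by omega : h ≠ 0))
  · intro p n h h1 h2
    apply Int.natCast_dvd.1
    apply hR2 (n : ℤ) (h : ℤ) (p : ℤ) h1
    have : ((n + h : ℕ) : ℤ) = (n : ℤ) + h := by push_cast; ring
    unfold Qf Fv at h2
    rwa [this] at h2
  · intro h hh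
    have hh1 : (1 : ℝ) ≤ h := by exact_mod_cast hh
    have h1 := HK1 (h : ℤ) (h : ℝ) hh1 (by
      rw [Int.cast_natCast, abs_of_nonneg (by linarith)])
    have h2 : (((R.eval (h : ℤ)).natAbs : ℕ) : ℝ) ≤ ((D * h ^ D : ℕ) : ℝ) := by
      rw [Nat.cast_natAbs, Int.cast_abs]
      refine h1.trans ?_
      push_cast
      have h3 : (h : ℝ) ^ R.natDegree ≤ (h : ℝ) ^ D := pow_le_pow_right₀ hh1 (by omega)
      have h4 : K1 ≤ D := by
        have : (k1 : ℝ) ≤ D := by exact_mod_cast (by omega : k1 ≤ D)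
        linarith
      exact mul_le_mul h4 h3 (by positivity) (by positivity)
    exact_mod_cast h2
  · intro n hn
    have hh1 : (1 : ℝ) ≤ n := by exact_mod_cast hn
    have h1 := HK2 (n : ℤ) (n : ℝ) hh1 (by
      rw [Int.cast_natCast, abs_of_nonneg (by linarith)])
    have h2 : (((f.eval (n : ℤ)).natAbs : ℕ) : ℝ) ≤ ((D * n ^ f.natDegree : ℕ) : ℝ) := by
      rw [Nat.cast_natAbs, Int.cast_abs]
      refine h1.trans ?_
      push_cast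
      have h4 : K2 ≤ D := by
        have : (k2 : ℝ) ≤ D := by exact_mod_cast (by omega : k2 ≤ D)
        linarith
      exact mul_le_mul_of_nonneg_right h4 (by positivity)
    unfold Fv
    exact_mod_cast h2
  · intro p hp hpD
    exact hD1 p hp (by omega)

end Run7.h870.LG
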