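import Pool.Agent.Run7.h870.LI.Two

/-!
# The densities of the pairs `n`, `n + h` for general conditions, and their mean over the multiples
# of `s`
-/

set_option autoImplicit false
set_option linter.all false

namespace Run7.h870.LG

open Finset
open Run7.h870.LI (Per rr per_mul per_mod rr_le crt_range per_shift per_or per_not rr_window rr_shift
  rr_not rr_or fac_nonneg fac_le_one)
open scoped Classical

/-- conditions with at most `c` classes modulo each prime, and not all classes -/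
structure Base (Q : ℕ → ℕ → Prop) (c : ℕ) : Prop where
  per : Per Q
  le : ∀ p : ℕ, p.Prime → rr Q p ≤ c
  lt : ∀ p : ℕ, p.Prime → rr Q p < p

/-- the conditions at `n` or at `n + h` -/
def Q2 (Q : ℕ → ℕ → Prop) (h p n : ℕ) : Prop := Q p n ∨ Q p (n + h)

/-- collisions -/
def Cd (Q : ℕ → ℕ → Prop) (p h : ℕ) : Prop := ∃ n : ℕ, Q p n ∧ Q p (n + h)

variable {Q : ℕ → ℕ → Prop} {c : ℕ}

theorem per_Q2 (hQ : Per Q) (h : ℕ) : Per (Q2 Q h) := per_or hQ (per_shift hQ h)

theorem rr_Q2_le (hQ : Per Q) (h p : ℕ) : rr (Q2 Q h) p ≤ 2 * rr Q p := by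
  have h1 := rr_shift hQ p h
  have h2 : rr (Q2 Q h) p ≤ rr Q p + rr (fun p n => Q p (n + h)) p := by
    exact (rr_or Q (fun p n => Q p (n + h)) p).le.trans (card_union_le _ _)
  omega

theorem rr_Q2_ge (Q : ℕ → ℕ → Prop) (h p : ℕ) : rr Q p ≤ rr (Q2 Q h) p := by
  unfold rr
  exact card_le_card fun n hn => by
    rw [mem_filter] at hn ⊢
    exact ⟨hn.1, Or.inl hn.2⟩

theorem rr_Q2_eq (hQ : Per Q) {h p : ℕ} (h1 : ¬ Cd Q p h) : rr (Q2 Q h) p = 2 * rr Q p := by
  have e1 := rr_shift hQ p h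
  have e2 : rr (Q2 Q h) p = rr Q p + rr (fun p n => Q p (n + h)) p := by
    refine (rr_or Q (fun p n => Q p (n + h)) p).trans ?_
    apply card_union_of_disjoint
    rw [disjoint_left]
    intro n hn hn'
    rw [mem_filter] at hn hn'
    exact h1 ⟨n, hn.2, hn'.2⟩
  omega

/-- the multiples of `p` -/
theorem rr_Q2_dvd (hQ : Per Q) {h p : ℕ} (h1 : p ∣ h) : rr (Q2 Q h) p = rr Q p := by
  obtain ⟨k, rfl⟩ := h1
  unfold rr
  congr 1
  refine filter_congr fun n _ => ?_
  unfold Q2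
  rw [per_mul hQ]
  simp

theorem per_Cd (hQ : Per Q) : Per (Cd Q) := by
  intro p h
  unfold Cd
  refine exists_congr fun n => and_congr_right fun _ => ?_
  rw [← add_assoc]
  exact hQ p _

theorem rr_Cd (hQ : Base Q c) {p : ℕ} (hp : p.Prime) : rr (Cd Q) p ≤ c ^ 2 := by
  have hsub : (range p).filter (fun h => Cd Q p h) ⊆
      ((range p).filter (fun r => Q p r)).biUnion fun a => (range p).filter fun r => Q p (r + a) := by
    intro h hh
    rw [mem_filter] at hh
    obtain ⟨hh1, m, hm1, hm2⟩ := hh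
    rw [mem_biUnion]
    refine ⟨m % p, ?_, ?_⟩
    · rw [mem_filter, mem_range]
      exact ⟨Nat.mod_lt _ hp.pos, (per_mod hQ.per p _ _ (Nat.mod_modEq m p)).2 hm1⟩
    · rw [mem_filter]
      refine ⟨hh1, ?_⟩
      refine (per_mod hQ.per p (h + m % p) (m + h) ?_).2 hm2
      rw [add_comm h]
      exact (Nat.mod_modEq m p).add_right h
  have h1 := card_biUnion_le_card_mul ((range p).filter (fun r => Q p r))
    (fun a => (range p).filter (fun r => Q p (r + a))) c (by
      intro a _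
      have h2 := rr_shift hQ.per p a
      have h3 := hQ.le p hp
      rw [← h2] at h3
      exact h3)
  have h2 : ((range p).filter (fun r => Q p r)).card ≤ c := hQ.le p hp
  unfold rr
  calc _ ≤ _ := card_le_card hsub
    _ ≤ _ := h1
    _ ≤ c * c := Nat.mul_le_mul_right c h2
    _ = _ := (sq c).symm

/-- the densities -/
noncomputable def V1 (Q : ℕ → ℕ → Prop) (P : Finset ℕ) : ℝ := ∏ p ∈ P, (1 - (rr Q p : ℝ) / p)

noncomputable def V2 (Q : ℕ → ℕ → Prop) (h : ℕ) (P : Finset ℕ) : ℝ :=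
  ∏ p ∈ P, (1 - (rr (Q2 Q h) p : ℝ) / p)

theorem V1_pos (hQ : Base Q c) {P : Finset ℕ} (hP : ∀ p ∈ P, p.Prime) : 0 < V1 Q P := by
  refine prod_pos fun p hp => ?_
  have hp0 : (0 : ℝ) < p := by exact_mod_cast (hP p hp).pos
  rw [sub_pos, div_lt_one hp0]
  exact_mod_cast hQ.lt p (hP p hp)

theorem V1_le_one (Q : ℕ → ℕ → Prop) {P : Finset ℕ} (hP : ∀ p ∈ P, p.Prime) : V1 Q P ≤ 1 :=
  prod_le_one (fun p hp => fac_nonneg _ (hP p hp)) fun p _ => fac_le_one _ p

theorem V2_nonneg (Q : ℕ → ℕ → Prop) (h : ℕ) {P : Finset ℕ} (hP : ∀ p ∈ P, p.Prime) :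
    0 ≤ V2 Q h P := prod_nonneg fun p hp => fac_nonneg _ (hP p hp)

theorem V2_le_one (Q : ℕ → ℕ → Prop) (h : ℕ) {P : Finset ℕ} (hP : ∀ p ∈ P, p.Prime) :
    V2 Q h P ≤ 1 := prod_le_one (fun p hp => fac_nonneg _ (hP p hp)) fun p _ => fac_le_one _ p

/-- one large prime -/
theorem fac_two (hQ : Base Q c) (h : ℕ) {p : ℕ} (hp : p.Prime) (h4 : 2 * c < p) :
    1 - (rr (Q2 Q h) p : ℝ) / p ≤ (1 - (rr Q p : ℝ) / p) ^ 2 *
      (1 + if Cd Q p h then 2 * (c : ℝ) / (p : ℝ) else 0) := by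
  have hp0 : (0 : ℝ) < p := by exact_mod_cast hp.pos
  have hp4 : 2 * (c : ℝ) < p := by exact_mod_cast h4
  have hr : (rr Q p : ℝ) ≤ c := by exact_mod_cast hQ.le p hp
  have hr0 : (0 : ℝ) ≤ rr Q p := Nat.cast_nonneg _
  obtain ⟨x, hx⟩ : ∃ x, x = (rr Q p : ℝ) / p := ⟨_, rfl⟩
  have hx0 : 0 ≤ x := by rw [hx]; positivity
  have hx2 : 2 * x ≤ 2 * (c : ℝ) / p := by
    rw [hx, ← mul_div_assoc]
    exact div_le_div_of_nonneg_right (by linarith) hp0.le
  have hx3 : 2 * x ≤ 1 := by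
    refine hx2.trans ?_
    rw [div_le_one hp0]
    exact hp4.le
  rw [← hx]
  split_ifs with hc
  · have h1 : x ≤ (rr (Q2 Q h) p : ℝ) / p := by
      rw [hx]
      apply div_le_div_of_nonneg_right _ hp0.le
      exact_mod_cast rr_Q2_ge Q h p
    have h2 : 1 ≤ (1 - x) * (1 + 2 * (c : ℝ) / p) := by
      have : (1 - x) * (1 + 2 * x) ≤ (1 - x) * (1 + 2 * (c : ℝ) / p) :=
        mul_le_mul_of_nonneg_left (by linarith) (by linarith)
      nlinarith
    have h3 : 0 ≤ 1 - x := by linarith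
    have h5 := mul_le_mul_of_nonneg_left h2 h3
    nlinarith
  · rw [rr_Q2_eq hQ.per hc]
    have e3 : ((2 * rr Q p : ℕ) : ℝ) / p = 2 * x := by
      rw [hx]
      push_cast
      ring
    rw [e3]
    nlinarith

/-- the correction factor -/
noncomputable def KK (Q : ℕ → ℕ → Prop) (c : ℕ) (P : Finset ℕ) (h : ℕ) : ℝ :=
  ∏ p ∈ P, (1 + if Cd Q p h then 2 * (c : ℝ) / (p : ℝ) else 0)

theorem KK_ge_one (Q : ℕ → ℕ → Prop) (c : ℕ) (P : Finset ℕ) (h : ℕ) : 1 ≤ KK Q c P h := by
  have h1 : ∏ p ∈ P, (1 : ℝ) ≤ KK Q c P h := by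
    unfold KK
    apply prod_le_prod
    · intro _ _
      norm_num
    · intro p _
      split_ifs
      · have : (0 : ℝ) ≤ 2 * (c : ℝ) / (p : ℝ) := by positivity
        linarith
      · linarith
  rwa [prod_const_one] at h1

theorem V2_le (hQ : Base Q c) (h : ℕ) {P Pw : Finset ℕ} (hP : ∀ p ∈ P, p.Prime) (hw : Pw ⊆ P)
    (h4 : ∀ p ∈ P \ Pw, 2 * c < p) :
    V2 Q h P ≤ (V1 Q P / V1 Q Pw) ^ 2 * (V2 Q h Pw * KK Q c (P \ Pw) h) := by
  have e1 : V2 Q h P = V2 Q h (P \ Pw) * V2 Q h Pw := (prod_sdiff hw).symm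
  have e2 : V1 Q P = V1 Q (P \ Pw) * V1 Q Pw := (prod_sdiff hw).symm
  have h1 := V1_pos hQ (fun p hp => hP p (hw hp))
  have e3 : V1 Q P / V1 Q Pw = V1 Q (P \ Pw) := by
    rw [e2, mul_div_cancel_right₀ _ h1.ne']
  rw [e1, e3]
  have h2 : V2 Q h (P \ Pw) ≤ V1 Q (P \ Pw) ^ 2 * KK Q c (P \ Pw) h := by
    unfold V2 V1 KK
    rw [← prod_pow, ← prod_mul_distrib]
    refine prod_le_prod (fun p hp => fac_nonneg _ (hP p (mem_sdiff.1 hp).1)) fun p hp => ?_
    exact fac_two hQ h (hP p (mem_sdiff.1 hp).1) (h4 p hp)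
  calc V2 Q h (P \ Pw) * V2 Q h Pw ≤ (V1 Q (P \ Pw) ^ 2 * KK Q c (P \ Pw) h) * V2 Q h Pw :=
        mul_le_mul_of_nonneg_right h2 (V2_nonneg Q h fun p hp => hP p (hw hp))
    _ = _ := by ring

/-- a progression with a coprime difference meets all classes -/
theorem perm_count {G : ℕ → Prop} {q : ℕ} (hq0 : 0 < q) (hG : ∀ n, G (n + q) ↔ G n) {s : ℕ}
    (hs : s.Coprime q) (n M : ℕ) :
    ((Ico M (M + q)).filter fun h => G (n + h * s)).card = ((range q).filter G).card := by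
  have hper : ∀ h, G (n + (h + q) * s) ↔ G (n + h * s) := by
    intro h
    have h1 : ∀ k m, G (m + q * k) ↔ G m := by
      intro k
      induction k with
      | zero => intro m; simp
      | succ k ih =>
        intro m
        rw [show m + q * (k + 1) = (m + q * k) + q by ring, hG, ih]
    rw [show n + (h + q) * s = (n + h * s) + q * s by ring]
    exact h1 s _
  have hmod : ∀ m, G m ↔ G (m % q) := by
    intro m
    have h1 : ∀ k m, G (m + q * k) ↔ G m := by
      intro k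
      induction k with
      | zero => intro m; simp
      | succ k ih =>
        intro m
        rw [show m + q * (k + 1) = (m + q * k) + q by ring, hG, ih]
    conv_lhs => rw [← Nat.mod_add_div m q]
    exact h1 _ _
  rw [Nat.filter_Ico_card_eq_of_periodic M q (fun h => G (n + h * s)) (fun h => propext (hper h)),
    Nat.count_eq_card_filter_range]
  obtain ⟨φ, hφ⟩ : ∃ φ : ℕ → ℕ, φ = fun h => (n + h * s) % q := ⟨_, rfl⟩
  have hinj : Set.InjOn φ (range q) := by
    intro x hx y hy hxy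
    rw [mem_coe, mem_range] at hx hy
    rw [hφ] at hxy
    have h1 : n + x * s ≡ n + y * s [MOD q] := hxy
    have h2 : x * s ≡ y * s [MOD q] := Nat.ModEq.add_left_cancel' n h1
    have h3 : x ≡ y [MOD q] := Nat.ModEq.cancel_right_of_coprime
      (by rw [Nat.coprime_comm] at hs; exact hs) h2
    exact Nat.ModEq.eq_of_lt_of_lt h3 hx hy
  have himg : (range q).image φ = range q := by
    apply eq_of_subset_of_card_le
    · intro m hm
      rw [mem_image] at hm
      obtain ⟨h, _, rfl⟩ := hm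
      rw [mem_range, hφ]
      exact Nat.mod_lt _ hq0
    · rw [card_image_of_injOn hinj]
  have e : (range q).filter G = ((range q).filter fun h => G (n + h * s)).image φ := by
    ext m
    rw [mem_filter, mem_image]
    constructor
    · rintro ⟨h1, h2⟩
      rw [← himg, mem_image] at h1
      obtain ⟨h, hh, rfl⟩ := h1
      refine ⟨h, mem_filter.2 ⟨hh, ?_⟩, rfl⟩
      rw [hφ] at h2
      exact (hmod _).2 h2
    · rintro ⟨h, hh, rfl⟩
      rw [mem_filter] at hh
      refine ⟨by rw [← himg]; exact mem_image_of_mem _ hh.1, ?_⟩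
      rw [hφ]
      exact (hmod _).1 hh.2
  rw [e, card_image_of_injOn]
  exact hinj.mono fun h hh => (mem_filter.1 hh).1

/-- the mean of `V2` over a period -/
theorem V2_period (hQ : Base Q c) {P : Finset ℕ} (hP : ∀ p ∈ P, p.Prime) {s : ℕ}
    (hs : ∀ p ∈ P, ¬ p ∣ s) (M : ℕ) :
    ∑ h ∈ Ico M (M + ∏ p ∈ P, p), V2 Q (h * s) P = (∏ p ∈ P, p : ℕ) * V1 Q P ^ 2 := by
  obtain ⟨q, hq⟩ : ∃ q, q = ∏ p ∈ P, p := ⟨_, rfl⟩
  have hq0 : 0 < q := hq ▸ prod_pos fun p hp => (hP p hp).pos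
  have hqr : (0 : ℝ) < q := by exact_mod_cast hq0
  have hcop : s.Coprime q := by
    rw [hq]
    apply Nat.Coprime.prod_right
    intro p hp
    exact ((hP p hp).coprime_iff_not_dvd.2 (hs p hp)).symm
  have hV : ∀ Q : ℕ → ℕ → Prop, Per Q → ∏ p ∈ P, (1 - (rr Q p : ℝ) / p) =
      (((range q).filter fun n => ∀ p ∈ P, ¬ Q p n).card : ℝ) / q := by
    intro Q hQ
    have h0 := crt_range (per_not hQ) P hP
    have h1 : ((range q).filter (fun n => ∀ p ∈ P, ¬ Q p n)).card =
        ∏ p ∈ P, rr (fun p n => ¬ Q p n) p := by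
      rw [← h0, hq]
      congr 1
      ext n
      simp only [mem_filter]
    rw [h1, hq]
    push_cast
    rw [← prod_div_distrib]
    refine prod_congr rfl fun p hp => ?_
    have hp0 : (p : ℝ) ≠ 0 := by exact_mod_cast (hP p hp).ne_zero
    rw [rr_not, Nat.cast_sub (rr_le Q p), sub_div, div_self hp0]
  obtain ⟨G, hG⟩ : ∃ G : ℕ → Prop, G = fun n => ∀ p ∈ P, ¬ Q p n := ⟨_, rfl⟩
  have hGper : ∀ n, G (n + q) ↔ G n := by
    intro n
    rw [hG]
    refine forall₂_congr fun p hp => not_congr ?_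
    obtain ⟨k, hk⟩ : p ∣ q := hq ▸ dvd_prod_of_mem _ hp
    rw [hk]
    exact per_mul hQ.per p n k
  obtain ⟨R, hR⟩ : ∃ R, R = ((range q).filter G).card := ⟨_, rfl⟩
  have e1 : V1 Q P = (R : ℝ) / q := by
    have h := hV Q hQ.per
    rw [V1, h, hR, hG]
    congr!
  have e2 : ∀ h, V2 Q h P = (((range q).filter fun n => G n ∧ G (n + h)).card : ℝ) / q := by
    intro h
    have h1 := hV (Q2 Q h) (per_Q2 hQ.per h)
    rw [V2, h1]
    congr 3
    ext n
    rw [mem_filter, mem_filter, hG]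
    refine and_congr_right fun _ => ?_
    constructor
    · intro h2
      exact ⟨fun p hp h3 => h2 p hp (Or.inl h3), fun p hp h3 => h2 p hp (Or.inr h3)⟩
    · rintro ⟨h2, h3⟩ p hp (h5 | h5)
      · exact h2 p hp h5
      · exact h3 p hp h5
  rw [← hq, sum_congr rfl fun h _ => e2 (h * s), ← sum_div, e1]
  have e3 : ∑ h ∈ Ico M (M + q), (((range q).filter fun n => G n ∧ G (n + h * s)).card : ℝ) =
      (R : ℝ) * R := by
    have h1 : ∑ h ∈ Ico M (M + q), ((range q).filter fun n => G n ∧ G (n + h * s)).card =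
        ∑ n ∈ (range q).filter G, ((Ico M (M + q)).filter fun h => G (n + h * s)).card := by
      simp_rw [card_filter]
      rw [sum_comm]
      rw [sum_filter]
      refine sum_congr rfl fun n _ => ?_
      by_cases hn : G n
      · rw [if_pos hn]
        refine sum_congr rfl fun h _ => ?_
        simp [hn]
      · rw [if_neg hn]
        refine sum_eq_zero fun h _ => ?_
        simp [hn]
    have h2 : ∀ n, ((Ico M (M + q)).filter fun h => G (n + h * s)).card = R := by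
      intro n
      rw [hR]
      exact perm_count hq0 hGper hcop n M
    rw [sum_congr rfl fun n _ => h2 n, sum_const, smul_eq_mul, ← hR] at h1
    exact_mod_cast h1
  rw [e3]
  field_simp

/-- the mean of `V2` over an initial interval -/
theorem V2_sum (hQ : Base Q c) {P : Finset ℕ} (hP : ∀ p ∈ P, p.Prime) {s : ℕ}
    (hs : ∀ p ∈ P, ¬ p ∣ s) (k : ℕ) :
    ∑ h ∈ Icc 1 k, V2 Q (h * s) P ≤ ((k : ℝ) + (∏ p ∈ P, p : ℕ)) * V1 Q P ^ 2 := by
  obtain ⟨q, hq⟩ : ∃ q, q = ∏ p ∈ P, p := ⟨_, rfl⟩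
  have hq0 : 0 < q := hq ▸ prod_pos fun p hp => (hP p hp).pos
  have h1 : ∀ m M : ℕ, ∑ h ∈ Ico M (M + q * m), V2 Q (h * s) P = (q * m : ℕ) * V1 Q P ^ 2 := by
    intro m
    induction m with
    | zero => intro M; simp
    | succ m ih =>
      intro M
      have e : Ico M (M + q * (m + 1)) = Ico M (M + q * m) ∪ Ico (M + q * m) (M + q * m + q) := by
        rw [Ico_union_Ico_eq_Ico (by omega) (by omega)]
        congr 1
        ring
      rw [e, sum_union (Ico_disjoint_Ico_consecutive _ _ _), ih, hq, V2_period hQ hP hs]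
      push_cast
      ring
  have h2 : Icc 1 k ⊆ Ico 1 (1 + q * (k / q + 1)) := by
    intro h hh
    rw [mem_Icc] at hh
    rw [mem_Ico]
    have := Nat.lt_mul_div_succ k hq0
    omega
  have h3 := sum_le_sum_of_subset_of_nonneg (f := fun h => V2 Q (h * s) P) h2
    (fun h _ _ => V2_nonneg Q _ hP)
  rw [h1] at h3
  refine h3.trans ?_
  rw [← hq]
  apply mul_le_mul_of_nonneg_right _ (sq_nonneg _)
  have h4 : q * (k / q + 1) ≤ k + q := by
    have := Nat.mul_div_le k q
    rw [mul_add, mul_one]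
    omega
  exact_mod_cast h4

end Run7.h870.LG
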