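import Pool.Agent.Run7.h870.LG.Mom
import Pool.Agent.Run7.h870.LG.Avg
import Pool.Agent.Run7.h870.LI.Hyp

/-!
# The hypotheses on the counts; the second moment over progressions with difference `s`
-/

set_option autoImplicit false
set_option linter.all false

namespace Run7.h870.LG

open Finset
open Pool.Agent.Y882
open Run7.h870.LI (Per rr ind_prod fll rr_congr per_shift rr_shift sq_expand per_mul)
open scoped Classical

/-- the conditions modulo the primes for a pair -/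
def Q3 (Q : ℕ → ℕ → Prop) (T T' : Finset ℕ) (h p n : ℕ) : Prop :=
  if p ∈ T then Q p n else if p ∈ T' then Q p (n + h) else Q2 Q h p n

theorem per_Q3 {Q : ℕ → ℕ → Prop} (hQ : Per Q) (T T' : Finset ℕ) (h : ℕ) : Per (Q3 Q T T' h) := by
  intro p n
  unfold Q3
  split_ifs
  · exact hQ p n
  · exact per_shift hQ h p n
  · exact per_Q2 hQ h p n

theorem hyp_of : ∃ C : ℕ, 1 ≤ C ∧ ∀ (Q : ℕ → ℕ → Prop) (c b J D : ℕ) (P P2 : Finset ℕ)
    (y : Finset ℕ → ℝ) (B0 Bt Dy : ℝ), Base Q c → C * (2 * c + 1) ≤ b →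
    (∀ p ∈ P, p.Prime ∧ p ≤ 2 ^ 2 ^ J) →
    (∏ p ∈ Icc 1 (C * (2 * c + 1)), p) * (2 ^ 2 ^ J) ^ (C * b) ≤ D → (∀ p ∈ P2, p.Prime) →
    Disjoint P2 P → (∀ T, |y T| ≤ B0) →
    ((P2.powerset.filter fun T => y T ≠ 0).card : ℝ) ≤ Dy → 0 ≤ Bt →
    (∀ T ⊆ P2, y T ≠ 0 → ∀ U ⊆ T, ∏ p ∈ U, (rr Q p : ℝ) ≤ Bt) →
    Hyp Q c P P2 y B0 ((1 / 2) ^ b) ((J + 1) * D ^ 2) Bt Dy := by
  obtain ⟨C, hC, HF⟩ := fll
  refine ⟨C, hC, ?_⟩
  intro Q c b J D P P2 y B0 Bt Dy hQ hb hP hD hP2 hd hB hDy hBt0 hBt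
  have hrr : ∀ p ∈ P, rr Q p ≤ 2 * c := fun p hp => (hQ.le p (hP p hp).1).trans (by omega)
  refine ⟨hQ, fun p hp => (hP p hp).1, hP2, hB, by positivity, by positivity, hDy, hBt0, hBt,
    ?_, ?_, ?_⟩
  · intro P0 hP0 M L
    have h1 := HF (2 * c) b J D P0 hb (fun p hp => hP p (hP0 hp)) hD Q hQ.per
      (fun p hp => hrr p (hP0 hp)) ∅ (fun p hp => absurd hp (notMem_empty p)) (disjoint_empty_left _)
      M L
    rw [prod_empty, prod_empty, mul_one, mul_one] at h1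
    exact h1
  · intro T hT M L
    exact HF (2 * c) b J D P hb hP hD Q hQ.per hrr T (fun p hp => hP2 p (hT hp))
      (disjoint_of_subset_left hT hd) M L
  · intro T hT T' hT' hTT h M L
    have hdT : Disjoint T P := disjoint_of_subset_left hT hd
    have hdT' : Disjoint T' P := disjoint_of_subset_left hT' hd
    have r1 : ∀ p ∈ T, rr (Q3 Q T T' h) p = rr Q p := fun p hp =>
      rr_congr fun n => by unfold Q3; rw [if_pos hp]
    have r2 : ∀ p ∈ T', rr (Q3 Q T T' h) p = rr Q p := fun p hp => by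
      have hpT : p ∉ T := fun h' => (disjoint_left.1 hTT) h' hp
      rw [← rr_shift hQ.per p h]
      exact rr_congr fun n => by unfold Q3; rw [if_neg hpT, if_pos hp]
    have r3 : ∀ p ∈ P, rr (Q3 Q T T' h) p = rr (Q2 Q h) p := fun p hp =>
      rr_congr fun n => by
        unfold Q3
        rw [if_neg fun h' => (disjoint_left.1 hdT) h' hp,
          if_neg fun h' => (disjoint_left.1 hdT') h' hp]
    have h1 := HF (2 * c) b J D P hb hP hD (Q3 Q T T' h) (per_Q3 hQ.per T T' h)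
      (fun p hp => by
        rw [r3 p hp]
        have := rr_Q2_le hQ.per h p
        have := hQ.le p (hP p hp).1
        omega) (T ∪ T') (fun p hp => by
          rcases mem_union.1 hp with hp | hp
          · exact hP2 p (hT hp)
          · exact hP2 p (hT' hp))
      (disjoint_union_left.2 ⟨hdT, hdT'⟩) M L
    have e1 : ∏ p ∈ T ∪ T', ((rr (Q3 Q T T' h) p : ℝ) / p) =
        (∏ p ∈ T, gg Q p) * ∏ p ∈ T', gg Q p := by
      rw [prod_union hTT]
      congr 1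
      · exact prod_congr rfl fun p hp => by rw [r1 p hp, gg]
      · exact prod_congr rfl fun p hp => by rw [r2 p hp, gg]
    have e2 : ∏ p ∈ T ∪ T', (rr (Q3 Q T T' h) p : ℝ) =
        (∏ p ∈ T, (rr Q p : ℝ)) * ∏ p ∈ T', (rr Q p : ℝ) := by
      rw [prod_union hTT]
      congr 1
      · exact prod_congr rfl fun p hp => by rw [r1 p hp]
      · exact prod_congr rfl fun p hp => by rw [r2 p hp]
    have e3 : ∏ p ∈ P, (1 - (rr (Q3 Q T T' h) p : ℝ) / p) = V2 Q h P :=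
      prod_congr rfl fun p hp => by rw [r3 p hp]
    have e4 : ((Ico M (M + L)).filter fun n => (∀ p ∈ T ∪ T', Q3 Q T T' h p n) ∧
        ∀ p ∈ P, ¬ Q3 Q T T' h p n).card = c2 Q P T T' h M L := by
      rw [c2]
      congr 1
      refine filter_congr fun n _ => ?_
      have q1 : ∀ p ∈ T, (Q3 Q T T' h p n ↔ Q p n) := fun p hp => by
        unfold Q3
        rw [if_pos hp]
      have q2 : ∀ p ∈ T', (Q3 Q T T' h p n ↔ Q p (n + h)) := fun p hp => by
        have hpT : p ∉ T := fun h' => (disjoint_left.1 hTT) h' hp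
        unfold Q3
        rw [if_neg hpT, if_pos hp]
      have q3 : ∀ p ∈ P, (Q3 Q T T' h p n ↔ Q2 Q h p n) := fun p hp => by
        unfold Q3
        rw [if_neg fun h' => (disjoint_left.1 hdT) h' hp,
          if_neg fun h' => (disjoint_left.1 hdT') h' hp]
      constructor
      · rintro ⟨h2, h3⟩
        refine ⟨⟨fun p hp => (q1 p hp).1 (h2 p (mem_union_left _ hp)), fun p hp h4 => ?_⟩,
          fun p hp => (q2 p hp).1 (h2 p (mem_union_right _ hp)), fun p hp h4 => ?_⟩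
        · exact h3 p hp ((q3 p hp).2 (Or.inl h4))
        · exact h3 p hp ((q3 p hp).2 (Or.inr h4))
      · rintro ⟨⟨h2, h3⟩, h4, h5⟩
        refine ⟨fun p hp => ?_, fun p hp h6 => ?_⟩
        · rcases mem_union.1 hp with hp | hp
          · exact (q1 p hp).2 (h2 p hp)
          · exact (q2 p hp).2 (h4 p hp)
        · rcases (q3 p hp).1 h6 with h6 | h6
          · exact h3 p hp h6
          · exact h5 p hp h6
    rw [e1, e2, e3, e4] at h1
    exact h1

section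

variable {Q : ℕ → ℕ → Prop} {c : ℕ} {P P2 : Finset ℕ} {y : Finset ℕ → ℝ} {B0 δ E0 Bt Dy : ℝ}

/-- the weights in a progression -/
noncomputable def AA (Q : ℕ → ℕ → Prop) (P P2 : Finset ℕ) (y : Finset ℕ → ℝ) (s H n : ℕ) : ℝ :=
  ∑ j ∈ range H, ww Q P P2 y (n + j * s)

/-- the classes prime to the small prime factors of `s` -/
noncomputable def Gd (Q : ℕ → ℕ → Prop) (P : Finset ℕ) (s M L : ℕ) : Finset ℕ :=
  (Ico M (M + L)).filter fun n => ∀ p ∈ P.filter (fun p => p ∣ s), ¬ Q p n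

theorem AA_zero (hQ : Per Q) {s H M L n : ℕ} (hn : n ∈ Ico M (M + L)) (hn2 : n ∉ Gd Q P s M L) :
    AA Q P P2 y s H n = 0 := by
  unfold Gd at hn2
  rw [mem_filter, not_and] at hn2
  have h1 := hn2 hn
  push Not at h1
  obtain ⟨p, hp, hp2⟩ := h1
  rw [mem_filter] at hp
  unfold AA
  refine sum_eq_zero fun j _ => ?_
  unfold ww
  rw [if_neg]
  intro h2
  apply h2 p hp.1
  obtain ⟨k, hk⟩ := hp.2
  rw [hk, show j * (p * k) = p * (j * k) by ring]
  exact (per_mul hQ p n _).2 hp2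

/-- **the second moment over short progressions** -/
theorem second (Hy : Hyp Q c P P2 y B0 δ E0 Bt Dy) {s H M L : ℕ} {vm η κ : ℝ} (hη : 0 ≤ η)
    (hη1 : η ≤ 1 / 2) (hδ1 : δ ≤ 1) (hκ0 : 0 ≤ κ)
    (hco : ∀ h ∈ Ico 1 H, 2 * (2 ^ (P2.filter fun p => Cd Q p (h * s)).card *
      ∑ p ∈ P2.filter (fun p => Cd Q p (h * s)), gg Q p) ≤ κ)
    (hs : ∀ k ≤ H, ∑ h ∈ Icc 1 k, V2 Q (h * s) P ≤
      V1 Q P ^ 2 / V1 Q (P.filter fun p => p ∣ s) * (k + η * H))
    (hv : ∀ n, M ≤ n → n < M + L + H * s → (∀ p ∈ P, ¬ Q p n) → |vv Q P2 y n| ≤ vm)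
    (hM : 0 ≤ VV P2 y (gg Q)) :
    ∑ n ∈ Gd Q P s M L, (AA Q P P2 y s H n -
      H * (V1 Q P / V1 Q (P.filter fun p => p ∣ s)) * VV P2 y (gg Q)) ^ 2 ≤
      L * (V1 Q P ^ 2 / V1 Q (P.filter fun p => p ∣ s)) * H ^ 2 * (2 * η * VV P2 y (gg Q) ^ 2 +
        5 * Sy Q P2 B0 ^ 2 * (δ + ∑ p ∈ P2, gg Q p ^ 2 + κ)) +
      H * (vm ^ 2 * ((1 + δ) * (L * V1 Q P) + E0)) + H ^ 2 * (E0 * (B0 * Dy * Bt) ^ 2) +
      2 * H ^ 2 * (V1 Q P / V1 Q (P.filter fun p => p ∣ s)) * VV P2 y (gg Q) *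
        (E0 * (B0 * Dy * Bt)) +
      H ^ 2 * (V1 Q P / V1 Q (P.filter fun p => p ∣ s)) ^ 2 * VV P2 y (gg Q) ^ 2 * E0 := by
  obtain ⟨V, hV⟩ : ∃ V, V = V1 Q P := ⟨_, rfl⟩
  obtain ⟨W, hW⟩ : ∃ W, W = V1 Q (P.filter fun p => p ∣ s) := ⟨_, rfl⟩
  obtain ⟨My, hMy⟩ : ∃ My, My = VV P2 y (gg Q) := ⟨_, rfl⟩
  obtain ⟨S, hS⟩ : ∃ S, S = Sy Q P2 B0 := ⟨_, rfl⟩
  obtain ⟨G2, hG2⟩ : ∃ G2, G2 = ∑ p ∈ P2, gg Q p ^ 2 := ⟨_, rfl⟩
  obtain ⟨E2, hE2⟩ : ∃ E2, E2 = E0 * (B0 * Dy * Bt) ^ 2 := ⟨_, rfl⟩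
  obtain ⟨E1, hE1⟩ : ∃ E1, E1 = E0 * (B0 * Dy * Bt) := ⟨_, rfl⟩
  obtain ⟨Dg, hDg⟩ : ∃ Dg, Dg = vm ^ 2 * ((1 + δ) * (L * V1 Q P) + E0) := ⟨_, rfl⟩
  have hV0 : 0 < V := hV ▸ V1_pos Hy.hQ Hy.hP
  have hW0 : 0 < W := hW ▸ V1_pos Hy.hQ (fun p hp => Hy.hP p (mem_filter.1 hp).1)
  have hS0 : 0 ≤ S := hS ▸ Sy_nonneg Hy
  have hMS : My ≤ S := by
    rw [hMy, hS]
    exact (le_abs_self _).trans (My_abs Hy)
  have hG20 : 0 ≤ G2 := hG2 ▸ sum_nonneg fun p _ => sq_nonneg _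
  have hδ := Hy.hδ
  have hE0 := Hy.hE
  rw [← hMy] at hM
  have hL0 : (0 : ℝ) ≤ L := Nat.cast_nonneg _
  have hH0 : (0 : ℝ) ≤ H := Nat.cast_nonneg _
  obtain ⟨Wt, hWt⟩ : ∃ Wt, Wt = My ^ 2 + S ^ 2 * (δ + G2 + κ) := ⟨_, rfl⟩
  have hWt0 : 0 ≤ Wt := by rw [hWt]; positivity
  obtain ⟨U, hU⟩ : ∃ U, U = V ^ 2 / W := ⟨_, rfl⟩
  have hU0 : 0 < U := by rw [hU]; positivity
  obtain ⟨R, hR⟩ : ∃ R, R = V / W := ⟨_, rfl⟩
  have hR0 : 0 < R := by rw [hR]; positivity
  have hRV : R * V = U := by rw [hR, hU]; ring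
  have hRW : R ^ 2 * W = U := by
    rw [hR, hU]
    field_simp
  -- the diagonal
  have d1 : ∑ j ∈ range H, ∑ n ∈ Ico M (M + L), ww Q P P2 y (n + j * s) ^ 2 ≤ H * Dg := by
    have d2 : ∀ j ∈ range H, ∑ n ∈ Ico M (M + L), ww Q P P2 y (n + j * s) ^ 2 ≤ Dg := by
      intro j hj
      rw [mem_range] at hj
      rw [sum_Ico_add' (fun n => ww Q P P2 y n ^ 2) M (M + L) (j * s),
        show M + L + j * s = (M + j * s) + L by ring, hDg]
      refine diag Hy (M + j * s) L fun n hn => hv n ?_ ?_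
      · rw [mem_Ico] at hn
        omega
      · rw [mem_Ico] at hn
        have : j * s ≤ H * s := Nat.mul_le_mul_right s hj.le
        omega
    refine (sum_le_sum d2).trans ?_
    rw [sum_const, nsmul_eq_mul, card_range]
  -- off the diagonal
  have o1 : ∑ j ∈ range H, ∑ h ∈ Icc 1 j, ∑ n ∈ Ico M (M + L),
      ww Q P P2 y (n + (j - h) * s) * ww Q P P2 y (n + j * s) ≤
      L * U * (H ^ 2 * (1 / 2 + η)) * Wt + H ^ 2 / 2 * E2 := by
    have o2 : ∀ j ∈ range H, ∑ h ∈ Icc 1 j, ∑ n ∈ Ico M (M + L),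
        ww Q P P2 y (n + (j - h) * s) * ww Q P P2 y (n + j * s) ≤
        L * (U * (j + η * H)) * Wt + j * E2 := by
      intro j hj
      rw [mem_range] at hj
      have o3 : ∀ h ∈ Icc 1 j, ∑ n ∈ Ico M (M + L),
          ww Q P P2 y (n + (j - h) * s) * ww Q P P2 y (n + j * s) ≤
            L * V2 Q (h * s) P * Wt + E2 := by
        intro h hh'
        rw [mem_Icc] at hh'
        have e : ∀ n ∈ Ico M (M + L), ww Q P P2 y (n + (j - h) * s) * ww Q P P2 y (n + j * s) =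
            ww Q P P2 y (n + (j - h) * s) * ww Q P P2 y (n + (j - h) * s + h * s) := by
          intro n _
          have e1 : (j - h) * s + h * s = j * s := by
            rw [← add_mul, Nat.sub_add_cancel hh'.2]
          rw [add_assoc n, e1]
        rw [sum_congr rfl e,
          sum_Ico_add' (fun n => ww Q P P2 y n * ww Q P P2 y (n + h * s)) M (M + L) ((j - h) * s),
          show M + L + (j - h) * s = (M + (j - h) * s) + L by ring]
        have o4 := off Hy (h * s) (M + (j - h) * s) L (Co := P2.filter fun p => Cd Q p (h * s))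
          (filter_subset _ _) (fun p hp hc => mem_filter.2 ⟨hp, hc⟩) hδ1
          (hco h (mem_Ico.2 ⟨hh'.1, by omega⟩))
        rw [← hMy, ← hS, ← hG2, ← hE2, ← hWt] at o4
        exact o4
      refine (sum_le_sum o3).trans ?_
      rw [sum_add_distrib, sum_const, nsmul_eq_mul, Nat.card_Icc, Nat.add_sub_cancel]
      have o5 := hs j hj.le
      rw [← hV, ← hW, ← hU] at o5
      have e2 : ∑ h ∈ Icc 1 j, (L : ℝ) * V2 Q (h * s) P * Wt =
          L * (∑ h ∈ Icc 1 j, V2 Q (h * s) P) * Wt := by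
        rw [mul_sum, sum_mul]
      rw [e2]
      apply add_le_add _ le_rfl
      apply mul_le_mul_of_nonneg_right _ hWt0
      exact mul_le_mul_of_nonneg_left o5 hL0
    refine (sum_le_sum o2).trans ?_
    have hsum : ∑ j ∈ range H, (j : ℝ) ≤ (H : ℝ) ^ 2 / 2 := by
      have h1 : ∀ m : ℕ, ∑ j ∈ range m, (j : ℝ) ≤ (m : ℝ) ^ 2 / 2 := by
        intro m
        induction m with
        | zero => simp
        | succ m ih =>
          rw [sum_range_succ]
          push_cast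
          linarith
      exact h1 H
    have hE20 : 0 ≤ E2 := by rw [hE2]; exact mul_nonneg Hy.hE (sq_nonneg _)
    have e3 : ∑ j ∈ range H, ((L : ℝ) * (U * (j + η * H)) * Wt + j * E2) =
        L * U * Wt * (∑ j ∈ range H, (j : ℝ)) + L * U * Wt * (H * (η * H)) +
          (∑ j ∈ range H, (j : ℝ)) * E2 := by
      rw [mul_sum, sum_mul]
      have : (L : ℝ) * U * Wt * (H * (η * H)) = ∑ j ∈ range H, L * U * Wt * (η * H) := by
        rw [sum_const, nsmul_eq_mul, card_range]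
        ring
      rw [this, ← sum_add_distrib, ← sum_add_distrib]
      exact sum_congr rfl fun j _ => by ring
    rw [e3]
    have k1 := mul_le_mul_of_nonneg_left hsum
      (show 0 ≤ (L : ℝ) * U * Wt by positivity)
    have k2 := mul_le_mul_of_nonneg_right hsum hE20
    linarith
  -- the sums over the good classes
  have hsub : Gd Q P s M L ⊆ Ico M (M + L) := filter_subset _ _
  have g1 : ∑ n ∈ Gd Q P s M L, AA Q P P2 y s H n = ∑ n ∈ Ico M (M + L), AA Q P P2 y s H n :=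
    sum_subset hsub fun n hn hn2 => AA_zero Hy.hQ.per hn hn2
  have g2 : ∑ n ∈ Gd Q P s M L, AA Q P P2 y s H n ^ 2 =
      ∑ n ∈ Ico M (M + L), AA Q P P2 y s H n ^ 2 :=
    sum_subset hsub fun n hn hn2 => by rw [AA_zero Hy.hQ.per hn hn2]; simp
  have g3 : ((Gd Q P s M L).card : ℝ) ≤ (1 + δ) * (L * W) + E0 := by
    have h1 := Hy.F0 (P.filter fun p => p ∣ s) (filter_subset _ _) M L
    have h2 := (abs_le.1 h1).2
    have h3 : c1 Q (P.filter fun p => p ∣ s) ∅ M L = (Gd Q P s M L).card := by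
      unfold c1 Gd
      congr 1
      refine filter_congr fun n _ => ?_
      simp
    rw [h3, ← hW] at h2
    linarith
  -- the first moment
  have f1 : H * (L * V * (My - δ * S) - E1) ≤ ∑ n ∈ Ico M (M + L), AA Q P P2 y s H n := by
    have f2 : ∀ j ∈ range H, L * V * (My - δ * S) - E1 ≤
        ∑ n ∈ Ico M (M + L), ww Q P P2 y (n + j * s) := by
      intro j _
      rw [sum_Ico_add' (fun n => ww Q P P2 y n) M (M + L) (j * s),
        show M + L + j * s = (M + j * s) + L by ring, hV, hMy, hS, hE1]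
      exact first Hy (M + j * s) L
    unfold AA
    rw [sum_comm]
    refine le_trans (le_of_eq ?_) (sum_le_sum f2)
    rw [sum_const, nsmul_eq_mul, card_range]
  -- the square
  have s1 : ∑ n ∈ Ico M (M + L), AA Q P P2 y s H n ^ 2 ≤
      H * Dg + 2 * (L * U * (H ^ 2 * (1 / 2 + η)) * Wt + H ^ 2 / 2 * E2) := by
    have e : ∑ n ∈ Ico M (M + L), AA Q P P2 y s H n ^ 2 =
        ∑ j ∈ range H, ∑ n ∈ Ico M (M + L), ww Q P P2 y (n + j * s) ^ 2 +
        2 * ∑ j ∈ range H, ∑ h ∈ Icc 1 j, ∑ n ∈ Ico M (M + L),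
          ww Q P P2 y (n + (j - h) * s) * ww Q P P2 y (n + j * s) := by
      unfold AA
      rw [sum_congr rfl fun n _ => sq_expand (fun j => ww Q P P2 y (n + j * s)) H,
        sum_add_distrib, ← mul_sum, sum_comm]
      congr 2
      rw [sum_comm]
      refine sum_congr rfl fun j _ => ?_
      rw [sum_comm]
    rw [e]
    linarith
  have e5 : ∑ n ∈ Gd Q P s M L, (AA Q P P2 y s H n - H * R * My) ^ 2 =
      ∑ n ∈ Gd Q P s M L, AA Q P P2 y s H n ^ 2 -
        2 * (H * R * My) * ∑ n ∈ Gd Q P s M L, AA Q P P2 y s H n +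
        (Gd Q P s M L).card * (H * R * My) ^ 2 := by
    rw [mul_sum]
    have : ((Gd Q P s M L).card : ℝ) * (H * R * My) ^ 2 =
        ∑ n ∈ Gd Q P s M L, (H * R * My) ^ 2 := by
      rw [sum_const, nsmul_eq_mul]
    rw [this, ← sum_sub_distrib, ← sum_add_distrib]
    exact sum_congr rfl fun n _ => by ring
  rw [← hV, ← hW, ← hMy, ← hS, ← hG2, ← hE2, ← hE1, ← hU, ← hR]
  rw [← hV] at hDg
  rw [← hDg, e5, g1, g2]
  have k3 := mul_le_mul_of_nonneg_left f1 (show 0 ≤ 2 * (H * R * My) by positivity)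
  have k8 := mul_le_mul_of_nonneg_right g3 (show 0 ≤ (H * R * My) ^ 2 by positivity)
  have k9 : ((1 + δ) * (L * W) + E0) * (H * R * My) ^ 2 =
      L * U * H ^ 2 * ((1 + δ) * My ^ 2) + H ^ 2 * R ^ 2 * My ^ 2 * E0 := by
    rw [← hRW]
    ring
  have k10 : 2 * (H * R * My) * (H * (L * V * (My - δ * S) - E1)) =
      L * U * H ^ 2 * (2 * My * (My - δ * S)) - 2 * H ^ 2 * R * My * E1 := by
    rw [← hRV]
    ring
  rw [k9] at k8
  rw [k10] at k3
  have k4 : L * U * H ^ 2 * ((1 + 2 * η) * Wt - 2 * My * (My - δ * S) + (1 + δ) * My ^ 2) ≤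
      L * U * H ^ 2 * (2 * η * My ^ 2 + 5 * S ^ 2 * (δ + G2 + κ)) := by
    apply mul_le_mul_of_nonneg_left _ (by positivity)
    rw [hWt]
    have k5 : My * (δ * S) ≤ S * (δ * S) := mul_le_mul_of_nonneg_right hMS (by positivity)
    have k6 : 2 * η * (S ^ 2 * (δ + G2 + κ)) ≤ 1 * (S ^ 2 * (δ + G2 + κ)) :=
      mul_le_mul_of_nonneg_right (by linarith) (by positivity)
    have k7 : 0 ≤ S ^ 2 * G2 := by positivity
    have k7' : 0 ≤ S ^ 2 * κ := by positivity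
    have k11 : δ * My ^ 2 ≤ δ * S ^ 2 :=
      mul_le_mul_of_nonneg_left (pow_le_pow_left₀ hM hMS 2) hδ
    nlinarith
  linarith

end

end Run7.h870.LG
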