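import Pool.Agent.Run7.h870.LG.Hyp
import Pool.Agent.Run7.h870.LI.Main

/-!
# The main inequality
-/

set_option autoImplicit false
set_option linter.all false

namespace Run7.h870.LG

open Finset Filter
open Pool.Agent.Y882
open Run7.h870.LI (cheb)
open scoped Classical

/-- the main inequality -/
theorem few_of {Q : ℕ → ℕ → Prop} {c : ℕ} {P P2 : Finset ℕ} {y : Finset ℕ → ℝ}
    {B0 δ E0 Bt Dy ε : ℝ} (Hy : Hyp Q c P P2 y B0 δ E0 Bt Dy) {s H M L : ℕ} {vm η κ V W My : ℝ}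
    (hV : V = V1 Q P) (hW : W = V1 Q (P.filter fun p => p ∣ s)) (hMy : My = VV P2 y (gg Q))
    (hη : 0 ≤ η) (hη1 : η ≤ 1 / 2) (hδ1 : δ ≤ 1) (hκ0 : 0 ≤ κ) (hH : 0 < H) (hL : 0 < L)
    (hε : 0 < ε)
    (hco : ∀ h ∈ Ico 1 H, 2 * (2 ^ (P2.filter fun p => Cd Q p (h * s)).card *
      ∑ p ∈ P2.filter (fun p => Cd Q p (h * s)), gg Q p) ≤ κ)
    (hs : ∀ k ≤ H, ∑ h ∈ Icc 1 k, V2 Q (h * s) P ≤ V ^ 2 / W * (k + η * H))
    (hv : ∀ n, M ≤ n → n < M + L + H * s → (∀ p ∈ P, ¬ Q p n) → |vv Q P2 y n| ≤ vm) (hM : 0 < My)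
    (k1 : 64 * η ≤ ε)
    (k2 : Sy Q P2 B0 ^ 2 * (δ + ∑ p ∈ P2, gg Q p ^ 2 + κ) ≤ ε / 160 * My ^ 2)
    (k3 : 3 * vm ^ 2 ≤ ε / 32 * (H * (V / W) * My ^ 2)) (k4 : E0 ≤ L * V)
    (k5 : E0 * (B0 * Dy * Bt) ^ 2 ≤ ε / 32 * (L * (V * My) ^ 2))
    (k6 : 2 * (E0 * (B0 * Dy * Bt)) ≤ ε / 32 * (L * (V * My)))
    (k7 : E0 ≤ ε / 32 * (L * V)) :
    (((Gd Q P s M L).filter fun n => AA Q P P2 y s H n ≤ H * (V / W) * My / 2).card : ℝ)
      ≤ 3 * ε / 4 * (L * W) := by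
  rw [hV, hW] at hs
  have h1 := second Hy hη hη1 hδ1 hκ0 hco hs hv (by rw [← hMy]; exact hM.le)
  obtain ⟨S, hS⟩ : ∃ S, S = Sy Q P2 B0 := ⟨_, rfl⟩
  obtain ⟨G2, hG2⟩ : ∃ G2, G2 = ∑ p ∈ P2, gg Q p ^ 2 := ⟨_, rfl⟩
  obtain ⟨E2, hE2⟩ : ∃ E2, E2 = E0 * (B0 * Dy * Bt) ^ 2 := ⟨_, rfl⟩
  obtain ⟨E1, hE1⟩ : ∃ E1, E1 = E0 * (B0 * Dy * Bt) := ⟨_, rfl⟩
  have hV0 : 0 < V := hV ▸ V1_pos Hy.hQ Hy.hP
  have hPd : ∀ p ∈ P.filter (fun p => p ∣ s), p.Prime := fun p hp => Hy.hP p (mem_filter.1 hp).1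
  have hW0 : 0 < W := hW ▸ V1_pos Hy.hQ hPd
  have hW1 : W ≤ 1 := hW ▸ V1_le_one Q hPd
  have hVW : V ≤ W := by
    have e : V1 Q P = V1 Q (P \ P.filter fun p => p ∣ s) * V1 Q (P.filter fun p => p ∣ s) :=
      (prod_sdiff (filter_subset _ _)).symm
    have h2 : V1 Q (P \ P.filter fun p => p ∣ s) ≤ 1 :=
      V1_le_one Q fun p hp => Hy.hP p (mem_sdiff.1 hp).1
    rw [hV, e, ← hW]
    exact mul_le_of_le_one_left hW0.le h2
  have hHr : (0 : ℝ) < H := by exact_mod_cast hH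
  have hLr : (0 : ℝ) < L := by exact_mod_cast hL
  rw [← hV, ← hW, ← hMy, ← hS, ← hG2, ← hE2, ← hE1] at h1
  rw [← hS, ← hG2] at k2
  rw [← hE2] at k5
  rw [← hE1] at k6
  obtain ⟨U, hU⟩ : ∃ U, U = V ^ 2 / W := ⟨_, rfl⟩
  have hU0 : 0 < U := by rw [hU]; positivity
  obtain ⟨R, hR⟩ : ∃ R, R = V / W := ⟨_, rfl⟩
  have hR0 : 0 < R := by rw [hR]; positivity
  have hRV : R * V = U := by rw [hR, hU]; ring
  have hRW' : R * W = V := by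
    rw [hR]
    field_simp
  have hRW : R ^ 2 * W = U := by
    rw [hR, hU]
    field_simp
  have hUV : V ^ 2 ≤ U := by
    rw [hU]
    exact le_div_self (sq_nonneg V) hW0 hW1
  rw [← hU, ← hR] at h1
  rw [← hR] at k3 ⊢
  have hμ : 0 < H * R * My := by positivity
  have h2 := cheb (fun n => AA Q P P2 y s H n) (Gd Q P s M L) hμ h1
  refine h2.trans ?_
  rw [div_le_iff₀ (by positivity)]
  obtain ⟨Z, hZ⟩ : ∃ Z, Z = L * W * (H * R * My) ^ 2 := ⟨_, rfl⟩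
  have hZU : Z = L * U * H ^ 2 * My ^ 2 := by
    rw [hZ, ← hRW]
    ring
  have t1 : L * U * H ^ 2 * (2 * η * My ^ 2) ≤ ε / 32 * Z := by
    have := mul_le_mul_of_nonneg_right k1 (show 0 ≤ L * U * H ^ 2 * My ^ 2 by positivity)
    rw [hZU]
    linarith
  have t2 : L * U * H ^ 2 * (5 * S ^ 2 * (δ + G2 + κ)) ≤ ε / 32 * Z := by
    have := mul_le_mul_of_nonneg_left k2 (show 0 ≤ L * U * H ^ 2 by positivity)
    rw [hZU]
    linarith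
  have t3 : H * (vm ^ 2 * ((1 + δ) * (L * V) + E0)) ≤ ε / 32 * Z := by
    have u1 : (1 + δ) * (L * V) + E0 ≤ 3 * (L * V) := by
      have := mul_le_mul_of_nonneg_right hδ1 (show 0 ≤ L * V by positivity)
      linarith
    have u2 := mul_le_mul_of_nonneg_left u1 (show 0 ≤ H * vm ^ 2 by positivity)
    have u3 := mul_le_mul_of_nonneg_left k3 (show 0 ≤ H * (L * V) by positivity)
    have e : H * (L * V) * (ε / 32 * (H * R * My ^ 2)) = ε / 32 * Z := by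
      rw [hZU, ← hRV]
      ring
    rw [e] at u3
    linarith
  have t4 : H ^ 2 * E2 ≤ ε / 32 * Z := by
    have u1 : ε / 32 * (L * (V * My) ^ 2) ≤ ε / 32 * (L * (U * My ^ 2)) := by
      apply mul_le_mul_of_nonneg_left _ (by positivity)
      apply mul_le_mul_of_nonneg_left _ hLr.le
      rw [mul_pow]
      exact mul_le_mul_of_nonneg_right hUV (sq_nonneg _)
    have u2 := mul_le_mul_of_nonneg_left (k5.trans u1) (show (0 : ℝ) ≤ H ^ 2 by positivity)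
    rw [hZU]
    linarith
  have t5 : 2 * H ^ 2 * R * My * E1 ≤ ε / 32 * Z := by
    have u1 := mul_le_mul_of_nonneg_left k6 (show 0 ≤ H ^ 2 * R * My by positivity)
    have e : H ^ 2 * R * My * (ε / 32 * (L * (V * My))) = ε / 32 * Z := by
      rw [hZU, ← hRV]
      ring
    rw [e] at u1
    linarith
  have t6 : H ^ 2 * R ^ 2 * My ^ 2 * E0 ≤ ε / 32 * Z := by
    have u0 : E0 ≤ ε / 32 * (L * W) := k7.trans (by
      apply mul_le_mul_of_nonneg_left _ (by positivity)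
      exact mul_le_mul_of_nonneg_left hVW hLr.le)
    have u1 := mul_le_mul_of_nonneg_left u0 (show 0 ≤ H ^ 2 * R ^ 2 * My ^ 2 by positivity)
    rw [hZ]
    linarith
  have e6 : L * U * H ^ 2 * (2 * η * My ^ 2 + 5 * S ^ 2 * (δ + G2 + κ)) =
    L * U * H ^ 2 * (2 * η * My ^ 2) + L * U * H ^ 2 * (5 * S ^ 2 * (δ + G2 + κ)) := by ring
  have e7 : 3 * ε / 4 * (L * W) * (H * R * My) ^ 2 = 3 * ε / 4 * Z := by rw [hZ]; ring
  rw [e6, e7]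
  linarith

end Run7.h870.LG
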