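import Pool.Agent.Run7.h870.LG.Par
import Pool.Agent.Run7.h870.LI.Many

/-!
# Many almost prime values in almost all very short progressions: the choice of the parameters
-/

set_option autoImplicit false
set_option linter.all false

namespace Run7.h870.LG

open Finset Filter
open Pool.Agent.Y882
open Pool.Agent.W23.DC
open Pool.Agent.Y882.SI Pool.Agent.Y882.PX Pool.Agent.Y882.KW
open Run7.h870.LI (Per rr ind_prod rr_le card_le_of_prod fac_nonneg fac_le_one VV_hcongr choose_b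
  few_supp evlog)
open scoped Classical

section

variable {F : ℕ → ℤ} {c g D : ℕ} {cl : ℝ} {R : ℕ → ℕ}

theorem Dat.D_pos (hF : Dat F c g D cl R) : 1 ≤ D := by
  by_contra h
  have h0 : D = 0 := by omega
  have h1 := hF.hR3 1 le_rfl
  have h2 := hF.hR 1 le_rfl
  rw [h0] at h1
  simp at h1
  exact h2 h1

/-- the sizes of the resultants -/
theorem R_size (hF : Dat F c g D cl R) {X h s : ℕ} (hX : 3 ≤ X) (hD : D ≤ X) (h1 : 1 ≤ h)
    (hs : 1 ≤ s) (hhX : h ≤ X) (hsX : s ≤ X) :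
    ((R (h * s) : ℕ) : ℝ) ≤ (X : ℝ) ^ ((2 * D + 1 : ℕ) : ℝ) := by
  rw [Real.rpow_natCast]
  have h2 := hF.hR3 (h * s) (Nat.mul_pos h1 hs)
  have h3 : D * (h * s) ^ D ≤ X ^ (2 * D + 1) := by
    calc D * (h * s) ^ D ≤ X * (X * X) ^ D :=
          Nat.mul_le_mul hD (Nat.pow_le_pow_left (Nat.mul_le_mul hhX hsX) D)
      _ = X ^ (2 * D + 1) := by
          rw [← sq, ← pow_mul]
          ring
  exact_mod_cast h2.trans h3

/-- the sizes of the values -/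
theorem F_size (hF : Dat F c g D cl R) {X n : ℕ} (hX : 3 ≤ X) (hD : D ≤ X) (h1 : 1 ≤ n)
    (hn : n ≤ X ^ 3) : ((F n).natAbs : ℝ) ≤ (X : ℝ) ^ ((3 * g + 1 : ℕ) : ℝ) := by
  rw [Real.rpow_natCast]
  have h2 := hF.size n h1
  have h3 : D * n ^ g ≤ X ^ (3 * g + 1) := by
    calc D * n ^ g ≤ X * (X ^ 3) ^ g := Nat.mul_le_mul hD (Nat.pow_le_pow_left hn g)
      _ = X ^ (3 * g + 1) := by
          rw [← pow_mul]
          ring
  exact_mod_cast h2.trans h3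

/-- few primes larger than `H` divide the resultants -/
theorem few_big {N H : ℕ} {T : Finset ℕ} (hT : ∀ p ∈ T, p.Prime ∧ H < p ∧ p ∣ N) (hN : N ≠ 0)
    {l θ : ℝ} (hl : Real.log N ≤ l) (hH : 2 ≤ H) (hl2 : l ≤ θ * H * Real.log H) :
    (T.card : ℝ) ≤ θ * H := by
  have hHr : (2 : ℝ) ≤ H := by exact_mod_cast hH
  have hlH : 0 < Real.log H := Real.log_pos (by linarith)
  have h1 : ∏ p ∈ T, p ∣ N := by
    apply Finset.prod_primes_dvd
    · intro p hp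
      exact (hT p hp).1.prime
    · exact fun p hp => (hT p hp).2.2
  have h2 := Nat.le_of_dvd (Nat.pos_of_ne_zero hN) h1
  have h3 : H ^ T.card ≤ ∏ p ∈ T, p := by
    rw [← prod_const]
    exact prod_le_prod' fun p hp => (hT p hp).2.1.le
  have h4 : (H : ℝ) ^ T.card ≤ N := by exact_mod_cast h3.trans h2
  have h5 := Real.log_le_log (by positivity) h4
  rw [Real.log_pow] at h5
  have h6 : (T.card : ℝ) * Real.log H ≤ θ * H * Real.log H := h5.trans (hl.trans hl2)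
  exact le_of_mul_le_mul_right h6 hlH


theorem choose_b' (C N : ℕ) (hC : 1 ≤ C) {κ ζ g A ε f0 : ℝ} (hκ : 0 < κ) (hζ : 0 < ζ)
    (hg : 0 < g) (hA : 0 < A) (hε : 0 < ε) (hf : 0 < f0) : ∃ b : ℕ, N ≤ b ∧ 0 < b ∧
      κ / (8 * C * b) ≤ ζ ∧
      κ / (8 * C * b) ≤ g ∧ (3 * A / (κ / (8 * C * b))) ^ 2 * (1 / 2) ^ b ≤
        ε / 480 * (κ / (8 * C * b) * f0) ^ 2 := by
  have hCr : (1 : ℝ) ≤ C := by exact_mod_cast hC
  have t1 : Tendsto (fun b : ℕ => (b : ℝ) ^ 4 * (1 / 2 : ℝ) ^ b) atTop (nhds 0) :=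
    tendsto_pow_const_mul_const_pow_of_abs_lt_one 4 (by rw [abs_of_pos] <;> norm_num)
  have ev1 := t1.eventually_le_const
    (show (0 : ℝ) < ε / 480 * f0 ^ 2 * (κ / (8 * C)) ^ 4 / (9 * A ^ 2) by positivity)
  have ev2 : ∀ᶠ b : ℕ in atTop, κ / (8 * C) / ζ ≤ (b : ℝ) :=
    tendsto_natCast_atTop_atTop.eventually_ge_atTop _
  have ev3 : ∀ᶠ b : ℕ in atTop, κ / (8 * C) / g ≤ (b : ℝ) :=
    tendsto_natCast_atTop_atTop.eventually_ge_atTop _
  obtain ⟨b, h1, h2, h3, h4⟩ :=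
    (ev1.and (ev2.and (ev3.and (eventually_ge_atTop (N + 1))))).exists
  have hb : 0 < b := by omega
  have hbr : (0 : ℝ) < b := by exact_mod_cast hb
  have e : κ / (8 * C * b) = κ / (8 * C) / b := by rw [div_div]
  refine ⟨b, by omega, hb, ?_, ?_, ?_⟩
  · rw [e, div_le_iff₀ hbr]
    rw [div_le_iff₀ hζ] at h2
    linarith
  · rw [e, div_le_iff₀ hbr]
    rw [div_le_iff₀ hg] at h3
    linarith
  · rw [e]
    obtain ⟨k, hk⟩ : ∃ k, k = κ / (8 * C) := ⟨_, rfl⟩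
    have hk0 : 0 < k := by rw [hk]; positivity
    rw [← hk] at h1 ⊢
    rw [le_div_iff₀ (by positivity)] at h1
    have h5 : (3 * A / (k / b)) ^ 2 * (1 / 2) ^ b = 9 * A ^ 2 * b ^ 2 / k ^ 2 * (1 / 2) ^ b := by
      field_simp
      ring
    rw [h5, div_mul_eq_mul_div, div_le_iff₀ (by positivity)]
    have h6 : ε / 480 * (k / b * f0) ^ 2 * k ^ 2 = (ε / 480 * f0 ^ 2 * k ^ 4) / b ^ 2 := by
      field_simp
    rw [h6, le_div_iff₀ (by positivity)]
    calc 9 * A ^ 2 * (b : ℝ) ^ 2 * (1 / 2) ^ b * b ^ 2 = b ^ 4 * (1 / 2) ^ b * (9 * A ^ 2) := by ring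
      _ ≤ _ := h1

/-- the primes with collisions -/
theorem co_le (hF : Dat F c g D cl R) {X h s : ℕ} (hX : 3 ≤ X) (hD : D ≤ X) (h1 : 1 ≤ h)
    (hs : 1 ≤ s) (hhX : h ≤ X) (hsX : s ≤ X) {ε₁ υ : ℝ} (hε : 0 < ε₁) {m : ℕ}
    (hm : ((2 * D + 1 : ℕ) : ℝ) / ε₁ ≤ m) :
    2 * (2 ^ ((pr X ε₁ υ).filter fun p => Cd (Qf F) p (h * s)).card *
      ∑ p ∈ (pr X ε₁ υ).filter (fun p => Cd (Qf F) p (h * s)), gg (Qf F) p) ≤
      2 * (2 ^ m * (m * (c / (X : ℝ) ^ ε₁))) := by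
  have hXr : (3 : ℝ) ≤ X := by exact_mod_cast hX
  have hc1 : ((pr X ε₁ υ).filter fun p => Cd (Qf F) p (h * s)).card ≤ m := by
    apply few_div (by omega) hε hm (hF.hR (h * s) (Nat.mul_pos h1 hs))
      (R_size hF hX hD h1 hs hhX hsX) (filter_subset _ _)
    intro p hp
    obtain ⟨n, hn1, hn2⟩ := (mem_filter.1 hp).2
    exact hF.hR2 p n (h * s) hn1 hn2
  have hsum : ∑ p ∈ (pr X ε₁ υ).filter (fun p => Cd (Qf F) p (h * s)), gg (Qf F) p ≤
      m * (c / (X : ℝ) ^ ε₁) := by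
    calc ∑ p ∈ (pr X ε₁ υ).filter (fun p => Cd (Qf F) p (h * s)), gg (Qf F) p ≤
        ∑ p ∈ (pr X ε₁ υ).filter (fun p => Cd (Qf F) p (h * s)), (c / (X : ℝ) ^ ε₁ : ℝ) := by
          apply sum_le_sum
          intro p hp
          obtain ⟨h5, h6, h7⟩ := pr_mem X p ε₁ υ (by omega) (mem_filter.1 hp).1
          refine (gg_le hF.base h5).trans ?_
          exact div_le_div_of_nonneg_left (Nat.cast_nonneg _) (by positivity) h6
      _ = ((pr X ε₁ υ).filter fun p => Cd (Qf F) p (h * s)).card * (c / (X : ℝ) ^ ε₁) := by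
          rw [sum_const, nsmul_eq_mul]
      _ ≤ _ := by
          apply mul_le_mul_of_nonneg_right _ (by positivity)
          exact_mod_cast hc1
  apply mul_le_mul_of_nonneg_left _ (by norm_num)
  apply mul_le_mul _ hsum (sum_nonneg fun p _ => gg_nonneg _ p) (by positivity)
  exact pow_le_pow_right₀ (by norm_num) hc1


set_option maxHeartbeats 4000000 in
/-- **the weights** -/
theorem many (hF : Dat F c g D cl R) (τ ζ υ lam : ℝ) (hζ : 0 < ζ)
    (h2 : 2 * ζ < τ) (h4 : τ ≤ 4 * ζ) (hτ : 2 * τ < 1) (hζυ : ζ ≤ υ) (hυτ : υ < τ)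
    (hlam : 0 < lam)
    (hJ0 : ∫ x in ζ..υ, (lam - lam / υ * x) / (τ - x) / x < Real.log (τ / ζ - 1) / τ) :
    ∃ δ : ℝ, 0 < δ ∧ ∀ ε : ℝ, 0 < ε → ∃ K ε₁ : ℝ, 0 < K ∧ 0 < ε₁ ∧
      ∃ X0 : ℕ, ∀ X : ℕ, X0 ≤ X → ∀ s H M : ℕ, 1 ≤ s → s ≤ X → 1 ≤ M → M ≤ X →
      K * Real.log X ≤ H → H ≤ X →
      (((Gd (Qf F) (PZ X ε₁) s M X).filter (fun n => ((pos F X ζ υ lam (lam / υ) s H n).card : ℝ) <
        δ * H / (V1 (Qf F) ((PZ X ε₁).filter fun p => p ∣ s) * Real.log X))).card : ℝ) ≤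
        ε * (X * V1 (Qf F) ((PZ X ε₁).filter fun p => p ∣ s)) := by
  have hυ0 : 0 < υ := by linarith
  have hυ1 : υ ≤ 1 := by linarith
  obtain ⟨f0, F0, hf0, hF0, HL4⟩ := lsw4 τ ζ υ lam (lam / υ) hζ h2 h4 (by linarith) hζυ hυτ
    hlam.le (by positivity) (by rw [div_mul_cancel₀ _ hυ0.ne']) hJ0
  have hclp := hF.hcl
  obtain ⟨c1, hc1d⟩ : ∃ c1, c1 = cl / 2 := ⟨_, rfl⟩
  have hc1 : 0 < c1 := by rw [hc1d]; positivity
  have HV := V1_low hF
  rw [← hc1d] at HV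
  obtain ⟨C, hC, HH⟩ := hyp_of
  have hCr : (1 : ℝ) ≤ C := by exact_mod_cast hC
  refine ⟨c1 * f0 / 2, by positivity, ?_⟩
  intro ε hε
  obtain ⟨κ, hκ⟩ : ∃ κ : ℝ, κ = (1 - 2 * τ) / 2 := ⟨_, rfl⟩
  have hκ0 : 0 < κ := by rw [hκ]; linarith
  have hκ1 : κ ≤ 1 / 2 := by rw [hκ]; linarith
  obtain ⟨B0, hB0⟩ : ∃ B0 : ℝ, B0 = 1 + lam := ⟨_, rfl⟩
  have hB0p : 0 < B0 := by rw [hB0]; linarith
  obtain ⟨b, hb5, hbpos, hb1, hb2, hb3⟩ := choose_b' C (C * (2 * c + 1)) hC (κ := κ) (ζ := ζ)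
    (g := τ - υ) (A := B0) (ε := ε) (f0 := f0) hκ0 hζ (by linarith) hB0p hε hf0
  have hbr : (0 : ℝ) < b := by exact_mod_cast hbpos
  obtain ⟨ε₁, hε₁⟩ : ∃ ε₁ : ℝ, ε₁ = κ / (8 * C * b) := ⟨_, rfl⟩
  have hε₁0 : 0 < ε₁ := by rw [hε₁]; positivity
  rw [← hε₁] at hb1 hb2 hb3
  have hε₁υ : ε₁ ≤ υ := hb1.trans hζυ
  have hε₁1 : ε₁ ≤ 1 := hε₁υ.trans hυ1
  obtain ⟨η1, hη1, HW⟩ := HL4 ε₁ hε₁0 hb1 hb2
  obtain ⟨η, hη⟩ : ∃ η : ℝ, η = min (1 / 2) (ε / 64) := ⟨_, rfl⟩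
  have hη0 : 0 < η := by rw [hη]; exact lt_min (by norm_num) (by positivity)
  have hηh : η ≤ 1 / 2 := by rw [hη]; exact min_le_left _ _
  have hηε : 64 * η ≤ ε := by
    have : η ≤ ε / 64 := by rw [hη]; exact min_le_right _ _
    linarith
  obtain ⟨w, H0, θ, hθ, HS⟩ := sing hF.base hF.hc hF.hcl hF.low hη0
  obtain ⟨m, hm⟩ := exists_nat_ge (((3 * g + 1 : ℕ) : ℝ) / ε₁)
  obtain ⟨m1, hm1⟩ := exists_nat_ge (1 / ε₁)
  obtain ⟨m2, hm2⟩ := exists_nat_ge (((2 * D + 1 : ℕ) : ℝ) / ε₁)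
  obtain ⟨vm, hvm⟩ : ∃ vm : ℝ, vm = B0 * 2 ^ m := ⟨_, rfl⟩
  have hvm0 : 0 < vm := by rw [hvm]; positivity
  obtain ⟨K, hK⟩ : ∃ K : ℝ, K = 96 * vm ^ 2 / (ε * c1 * ε₁ * f0 ^ 2) := ⟨_, rfl⟩
  have hK0 : 0 < K := by rw [hK]; positivity
  refine ⟨K, ε₁, hK0, hε₁0, ?_⟩
  have hcr : (1 : ℝ) ≤ c := by exact_mod_cast hF.hc
  -- the largeness of `X`
  obtain ⟨Y1, HM⟩ := hF.mer ε₁ υ (min η1 1) hε₁0 hυ1 (lt_min hη1 one_pos)
  obtain ⟨Y2, HV2⟩ := HV ε₁ hε₁0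
  obtain ⟨Y3, HJ⟩ := exJ ε₁ hε₁0
  obtain ⟨N0, hN0⟩ : ∃ N0 : ℕ, N0 = ∏ p ∈ Icc 1 (C * (2 * c + 1)), p := ⟨_, rfl⟩
  have ev1 : ∀ᶠ X : ℕ in atTop, (3 * B0 / ε₁) ^ 2 * (c * (1 / ε₁ + 1)) /
      (ε / 480 * (ε₁ * f0) ^ 2) ≤ (X : ℝ) ^ ε₁ :=
    ((tendsto_rpow_atTop hε₁0).comp tendsto_natCast_atTop_atTop).eventually_ge_atTop _
  have ev1' : ∀ᶠ X : ℕ in atTop, (3 * B0 / ε₁) ^ 2 * (2 * (2 ^ m2 * (m2 * c))) /
      (ε / 480 * (ε₁ * f0) ^ 2) ≤ (X : ℝ) ^ ε₁ :=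
    ((tendsto_rpow_atTop hε₁0).comp tendsto_natCast_atTop_atTop).eventually_ge_atTop _
  have ev2 := evlog (4 * (N0 : ℝ) ^ 2) 1 (show 0 < κ / 4 by positivity)
  have ev3 := evlog (ε₁ / c1) 1 (show 0 < 1 - 3 * κ / 4 by linarith)
  have ev3' := evlog (32 / ε * (ε₁ / c1)) 1 (show 0 < 1 - 3 * κ / 4 by linarith)
  have ev4 := evlog ((B0 * (c : ℝ) ^ m1) ^ 2 * 32 / (ε * (c1 * f0) ^ 2)) 2
    (show 0 < 5 * κ / 4 by positivity)
  have ev5 := evlog (64 * (B0 * (c : ℝ) ^ m1) / (ε * (c1 * f0))) 1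
    (show 0 < 1 - τ - 3 * κ / 4 by linarith)
  have ev6 : ∀ᶠ X : ℕ in atTop, (w : ℝ) + 3 ≤ (X : ℝ) ^ ε₁ :=
    ((tendsto_rpow_atTop hε₁0).comp tendsto_natCast_atTop_atTop).eventually_ge_atTop _
  have ev7 : ∀ᶠ X : ℕ in atTop,
      ((H0 : ℝ) + 2 + Real.exp (((2 * D + 1 : ℕ) : ℝ) / (θ * K))) / K ≤ Real.log X :=
    (Real.tendsto_log_atTop.comp tendsto_natCast_atTop_atTop).eventually_ge_atTop _
  obtain ⟨Y6, hY6⟩ := eventually_atTop.1 (ev1.and (ev2.and (ev3.and (ev4.and (ev5.and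
    (ev6.and (ev7.and (ev1'.and (ev3'.and (eventually_ge_atTop (max (max 3 w) D)))))))))))
  refine ⟨max (max Y1 Y2) (max Y3 Y6), ?_⟩
  intro X hX s H M hs1 hsX hM1 hMX hH1 hHX
  have hX1 : Y1 ≤ X := ((le_max_left _ _).trans (le_max_left _ _)).trans hX
  have hX2 : Y2 ≤ X := ((le_max_right _ _).trans (le_max_left _ _)).trans hX
  have hX3 : Y3 ≤ X := ((le_max_left _ _).trans (le_max_right _ _)).trans hX
  obtain ⟨e1, e2, e3, e4, e5, e6, e7, e1', e3', e8⟩ :=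
    hY6 X (((le_max_right _ _).trans (le_max_right _ _)).trans hX)
  have hX3' : 3 ≤ X := ((le_max_left _ _).trans (le_max_left _ _)).trans e8
  have hXw : w ≤ X := ((le_max_right _ _).trans (le_max_left _ _)).trans e8
  have hXD : D ≤ X := (le_max_right _ _).trans e8
  have hXr : (3 : ℝ) ≤ X := by exact_mod_cast hX3'
  have hX0 : (0 : ℝ) < X := by linarith
  have hX1r : (1 : ℝ) ≤ X := by linarith
  have hlX1 : 1 ≤ Real.log X := by
    rw [Real.le_log_iff_exp_le hX0]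
    linarith [Real.exp_one_lt_d9]
  have hlX : 0 < Real.log X := by linarith
  have hpw : ∀ s : ℝ, 0 < (X : ℝ) ^ s := fun s => by positivity
  obtain ⟨J, hJ1, hJ2⟩ := HJ X hX3
  obtain ⟨cU, cL, hc, hsup, hpt, hval⟩ := HW X (by omega)
  have hmer := HM X hX1
  have hmer1 : Mer (pr X ε₁ υ) (tt X) (gg (Qf F)) ε₁ υ 1 := fun x y hx hxy hy =>
    (hmer x y hx hxy hy).trans (min_le_right _ _)
  have hmer2 : Mer (pr X ε₁ υ) (tt X) (gg (Qf F)) ε₁ υ η1 := fun x y hx hxy hy =>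
    (hmer x y hx hxy hy).trans (min_le_left _ _)
  have hMy := (hval (gg (Qf F)) (fun p _ => gg_nonneg (Qf F) p) hmer2).1
  obtain ⟨My, hMyd⟩ : ∃ My, My = VV (pr X ε₁ υ) cL (gg (Qf F)) := ⟨_, rfl⟩
  rw [← hMyd] at hMy
  have hMy0 : 0 < My := lt_of_lt_of_le (by positivity) hMy
  have hP2p : ∀ p ∈ pr X ε₁ υ, p.Prime := fun p hp => (pr_mem X p ε₁ υ (by omega) hp).1
  have hPm : ∀ p ∈ PZ X ε₁, p.Prime ∧ (p : ℝ) < (X : ℝ) ^ ε₁ := by
    intro p hp
    unfold PZ at hp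
    rw [mem_filter] at hp
    exact ⟨hp.2.1, (tt_lt X p ε₁ (by omega) hp.2.1.pos).1 hp.2.2⟩
  have h2P : 2 ∈ PZ X ε₁ := by
    unfold PZ
    rw [mem_filter, mem_Icc]
    refine ⟨⟨by omega, by omega⟩, Nat.prime_two, (tt_lt X 2 ε₁ (by omega) (by omega)).2 ?_⟩
    have : (0 : ℝ) ≤ w := Nat.cast_nonneg _
    push_cast
    linarith
  have hdis : Disjoint (pr X ε₁ υ) (PZ X ε₁) := by
    rw [disjoint_left]
    intro p hp hp'
    have h1 := (pr_mem X p ε₁ υ (by omega) hp).2.1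
    have h3 := (hPm p hp').2
    linarith
  -- the level
  obtain ⟨Dl, hDl⟩ : ∃ Dl : ℕ, Dl = N0 * (2 ^ 2 ^ J) ^ (C * b) := ⟨_, rfl⟩
  have hDr : (Dl : ℝ) ≤ N0 * (X : ℝ) ^ (κ / 4) := by
    rw [hDl]
    push_cast
    apply mul_le_mul_of_nonneg_left _ (Nat.cast_nonneg _)
    calc ((2 : ℝ) ^ 2 ^ J) ^ (C * b) ≤ ((X : ℝ) ^ (2 * ε₁)) ^ (C * b) :=
          pow_le_pow_left₀ (by positivity) hJ2 _
      _ = (X : ℝ) ^ (κ / 4) := by
          rw [← Real.rpow_natCast, ← Real.rpow_mul hX0.le]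
          congr 1
          rw [hε₁]
          push_cast
          field_simp
          norm_num
  have hJlog : (J : ℝ) + 1 ≤ 4 * Real.log X := by
    have h6 := Real.log_le_log (by positivity) hJ2
    rw [Real.log_rpow (by linarith), Real.log_pow] at h6
    push_cast at h6
    have h7 : 0.69 < Real.log 2 := by linarith [Real.log_two_gt_d9]
    have h8 : (2 : ℝ) ^ J * 0.69 ≤ (2 : ℝ) ^ J * Real.log 2 :=
      mul_le_mul_of_nonneg_left h7.le (by positivity)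
    have h9 : 2 * ε₁ * Real.log X ≤ 2 * Real.log X :=
      mul_le_mul_of_nonneg_right (by linarith) hlX.le
    have h10 : (J : ℝ) + 1 ≤ 2 ^ J := by
      have : J + 1 ≤ 2 ^ J := Nat.lt_two_pow_self
      exact_mod_cast this
    linarith
  obtain ⟨E0, hE0⟩ : ∃ E0 : ℝ, E0 = ((J : ℝ) + 1) * (Dl : ℝ) ^ 2 := ⟨_, rfl⟩
  have hE00 : 0 ≤ E0 := by rw [hE0]; positivity
  have hE0le : E0 ≤ (X : ℝ) ^ (3 * κ / 4) := by
    rw [pow_one] at e2
    calc E0 ≤ (4 * Real.log X) * (N0 * (X : ℝ) ^ (κ / 4)) ^ 2 := by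
          rw [hE0]
          exact mul_le_mul hJlog (pow_le_pow_left₀ (Nat.cast_nonneg _) hDr 2) (by positivity)
            (by positivity)
      _ = 4 * (N0 : ℝ) ^ 2 * Real.log X * ((X : ℝ) ^ (κ / 4) * (X : ℝ) ^ (κ / 4)) := by ring
      _ ≤ (X : ℝ) ^ (κ / 4) * ((X : ℝ) ^ (κ / 4) * (X : ℝ) ^ (κ / 4)) :=
          mul_le_mul_of_nonneg_right e2 (by positivity)
      _ = _ := by
          rw [← Real.rpow_add hX0, ← Real.rpow_add hX0]
          congr 1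
          ring
  -- the hypotheses
  have hHyp : Hyp (Qf F) c (PZ X ε₁) (pr X ε₁ υ) cL B0 ((1 / 2) ^ b) E0 ((c : ℝ) ^ m1)
      ((X : ℝ) ^ τ) := by
    rw [hE0]
    refine HH (Qf F) c b J Dl (PZ X ε₁) (pr X ε₁ υ) cL B0 ((c : ℝ) ^ m1) ((X : ℝ) ^ τ) hF.base
      hb5 ?_ ?_ hP2p hdis ?_ ?_ (by positivity) ?_
    · intro p hp
      refine ⟨(hPm p hp).1, ?_⟩
      have := (hPm p hp).2.le.trans hJ1
      exact_mod_cast this
    · rw [hDl, hN0]
    · intro T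
      rw [hB0]
      exact (hc T).2
    · exact few_supp hP2p (by positivity) fun T hT hy => hsup T hT (Or.inr hy)
    · intro T hT hy U hU
      apply prod_rr_le hF.base hF.hc fun p hp => hP2p p (hT (hU hp))
      refine (card_le_card hU).trans ?_
      apply card_le_of_prod (X := X) (by omega) hε₁0
        (fun p hp => (pr_mem X p ε₁ υ (by omega) (hT hp)).2.1) (hsup T hT (Or.inr hy))
      refine le_trans ?_ hm1
      exact div_le_div_of_nonneg_right (by linarith) hε₁0.le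
  -- the densities
  have hV := HV2 X hX2
  obtain ⟨V, hVd⟩ : ∃ V, V = V1 (Qf F) (PZ X ε₁) := ⟨_, rfl⟩
  rw [← hVd] at hV
  have hV0 : 0 < V := lt_of_lt_of_le (by positivity) hV
  have hVM : c1 * f0 / Real.log X ≤ V * My := by
    calc c1 * f0 / Real.log X = c1 / (ε₁ * Real.log X) * (ε₁ * f0) := by field_simp
      _ ≤ V * My := mul_le_mul hV hMy (by positivity) hV0.le
  have hVM0 : 0 < V * My := by positivity
  obtain ⟨W, hWd⟩ : ∃ W, W = V1 (Qf F) ((PZ X ε₁).filter fun p => p ∣ s) := ⟨_, rfl⟩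
  have hPd : ∀ p ∈ (PZ X ε₁).filter (fun p => p ∣ s), p.Prime := fun p hp =>
    (hPm p (mem_filter.1 hp).1).1
  have hW0 : 0 < W := hWd ▸ V1_pos hF.base hPd
  have hW1 : W ≤ 1 := hWd ▸ V1_le_one (Qf F) hPd
  have hHr : (0 : ℝ) < H := lt_of_lt_of_le (by positivity) hH1
  have hH0 : 0 < H := by exact_mod_cast hHr
  have hHbig : (H0 : ℝ) + 2 + Real.exp (((2 * D + 1 : ℕ) : ℝ) / (θ * K)) ≤ H := by
    rw [div_le_iff₀ hK0] at e7
    linarith
  have hexp0 : 0 < Real.exp (((2 * D + 1 : ℕ) : ℝ) / (θ * K)) := Real.exp_pos _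
  have hH00 : (0 : ℝ) ≤ H0 := Nat.cast_nonneg _
  have hHH0 : H0 ≤ H := by
    have h3 : (H0 : ℝ) ≤ H := by linarith
    exact_mod_cast h3
  have hH2' : 2 ≤ H := by
    have h3 : (2 : ℝ) ≤ H := by linarith
    exact_mod_cast h3
  have hlogH : ((2 * D + 1 : ℕ) : ℝ) / (θ * K) ≤ Real.log H := by
    rw [Real.le_log_iff_exp_le hHr]
    linarith
  rw [← hWd]
  have hmain := few_of hHyp (s := s) (H := H) (M := M) (L := X) (vm := vm) (η := η) (ε := ε)
    (κ := 2 * (2 ^ m2 * (m2 * (c / (X : ℝ) ^ ε₁)))) (V := V) (W := W) (My := My) hVd hWd hMyd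
    hη0.le hηh (pow_le_one₀ (by norm_num) (by norm_num)) (by positivity) hH0 (by omega) hε
    (by
      intro h hh
      rw [mem_Ico] at hh
      exact co_le hF hX3' hXD hh.1 hs1 (by omega) hsX hε₁0 hm2)
    (by
      intro k hk
      rw [hVd, hWd]
      refine HS H hHH0 s (PZ X ε₁) (fun p hp => (hPm p hp).1) (by
        intro p hp
        rw [mem_filter, mem_Icc] at hp
        unfold PZ
        rw [mem_filter, mem_Icc]
        refine ⟨⟨hp.1.1, hp.1.2.trans hXw⟩, hp.2, (tt_lt X p ε₁ (by omega) hp.2.pos).2 ?_⟩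
        have : (p : ℝ) ≤ w := by exact_mod_cast hp.1.2
        linarith) ?_ k hk
      intro h hh
      rw [mem_Icc] at hh
      have hRne := hF.hR (h * s) (Nat.mul_pos hh.1 hs1)
      have hRsz := R_size hF hX3' hXD hh.1 hs1 (hh.2.trans hHX) hsX
      refine few_big (N := R (h * s)) (H := H) (l := ((2 * D + 1 : ℕ) : ℝ) * Real.log X) ?_ hRne ?_
        hH2' ?_
      · intro p hp
        rw [mem_filter] at hp
        obtain ⟨n, hn1, hn2⟩ := hp.2.2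
        exact ⟨(hPm p hp.1).1, hp.2.1, hF.hR2 p n (h * s) hn1 hn2⟩
      · rw [← Real.log_rpow hX0]
        exact Real.log_le_log (by exact_mod_cast Nat.pos_of_ne_zero hRne) hRsz
      · rw [div_le_iff₀ (by positivity)] at hlogH
        have h5 : ((2 * D + 1 : ℕ) : ℝ) * Real.log X ≤ Real.log H * (θ * K) * Real.log X :=
          mul_le_mul_of_nonneg_right hlogH hlX.le
        have h6 : Real.log H * θ * (K * Real.log X) ≤ Real.log H * θ * H := by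
          apply mul_le_mul_of_nonneg_left hH1
          have : 0 ≤ Real.log H := Real.log_nonneg (by
            have : (2 : ℝ) ≤ H := by exact_mod_cast hH2'
            linarith)
          positivity
        linarith)
    (by
      intro n hn1 hn2 hn3
      rw [hvm]
      refine vv_le (fun T => by rw [hB0]; exact (hc T).2) ?_
      have hne : F n ≠ 0 := by
        intro h0
        apply hn3 2 h2P
        unfold Qf
        rw [h0]
        exact dvd_zero _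
      have hnX : n ≤ X ^ 3 := by
        have h5 : H * s ≤ X * X := Nat.mul_le_mul hHX hsX
        have h6 : X ^ 3 = X * (X * X) := by ring
        have h7 : 3 * (X * X) ≤ X * (X * X) := Nat.mul_le_mul_right _ hX3'
        have h8 : 3 * X ≤ X * X := Nat.mul_le_mul_right _ hX3'
        omega
      apply few_div (N := (F n).natAbs) (by omega) hε₁0 hm (Int.natAbs_ne_zero.2 hne)
        (F_size hF hX3' hXD (by omega) hnX) (filter_subset _ _)
      intro p hp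
      exact Int.natCast_dvd.1 (mem_filter.1 hp).2)
    hMy0 hηε
    (by
      have hSy := Sy_le hε₁0 hε₁υ hυ1 hB0p.le hmer1
      have hSy0 := Sy_nonneg hHyp
      have hG2 := gg2_le hF.base (by omega) hε₁0 hε₁υ hυ1 hmer1
      have hG20 : 0 ≤ ∑ p ∈ pr X ε₁ υ, gg (Qf F) p ^ 2 := sum_nonneg fun p _ => sq_nonneg _
      have hMsq : (ε₁ * f0) ^ 2 ≤ My ^ 2 := pow_le_pow_left₀ (by positivity) hMy 2
      have hSsq : Sy (Qf F) (pr X ε₁ υ) B0 ^ 2 ≤ (3 * B0 / ε₁) ^ 2 := pow_le_pow_left₀ hSy0 hSy 2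
      have w1 : Sy (Qf F) (pr X ε₁ υ) B0 ^ 2 * (1 / 2) ^ b ≤ ε / 480 * My ^ 2 := by
        calc _ ≤ (3 * B0 / ε₁) ^ 2 * (1 / 2) ^ b :=
              mul_le_mul_of_nonneg_right hSsq (by positivity)
          _ ≤ ε / 480 * (ε₁ * f0) ^ 2 := hb3
          _ ≤ _ := mul_le_mul_of_nonneg_left hMsq (by positivity)
      have w2 : Sy (Qf F) (pr X ε₁ υ) B0 ^ 2 * ∑ p ∈ pr X ε₁ υ, gg (Qf F) p ^ 2 ≤
          ε / 480 * My ^ 2 := by
        calc _ ≤ (3 * B0 / ε₁) ^ 2 * (c / (X : ℝ) ^ ε₁ * (1 / ε₁ + 1)) :=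
              mul_le_mul hSsq hG2 hG20 (by positivity)
          _ = (3 * B0 / ε₁) ^ 2 * (c * (1 / ε₁ + 1)) / (X : ℝ) ^ ε₁ := by ring
          _ ≤ ε / 480 * (ε₁ * f0) ^ 2 := by
              rw [div_le_iff₀ (hpw ε₁)]
              rw [div_le_iff₀ (by positivity)] at e1
              linarith
          _ ≤ _ := mul_le_mul_of_nonneg_left hMsq (by positivity)
      have w3 : Sy (Qf F) (pr X ε₁ υ) B0 ^ 2 * (2 * (2 ^ m2 * (m2 * (c / (X : ℝ) ^ ε₁)))) ≤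
          ε / 480 * My ^ 2 := by
        calc _ ≤ (3 * B0 / ε₁) ^ 2 * (2 * (2 ^ m2 * (m2 * (c / (X : ℝ) ^ ε₁)))) :=
              mul_le_mul_of_nonneg_right hSsq (by positivity)
          _ = (3 * B0 / ε₁) ^ 2 * (2 * (2 ^ m2 * (m2 * c))) / (X : ℝ) ^ ε₁ := by ring
          _ ≤ ε / 480 * (ε₁ * f0) ^ 2 := by
              rw [div_le_iff₀ (hpw ε₁)]
              rw [div_le_iff₀ (by positivity)] at e1'
              linarith
          _ ≤ _ := mul_le_mul_of_nonneg_left hMsq (by positivity)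
      linarith)
    (by
      have w0 : H * V * My ^ 2 ≤ H * (V / W) * My ^ 2 := by
        apply mul_le_mul_of_nonneg_right _ (sq_nonneg _)
        apply mul_le_mul_of_nonneg_left _ hHr.le
        exact le_div_self hV0.le hW0 hW1
      have w1 : K * c1 * ε₁ * f0 ^ 2 ≤ H * V * My ^ 2 := by
        calc K * c1 * ε₁ * f0 ^ 2 =
            (K * Real.log X) * (c1 * f0 / Real.log X) * (ε₁ * f0) := by field_simp
          _ ≤ H * (V * My) * My := by
              apply mul_le_mul _ hMy (by positivity) (by positivity)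
              exact mul_le_mul hH1 hVM (by positivity) hHr.le
          _ = _ := by ring
      have w2 : 3 * vm ^ 2 = ε / 32 * (K * c1 * ε₁ * f0 ^ 2) := by
        rw [hK]
        field_simp
        norm_num
      rw [w2]
      exact mul_le_mul_of_nonneg_left (w1.trans w0) (by positivity))
    (by
      refine hE0le.trans ?_
      rw [pow_one] at e3
      have w1 : (X : ℝ) ^ (3 * κ / 4) * (X : ℝ) ^ (1 - 3 * κ / 4) = X := by
        rw [← Real.rpow_add hX0]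
        conv_rhs => rw [← Real.rpow_one (X : ℝ)]
        congr 1
        ring
      have w3 : 1 ≤ (X : ℝ) ^ (1 - 3 * κ / 4) * V := by
        calc (1 : ℝ) = (ε₁ / c1 * Real.log X) * (c1 / (ε₁ * Real.log X)) := by field_simp
          _ ≤ _ := mul_le_mul e3 hV (by positivity) (hpw _).le
      calc (X : ℝ) ^ (3 * κ / 4) = (X : ℝ) ^ (3 * κ / 4) * 1 := (mul_one _).symm
        _ ≤ (X : ℝ) ^ (3 * κ / 4) * ((X : ℝ) ^ (1 - 3 * κ / 4) * V) :=
            mul_le_mul_of_nonneg_left w3 (hpw _).le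
        _ = ((X : ℝ) ^ (3 * κ / 4) * (X : ℝ) ^ (1 - 3 * κ / 4)) * V := by ring
        _ = _ := by rw [w1])
    (by
      have w1 : (X : ℝ) ^ (3 * κ / 4) * ((X : ℝ) ^ τ) ^ 2 * (X : ℝ) ^ (5 * κ / 4) = X := by
        rw [← Real.rpow_natCast ((X : ℝ) ^ τ), ← Real.rpow_mul hX0.le, ← Real.rpow_add hX0,
          ← Real.rpow_add hX0]
        conv_rhs => rw [← Real.rpow_one (X : ℝ)]
        congr 1
        rw [hκ]
        push_cast
        ring
      have w2 : (c1 * f0 / Real.log X) ^ 2 ≤ (V * My) ^ 2 :=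
        pow_le_pow_left₀ (by positivity) hVM 2
      have w3 : (B0 * (c : ℝ) ^ m1) ^ 2 ≤ ε / 32 * (X : ℝ) ^ (5 * κ / 4) * (V * My) ^ 2 := by
        calc (B0 * (c : ℝ) ^ m1) ^ 2 = ε / 32 * ((B0 * (c : ℝ) ^ m1) ^ 2 * 32 /
              (ε * (c1 * f0) ^ 2) * Real.log X ^ 2) * (c1 * f0 / Real.log X) ^ 2 := by field_simp
          _ ≤ _ := by
              apply mul_le_mul _ w2 (by positivity) (by positivity)
              exact mul_le_mul_of_nonneg_left e4 (by positivity)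
      calc E0 * (B0 * (X : ℝ) ^ τ * (c : ℝ) ^ m1) ^ 2 ≤
          (X : ℝ) ^ (3 * κ / 4) * (B0 * (X : ℝ) ^ τ * (c : ℝ) ^ m1) ^ 2 :=
            mul_le_mul_of_nonneg_right hE0le (by positivity)
        _ = ((X : ℝ) ^ (3 * κ / 4) * ((X : ℝ) ^ τ) ^ 2) * (B0 * (c : ℝ) ^ m1) ^ 2 := by ring
        _ ≤ ((X : ℝ) ^ (3 * κ / 4) * ((X : ℝ) ^ τ) ^ 2) *
            (ε / 32 * (X : ℝ) ^ (5 * κ / 4) * (V * My) ^ 2) :=
            mul_le_mul_of_nonneg_left w3 (by positivity)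
        _ = ε / 32 * (((X : ℝ) ^ (3 * κ / 4) * ((X : ℝ) ^ τ) ^ 2 * (X : ℝ) ^ (5 * κ / 4)) *
            (V * My) ^ 2) := by ring
        _ = _ := by rw [w1])
    (by
      rw [pow_one] at e5
      have w1 : (X : ℝ) ^ (3 * κ / 4) * (X : ℝ) ^ τ * (X : ℝ) ^ (1 - τ - 3 * κ / 4) = X := by
        rw [← Real.rpow_add hX0, ← Real.rpow_add hX0]
        conv_rhs => rw [← Real.rpow_one (X : ℝ)]
        congr 1
        ring
      have w3 : 2 * (B0 * (c : ℝ) ^ m1) ≤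
          ε / 32 * (X : ℝ) ^ (1 - τ - 3 * κ / 4) * (V * My) := by
        calc 2 * (B0 * (c : ℝ) ^ m1) = ε / 32 * (64 * (B0 * (c : ℝ) ^ m1) / (ε * (c1 * f0)) *
              Real.log X) * (c1 * f0 / Real.log X) := by
                field_simp
                norm_num
          _ ≤ _ := by
              apply mul_le_mul _ hVM (by positivity) (by positivity)
              exact mul_le_mul_of_nonneg_left e5 (by positivity)
      calc 2 * (E0 * (B0 * (X : ℝ) ^ τ * (c : ℝ) ^ m1)) ≤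
          2 * ((X : ℝ) ^ (3 * κ / 4) * (B0 * (X : ℝ) ^ τ * (c : ℝ) ^ m1)) :=
            mul_le_mul_of_nonneg_left (mul_le_mul_of_nonneg_right hE0le (by positivity))
              (by norm_num)
        _ = ((X : ℝ) ^ (3 * κ / 4) * (X : ℝ) ^ τ) * (2 * (B0 * (c : ℝ) ^ m1)) := by ring
        _ ≤ ((X : ℝ) ^ (3 * κ / 4) * (X : ℝ) ^ τ) *
            (ε / 32 * (X : ℝ) ^ (1 - τ - 3 * κ / 4) * (V * My)) :=
            mul_le_mul_of_nonneg_left w3 (by positivity)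
        _ = ε / 32 * (((X : ℝ) ^ (3 * κ / 4) * (X : ℝ) ^ τ * (X : ℝ) ^ (1 - τ - 3 * κ / 4)) *
            (V * My)) := by ring
        _ = _ := by rw [w1])
    (by
      refine hE0le.trans ?_
      rw [pow_one] at e3'
      have w1 : (X : ℝ) ^ (3 * κ / 4) * (X : ℝ) ^ (1 - 3 * κ / 4) = X := by
        rw [← Real.rpow_add hX0]
        conv_rhs => rw [← Real.rpow_one (X : ℝ)]
        congr 1
        ring
      have w3 : 1 ≤ ε / 32 * ((X : ℝ) ^ (1 - 3 * κ / 4) * V) := by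
        calc (1 : ℝ) = ε / 32 * ((32 / ε * (ε₁ / c1) * Real.log X) *
              (c1 / (ε₁ * Real.log X))) := by field_simp
          _ ≤ _ := by
              apply mul_le_mul_of_nonneg_left _ (by positivity)
              exact mul_le_mul e3' hV (by positivity) (hpw _).le
      calc (X : ℝ) ^ (3 * κ / 4) = (X : ℝ) ^ (3 * κ / 4) * 1 := (mul_one _).symm
        _ ≤ (X : ℝ) ^ (3 * κ / 4) * (ε / 32 * ((X : ℝ) ^ (1 - 3 * κ / 4) * V)) :=
            mul_le_mul_of_nonneg_left w3 (hpw _).le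
        _ = ε / 32 * (((X : ℝ) ^ (3 * κ / 4) * (X : ℝ) ^ (1 - 3 * κ / 4)) * V) := by ring
        _ = _ := by rw [w1])
  have hfin : (3 * ε / 4) * (X * W) ≤ ε * (X * W) :=
    mul_le_mul_of_nonneg_right (by linarith) (by positivity)
  refine le_trans ?_ (hmain.trans hfin)
  have hcard : ((Gd (Qf F) (PZ X ε₁) s M X).filter (fun n =>
      ((pos F X ζ υ lam (lam / υ) s H n).card : ℝ) < c1 * f0 / 2 * H / (W * Real.log X))).card ≤
      ((Gd (Qf F) (PZ X ε₁) s M X).filter fun n => AA (Qf F) (PZ X ε₁) (pr X ε₁ υ) cL s H n ≤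
        H * (V / W) * My / 2).card := by
    apply card_le_card
    intro n hn
    rw [mem_filter] at hn ⊢
    refine ⟨hn.1, ?_⟩
    have h1 := AA_le (X := X) (ε₁ := ε₁) (ζ := ζ) (υ := υ) (aw := lam) (bw := lam / υ)
      hb1 (by positivity) (by rw [div_mul_cancel₀ _ hυ0.ne']) (y := cL) (fun N => (hpt N).1) F s H n
    refine h1.trans (hn.2.le.trans ?_)
    calc c1 * f0 / 2 * H / (W * Real.log X) = H / (2 * W) * (c1 * f0 / Real.log X) := by
          field_simp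
      _ ≤ H / (2 * W) * (V * My) := mul_le_mul_of_nonneg_left hVM (by positivity)
      _ = _ := by field_simp
  exact_mod_cast hcard

end

end Run7.h870.LG
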