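import Pool.Agent.W378.DC.MP
import Pool.Agent.Y882.KW.Alm
import Pool.Agent.H484R2.Pit
import Pool.Agent.H474R2.GE.FA
import Pool.Agent.H474R2.PG.HomsRho

/-!
# Mertens' theorem for the number of roots of an irreducible polynomial, from the prime ideal theorem
-/

set_option autoImplicit false
set_option linter.all false

namespace Run7.h870.LG

open Finset Filter Topology NumberField Polynomial
open Pool.Agent.Y882
open Pool.Agent.W23.DC
open Pool.Agent.Y882.KW Pool.Agent.Y882.PX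
open Pool.Agent.W378.DC.TMP
open scoped Classical

/-- summation by parts -/
theorem abel (c S : ℕ → ℝ) (hS : ∀ n, S (n + 1) = S n + c (n + 1)) {u v : ℕ} (huv : u ≤ v) :
    ∑ n ∈ Ioc u v, c n / n = S v / (v + 1) - S u / (u + 1) +
      ∑ n ∈ Ioc u v, S n / ((n : ℝ) * (n + 1)) := by
  induction v, huv using Nat.le_induction with
  | base => simp
  | succ v hv ih =>
    rw [sum_Ioc_succ_top (by omega), sum_Ioc_succ_top (by omega), ih, hS v]
    have h1 : ((v : ℝ) + 1) ≠ 0 := by positivity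
    have h2 : ((v : ℝ) + 1 + 1) ≠ 0 := by positivity
    push_cast
    field_simp
    ring

/-- the sums over the primes up to `n` -/
noncomputable def Sp (f : ℕ → ℝ) (n : ℕ) : ℝ := ∑ p ∈ (range (n + 1)).filter Nat.Prime, f p

theorem Sp_succ (f : ℕ → ℝ) (n : ℕ) :
    Sp f (n + 1) = Sp f n + (if (n + 1).Prime then f (n + 1) else 0) := by
  unfold Sp
  rw [range_add_one (n := n + 1), filter_insert]
  split_ifs with h
  · rw [sum_insert (by simp)]
    ring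
  · ring

theorem Sp_one (n : ℕ) : Sp (fun _ => 1) n = (Nat.primeCounting n : ℝ) := by
  unfold Sp
  rw [sum_const, nsmul_eq_mul, mul_one]
  congr 1
  rw [Nat.primeCounting, Nat.primeCounting', Nat.count_eq_card_filter_range]

theorem sum_prime (f : ℕ → ℝ) (u v : ℕ) : ∑ p ∈ (Ioc u v).filter Nat.Prime, f p / p =
    ∑ n ∈ Ioc u v, (if n.Prime then f n else 0) / n := by
  rw [sum_filter]
  refine sum_congr rfl fun n _ => ?_
  split_ifs <;> simp

/-- a function with mean one on the primes, against the constant one -/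
theorem mean_diff (f : ℕ → ℝ) {η : ℝ} (hη : 0 ≤ η) {n0 : ℕ}
    (h : ∀ n, n0 ≤ n → |Sp f n - Sp (fun _ => 1) n| ≤ η * Sp (fun _ => 1) n) {u v : ℕ}
    (hu : n0 ≤ u) (huv : u ≤ v) :
    |∑ p ∈ (Ioc u v).filter Nat.Prime, f p / p - ∑ p ∈ (Ioc u v).filter Nat.Prime, 1 / (p : ℝ)| ≤
      η * (2 + ∑ p ∈ (Ioc u v).filter Nat.Prime, 1 / (p : ℝ)) := by
  obtain ⟨A, hA⟩ : ∃ A : ℕ → ℝ, A = fun n => Sp f n - Sp (fun _ => 1) n := ⟨_, rfl⟩
  obtain ⟨B, hB⟩ : ∃ B : ℕ → ℝ, B = fun n => Sp (fun _ => 1) n := ⟨_, rfl⟩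
  have hA' : ∀ n, n0 ≤ n → |A n| ≤ η * B n := fun n hn => by rw [hA, hB]; exact h n hn
  have e1 : ∑ p ∈ (Ioc u v).filter Nat.Prime, f p / p -
      ∑ p ∈ (Ioc u v).filter Nat.Prime, 1 / (p : ℝ) =
      ∑ n ∈ Ioc u v, (if n.Prime then f n - 1 else 0) / n := by
    rw [← sum_sub_distrib, sum_filter]
    refine sum_congr rfl fun n _ => ?_
    split_ifs
    · ring
    · simp
  have e2 : ∑ p ∈ (Ioc u v).filter Nat.Prime, 1 / (p : ℝ) =
      ∑ n ∈ Ioc u v, (if n.Prime then (1 : ℝ) else 0) / n := sum_prime (fun _ => 1) u v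
  have a1 := abel (fun n => if n.Prime then f n - 1 else 0) A (fun n => by
    rw [hA]
    simp only
    rw [Sp_succ, Sp_succ]
    split_ifs <;> ring) huv
  have a2 := abel (fun n => if n.Prime then (1 : ℝ) else 0) B (fun n => by
    rw [hB]
    simp only
    rw [Sp_succ]) huv
  have hBn : ∀ n, 0 ≤ B n := fun n => by
    rw [hB]
    simp only
    rw [Sp_one]
    positivity
  have hBle : B u / (u + 1) ≤ 1 := by
    rw [div_le_one (by positivity), hB]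
    simp only
    unfold Sp
    rw [sum_const, nsmul_eq_mul, mul_one]
    have := card_filter_le (range (u + 1)) Nat.Prime
    rw [card_range] at this
    exact_mod_cast this
  rw [e1, a1]
  have k1 : |A v / (v + 1)| ≤ η * (B v / (v + 1)) := by
    rw [abs_div, abs_of_pos (show (0 : ℝ) < v + 1 by positivity), ← mul_div_assoc]
    exact div_le_div_of_nonneg_right (hA' v (hu.trans huv)) (by positivity)
  have k2 : |A u / (u + 1)| ≤ η * (B u / (u + 1)) := by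
    rw [abs_div, abs_of_pos (show (0 : ℝ) < u + 1 by positivity), ← mul_div_assoc]
    exact div_le_div_of_nonneg_right (hA' u hu) (by positivity)
  have k3 : |∑ n ∈ Ioc u v, A n / ((n : ℝ) * (n + 1))| ≤
      η * ∑ n ∈ Ioc u v, B n / ((n : ℝ) * (n + 1)) := by
    rw [mul_sum]
    refine (abs_sum_le_sum_abs _ _).trans (sum_le_sum fun n hn => ?_)
    rw [mem_Ioc] at hn
    have hn0 : (0 : ℝ) < n := by exact_mod_cast (by omega : 0 < n)
    rw [abs_div, abs_of_pos (show (0 : ℝ) < (n : ℝ) * (n + 1) by positivity), ← mul_div_assoc]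
    exact div_le_div_of_nonneg_right (hA' n (by omega)) (by positivity)
  have k4 := abs_add_le (A v / (v + 1) - A u / (u + 1)) (∑ n ∈ Ioc u v, A n / ((n : ℝ) * (n + 1)))
  have k5 := abs_sub (A v / ((v : ℝ) + 1)) (A u / ((u : ℝ) + 1))
  rw [← e2] at a2
  have k6 : η * (B u / (u + 1)) ≤ η * 1 := mul_le_mul_of_nonneg_left hBle hη
  have k7 : η * ∑ p ∈ (Ioc u v).filter Nat.Prime, 1 / (p : ℝ) = η * (B v / (v + 1)) -
      η * (B u / (u + 1)) + η * ∑ n ∈ Ioc u v, B n / ((n : ℝ) * (n + 1)) := by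
    rw [a2]
    ring
  linarith

theorem tail_sq (B : Finset ℕ) (R : ℝ) (hR : 2 ≤ R) (h : ∀ q ∈ B, R ≤ q) :
    ∑ q ∈ B, 1 / (q : ℝ) ^ 2 ≤ 2 / R := by
  have hc : 2 ≤ ⌈R⌉₊ := by
    have h1 := Nat.le_ceil R
    have h2 : (2 : ℝ) ≤ ⌈R⌉₊ := hR.trans h1
    exact_mod_cast h2
  obtain ⟨A, hA⟩ : ∃ A : ℕ, ⌈R⌉₊ = A + 1 := ⟨⌈R⌉₊ - 1, by omega⟩
  have hA1 : 1 ≤ A := by omega
  have hAr : R - 1 ≤ A := by
    have h1 := Nat.le_ceil R
    rw [hA] at h1
    push_cast at h1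
    linarith
  have hA0 : (0 : ℝ) < A := by exact_mod_cast hA1
  have h4 : ∀ D : ℕ, A ≤ D → ∑ q ∈ Ioc A D, 1 / (q : ℝ) ^ 2 ≤ 1 / (A : ℝ) - 1 / (D : ℝ) := by
    intro D hD
    induction D, hD using Nat.le_induction with
    | base => simp
    | succ D hD ih =>
      rw [sum_Ioc_succ_top hD]
      have hD0 : (0 : ℝ) < D := by exact_mod_cast (by omega : 0 < D)
      have h5 : 1 / (((D + 1 : ℕ) : ℝ)) ^ 2 ≤ 1 / (D : ℝ) - 1 / ((D + 1 : ℕ) : ℝ) := by
        push_cast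
        rw [div_sub_div _ _ hD0.ne' (by positivity), div_le_div_iff₀ (by positivity) (by positivity)]
        nlinarith
      linarith
  have hsub : B ⊆ Ioc A (max A (B.sup id)) := by
    intro q hq
    rw [mem_Ioc]
    constructor
    · have h1 : ⌈R⌉₊ ≤ q := Nat.ceil_le.2 (h q hq)
      omega
    · exact le_trans (Finset.le_sup (f := id) hq) (le_max_right _ _)
  calc ∑ q ∈ B, 1 / (q : ℝ) ^ 2 ≤ ∑ q ∈ Ioc A (max A (B.sup id)), 1 / (q : ℝ) ^ 2 :=
        sum_le_sum_of_subset_of_nonneg hsub (fun _ _ _ => by positivity)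
    _ ≤ 1 / (A : ℝ) - 1 / ((max A (B.sup id) : ℕ) : ℝ) := h4 _ (le_max_left _ _)
    _ ≤ 1 / (A : ℝ) := by
        have : (0 : ℝ) ≤ 1 / ((max A (B.sup id) : ℕ) : ℝ) := by positivity
        linarith
    _ ≤ 2 / R := by
        rw [div_le_div_iff₀ hA0 (by linarith)]
        linarith

theorem pr_filter {Y : ℕ} {ε₁ υ a b : ℝ} (ha : ε₁ ≤ a) (hb : b ≤ υ) :
    (pr Y ε₁ υ).filter (fun p => a ≤ tt Y p ∧ tt Y p < b) = pr Y a b := by
  ext p
  unfold pr
  rw [mem_filter, mem_filter, mem_filter]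
  constructor
  · rintro ⟨⟨g1, g2, _, _⟩, g5, g6⟩
    exact ⟨g1, g2, g5, g6⟩
  · rintro ⟨g1, g2, g5, g6⟩
    exact ⟨⟨g1, g2, by linarith, by linarith⟩, g5, g6⟩

/-- Mertens' theorem for `1 / p` -/
theorem mer_one (ε₁ η : ℝ) (hε : 0 < ε₁) (hη : 0 < η) : ∃ Y0 : ℕ, ∀ Y : ℕ, Y0 ≤ Y →
    ∀ a b : ℝ, ε₁ ≤ a → a ≤ b → b ≤ 1 →
      |∑ p ∈ pr Y a b, 1 / (p : ℝ) - Real.log (b / a)| ≤ η := by
  obtain ⟨Y0, hY0⟩ := Pool.Agent.W378.DC.MP ε₁ (η / 2) hε (by linarith)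
  have ev : ∀ᶠ Y : ℕ in atTop, 8 / η + 2 ≤ (Y : ℝ) ^ ε₁ :=
    ((tendsto_rpow_atTop hε).comp tendsto_natCast_atTop_atTop).eventually_ge_atTop _
  obtain ⟨Y1, hY1⟩ := eventually_atTop.1 (ev.and (eventually_ge_atTop 3))
  refine ⟨max Y0 Y1, fun Y hY a b ha hab hb => ?_⟩
  have h2 := hY0 Y ((le_max_left _ _).trans hY) a b ha hab hb
  obtain ⟨h1, h3⟩ := hY1 Y ((le_max_right _ _).trans hY)
  have hη8 : (0 : ℝ) < 8 / η := by positivity
  have hR0 : (0 : ℝ) < (Y : ℝ) ^ ε₁ := by linarith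
  have hYr : (3 : ℝ) ≤ Y := by exact_mod_cast h3
  have hmem : ∀ p ∈ pr Y a b, p.Prime ∧ (Y : ℝ) ^ ε₁ ≤ p := by
    intro p hp
    have := pr_mem Y p a b (by omega) hp
    refine ⟨this.1, le_trans ?_ this.2.1⟩
    exact Real.rpow_le_rpow_of_exponent_le (by linarith) ha
  have e1 : ∑ p ∈ pr Y a b, 1 / (p : ℝ) = ∑ p ∈ pr Y a b, 1 / ((p : ℝ) - 1) -
      ∑ p ∈ pr Y a b, 1 / ((p : ℝ) * (p - 1)) := by
    rw [← sum_sub_distrib]
    refine sum_congr rfl fun p hp => ?_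
    have h4 : (2 : ℝ) ≤ p := by exact_mod_cast (hmem p hp).1.two_le
    have h5 : (p : ℝ) - 1 ≠ 0 := by linarith
    have h6 : (p : ℝ) ≠ 0 := by linarith
    field_simp
  have e2 : 0 ≤ ∑ p ∈ pr Y a b, 1 / ((p : ℝ) * (p - 1)) := by
    apply sum_nonneg
    intro p hp
    have h4 : (2 : ℝ) ≤ p := by exact_mod_cast (hmem p hp).1.two_le
    have h5 : (0 : ℝ) < (p : ℝ) - 1 := by linarith
    positivity
  have e3 : ∑ p ∈ pr Y a b, 1 / ((p : ℝ) * (p - 1)) ≤ η / 2 := by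
    calc ∑ p ∈ pr Y a b, 1 / ((p : ℝ) * (p - 1)) ≤ ∑ p ∈ pr Y a b, 2 * (1 / (p : ℝ) ^ 2) := by
          apply sum_le_sum
          intro p hp
          have h4 : (2 : ℝ) ≤ p := by exact_mod_cast (hmem p hp).1.two_le
          rw [mul_one_div, div_le_div_iff₀ (by nlinarith) (by positivity)]
          nlinarith
      _ = 2 * ∑ p ∈ pr Y a b, 1 / (p : ℝ) ^ 2 := by rw [mul_sum]
      _ ≤ 2 * (2 / (Y : ℝ) ^ ε₁) := by
          apply mul_le_mul_of_nonneg_left _ (by norm_num)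
          exact tail_sq _ _ (by linarith) (fun q hq => (hmem q hq).2)
      _ ≤ η / 2 := by
          rw [← mul_div_assoc, div_le_iff₀ hR0]
          have h4 : 8 / η * η = 8 := by field_simp
          have h5 : 8 / η * η ≤ (Y : ℝ) ^ ε₁ * η := mul_le_mul_of_nonneg_right (by linarith) hη.le
          linarith
  rw [e1]
  rw [abs_le] at h2 ⊢
  constructor <;> linarith [h2.1, h2.2]

/-- **Mertens' theorem** from the mean value -/
theorem mer_of_mean (f : ℕ → ℝ) (hm : Tendsto (fun N : ℕ => (∑ p ∈ (range (N + 1)).filter Nat.Prime,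
      f p) / (Nat.primeCounting N : ℝ)) atTop (𝓝 1)) (ε₁ υ η : ℝ) (hε : 0 < ε₁) (hυ : υ ≤ 1)
    (hη : 0 < η) : ∃ Y0 : ℕ, ∀ Y : ℕ, Y0 ≤ Y →
      Mer (pr Y ε₁ υ) (tt Y) (fun p => f p / p) ε₁ υ η := by
  obtain ⟨L, hL⟩ : ∃ L : ℝ, L = 3 + |Real.log (1 / ε₁)| := ⟨_, rfl⟩
  have hL0 : 0 < L := by
    rw [hL]
    positivity
  obtain ⟨η1, hη1⟩ : ∃ η1, η1 = η / (2 * L) := ⟨_, rfl⟩
  have hη10 : 0 < η1 := by rw [hη1]; positivity
  -- the mean value
  obtain ⟨n0, hn0⟩ := (Metric.tendsto_atTop.1 hm) η1 hη10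
  have hmain : ∀ n, max n0 2 ≤ n → |Sp f n - Sp (fun _ => 1) n| ≤ η1 * Sp (fun _ => 1) n := by
    intro n hn
    have h1 := hn0 n ((le_max_left _ _).trans hn)
    have h2 : (0 : ℝ) < (Nat.primeCounting n : ℝ) := by
      have : 1 ≤ Nat.primeCounting n := by
        have h3 := Nat.monotone_primeCounting ((le_max_right _ _).trans hn : 2 ≤ n)
        have h4 : Nat.primeCounting 2 = 1 := by decide
        omega
      exact_mod_cast this
    rw [Real.dist_eq] at h1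
    rw [Sp_one]
    have h3 : Sp f n - (Nat.primeCounting n : ℝ) =
        (Sp f n / (Nat.primeCounting n : ℝ) - 1) * (Nat.primeCounting n : ℝ) := by
      field_simp
    rw [h3, abs_mul, abs_of_pos h2]
    exact mul_le_mul_of_nonneg_right h1.le h2.le
  obtain ⟨Y1, hY1⟩ := mer_one ε₁ (min 1 (η / 2)) hε (lt_min one_pos (by positivity))
  have ev : ∀ᶠ Y : ℕ in atTop, ((max n0 2 : ℕ) : ℝ) + 1 ≤ (Y : ℝ) ^ ε₁ :=
    ((tendsto_rpow_atTop hε).comp tendsto_natCast_atTop_atTop).eventually_ge_atTop _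
  obtain ⟨Y2, hY2⟩ := eventually_atTop.1 (ev.and (eventually_ge_atTop 3))
  refine ⟨max Y1 Y2, fun Y hY => ?_⟩
  have h1 := hY1 Y ((le_max_left _ _).trans hY)
  obtain ⟨e1, e2⟩ := hY2 Y ((le_max_right _ _).trans hY)
  have hYr : (3 : ℝ) ≤ Y := by exact_mod_cast e2
  intro a b ha hab hb
  rw [pr_filter ha hb]
  have h2 := h1 a b ha hab (hb.trans hυ)
  have h3 : |∑ p ∈ pr Y a b, 1 / (p : ℝ) - Real.log (b / a)| ≤ 1 := h2.trans (min_le_left _ _)
  have h4 : |∑ p ∈ pr Y a b, 1 / (p : ℝ) - Real.log (b / a)| ≤ η / 2 := h2.trans (min_le_right _ _)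
  have ha0 : 0 < a := by linarith
  have h5 : Real.log (b / a) ≤ |Real.log (1 / ε₁)| := by
    refine le_trans ?_ (le_abs_self _)
    apply Real.log_le_log (div_pos (by linarith) ha0)
    exact div_le_div₀ (by norm_num) (by linarith) hε ha
  have h6 : 2 + ∑ p ∈ pr Y a b, 1 / (p : ℝ) ≤ L := by
    rw [hL]
    linarith [(abs_le.1 h3).2]
  have h7 : |∑ p ∈ pr Y a b, f p / p - ∑ p ∈ pr Y a b, 1 / (p : ℝ)| ≤ η / 2 := by
    rcases lt_or_ge (⌈(Y : ℝ) ^ b⌉₊ - 1) (⌈(Y : ℝ) ^ a⌉₊ - 1) with h8 | h8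
    · have h9 : pr Y a b = ∅ := by
        rw [pr_eq (by omega) (hb.trans hυ), Ioc_eq_empty (by omega), filter_empty]
      rw [h9]
      simp only [sum_empty, sub_zero, abs_zero]
      positivity
    · have h9 : (max n0 2) ≤ ⌈(Y : ℝ) ^ a⌉₊ - 1 := by
        have k1 : (Y : ℝ) ^ ε₁ ≤ (Y : ℝ) ^ a := Real.rpow_le_rpow_of_exponent_le (by linarith) ha
        have k2 := Nat.le_ceil ((Y : ℝ) ^ a)
        have k3 : ((max n0 2 : ℕ) : ℝ) + 1 ≤ (⌈(Y : ℝ) ^ a⌉₊ : ℝ) := by linarith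
        have k4 : max n0 2 + 1 ≤ ⌈(Y : ℝ) ^ a⌉₊ := by exact_mod_cast k3
        omega
      have h10 := mean_diff f hη10.le hmain h9 h8
      rw [← pr_eq (by omega) (hb.trans hυ)] at h10
      refine h10.trans ?_
      calc η1 * (2 + ∑ p ∈ pr Y a b, 1 / (p : ℝ)) ≤ η1 * L := mul_le_mul_of_nonneg_left h6 hη10.le
        _ = η / 2 := by
            rw [hη1]
            field_simp
  have h8 := abs_add_le (∑ p ∈ pr Y a b, f p / p - ∑ p ∈ pr Y a b, 1 / (p : ℝ))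
    (∑ p ∈ pr Y a b, 1 / (p : ℝ) - Real.log (b / a))
  have e : ∑ p ∈ pr Y a b, f p / p - Real.log (b / a) =
      (∑ p ∈ pr Y a b, f p / p - ∑ p ∈ pr Y a b, 1 / (p : ℝ)) +
      (∑ p ∈ pr Y a b, 1 / (p : ℝ) - Real.log (b / a)) := by ring
  rw [e]
  linarith

end Run7.h870.LG
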