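import Pool.Agent.Run7.h870.LG.Gen
import Pool.Agent.Run7.h870.LI.FL

/-!
# First and second moments of the weights, general conditions, with collisions at large primes
-/

set_option autoImplicit false
set_option linter.all false

namespace Run7.h870.LG

open Finset
open Pool.Agent.Y882
open Run7.h870.LI (Per rr ind_prod)
open scoped Classical

/-- the density -/
noncomputable def gg (Q : ℕ → ℕ → Prop) (p : ℕ) : ℝ := (rr Q p : ℝ) / p

/-- the divisor sum -/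
noncomputable def vv (Q : ℕ → ℕ → Prop) (P2 : Finset ℕ) (y : Finset ℕ → ℝ) (n : ℕ) : ℝ :=
  VV P2 y (fun p => if Q p n then 1 else 0)

/-- the weight -/
noncomputable def ww (Q : ℕ → ℕ → Prop) (P P2 : Finset ℕ) (y : Finset ℕ → ℝ) (n : ℕ) : ℝ :=
  if ∀ p ∈ P, ¬ Q p n then vv Q P2 y n else 0

/-- the counts -/
noncomputable def c1 (Q : ℕ → ℕ → Prop) (P T : Finset ℕ) (M L : ℕ) : ℕ :=
  ((Ico M (M + L)).filter fun n => (∀ p ∈ T, Q p n) ∧ ∀ p ∈ P, ¬ Q p n).card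

noncomputable def c2 (Q : ℕ → ℕ → Prop) (P T T' : Finset ℕ) (h M L : ℕ) : ℕ :=
  ((Ico M (M + L)).filter fun n => ((∀ p ∈ T, Q p n) ∧ ∀ p ∈ P, ¬ Q p n) ∧
    (∀ p ∈ T', Q p (n + h)) ∧ ∀ p ∈ P, ¬ Q p (n + h)).card

/-- the hypotheses -/
structure Hyp (Q : ℕ → ℕ → Prop) (c : ℕ) (P P2 : Finset ℕ) (y : Finset ℕ → ℝ)
    (B0 δ E0 Bt Dy : ℝ) : Prop where
  hQ : Base Q c
  hP : ∀ p ∈ P, p.Prime
  hP2 : ∀ p ∈ P2, p.Prime
  hB : ∀ T, |y T| ≤ B0
  hδ : 0 ≤ δ
  hE : 0 ≤ E0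
  hDy : ((P2.powerset.filter fun T => y T ≠ 0).card : ℝ) ≤ Dy
  hBt0 : 0 ≤ Bt
  hBt : ∀ T ⊆ P2, y T ≠ 0 → ∀ U ⊆ T, ∏ p ∈ U, (rr Q p : ℝ) ≤ Bt
  F0 : ∀ P0 ⊆ P, ∀ M L : ℕ, |(c1 Q P0 ∅ M L : ℝ) - L * V1 Q P0| ≤ δ * (L * V1 Q P0) + E0
  F1 : ∀ T ⊆ P2, ∀ M L : ℕ, |(c1 Q P T M L : ℝ) - L * (∏ p ∈ T, gg Q p) * V1 Q P| ≤
    δ * (L * (∏ p ∈ T, gg Q p) * V1 Q P) + E0 * ∏ p ∈ T, (rr Q p : ℝ)
  F2 : ∀ T ⊆ P2, ∀ T' ⊆ P2, Disjoint T T' → ∀ h M L : ℕ,
    |(c2 Q P T T' h M L : ℝ) - L * ((∏ p ∈ T, gg Q p) * ∏ p ∈ T', gg Q p) * V2 Q h P| ≤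
    δ * (L * ((∏ p ∈ T, gg Q p) * ∏ p ∈ T', gg Q p) * V2 Q h P) +
      E0 * ((∏ p ∈ T, (rr Q p : ℝ)) * ∏ p ∈ T', (rr Q p : ℝ))

theorem gg_nonneg (Q : ℕ → ℕ → Prop) (p : ℕ) : 0 ≤ gg Q p := by unfold gg; positivity

theorem gg_le_one (Q : ℕ → ℕ → Prop) (p : ℕ) : gg Q p ≤ 1 := by
  unfold gg
  apply div_le_one_of_le₀ _ (Nat.cast_nonneg _)
  exact_mod_cast Run7.h870.LI.rr_le Q p

theorem pow_one_add (P2 : Finset ℕ) (g : ℕ → ℝ) :
    ∑ T ∈ P2.powerset, ∏ p ∈ T, g p = ∏ p ∈ P2, (1 + g p) := by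
  have h : ∏ p ∈ P2, (1 + g p) = ∏ p ∈ P2, (g p + 1) := prod_congr rfl fun p _ => add_comm _ _
  rw [h, prod_add]
  exact sum_congr rfl fun T _ => by rw [prod_const_one, mul_one]

/-- the total mass -/
noncomputable def Sy (Q : ℕ → ℕ → Prop) (P2 : Finset ℕ) (B0 : ℝ) : ℝ :=
  B0 * ∏ p ∈ P2, (1 + gg Q p)

/-- the weights as sums over sets -/
theorem ww_eq (Q : ℕ → ℕ → Prop) (P P2 : Finset ℕ) (y : Finset ℕ → ℝ) (n : ℕ) : ww Q P P2 y n =
    ∑ T ∈ P2.powerset, y T *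
      (if (∀ p ∈ T, Q p n) ∧ ∀ p ∈ P, ¬ Q p n then (1 : ℝ) else 0) := by
  unfold ww
  by_cases h : ∀ p ∈ P, ¬ Q p n
  · rw [if_pos h]
    unfold vv VV
    refine sum_congr rfl fun T _ => ?_
    rw [ind_prod]
    by_cases h2 : ∀ p ∈ T, Q p n
    · rw [if_pos h2, if_pos ⟨h2, h⟩]
    · rw [if_neg h2, if_neg fun h3 => h2 h3.1]
  · rw [if_neg h]
    symm
    refine sum_eq_zero fun T _ => ?_
    rw [if_neg fun h3 => h h3.2, mul_zero]

section

variable {Q : ℕ → ℕ → Prop} {c : ℕ} {P P2 : Finset ℕ} {y : Finset ℕ → ℝ} {B0 δ E0 Bt Dy : ℝ}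

theorem B0_nonneg (H : Hyp Q c P P2 y B0 δ E0 Bt Dy) : 0 ≤ B0 := (abs_nonneg _).trans (H.hB ∅)

theorem Dy_nonneg (H : Hyp Q c P P2 y B0 δ E0 Bt Dy) : 0 ≤ Dy := (Nat.cast_nonneg _).trans H.hDy

theorem sum_abs (H : Hyp Q c P P2 y B0 δ E0 Bt Dy) :
    ∑ T ∈ P2.powerset, |y T| * ∏ p ∈ T, gg Q p ≤ Sy Q P2 B0 := by
  unfold Sy
  rw [← pow_one_add, mul_sum]
  exact sum_le_sum fun T _ => mul_le_mul_of_nonneg_right (H.hB T)
    (prod_nonneg fun p _ => gg_nonneg Q p)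

theorem Sy_nonneg (H : Hyp Q c P P2 y B0 δ E0 Bt Dy) : 0 ≤ Sy Q P2 B0 :=
  (sum_nonneg fun T _ => mul_nonneg (abs_nonneg _) (prod_nonneg fun p _ => gg_nonneg Q p)).trans
    (sum_abs H)

theorem My_abs (H : Hyp Q c P P2 y B0 δ E0 Bt Dy) : |VV P2 y (gg Q)| ≤ Sy Q P2 B0 := by
  refine le_trans ?_ (sum_abs H)
  unfold VV
  refine (abs_sum_le_sum_abs _ _).trans (le_of_eq (sum_congr rfl fun T _ => ?_))
  rw [abs_mul, abs_of_nonneg (prod_nonneg fun p _ => gg_nonneg Q p)]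

/-- the error terms -/
theorem sum_err (H : Hyp Q c P P2 y B0 δ E0 Bt Dy) :
    ∑ T ∈ P2.powerset, |y T| * Bt ≤ B0 * Dy * Bt := by
  calc ∑ T ∈ P2.powerset, |y T| * Bt ≤
      ∑ T ∈ P2.powerset, (if y T ≠ 0 then B0 * Bt else 0) := by
        refine sum_le_sum fun T hT => ?_
        by_cases hy : y T = 0
        · rw [hy, abs_zero, zero_mul, if_neg (by simp)]
        · rw [if_pos hy]
          exact mul_le_mul_of_nonneg_right (H.hB T) H.hBt0
    _ = ((P2.powerset.filter fun T => y T ≠ 0).card : ℝ) * (B0 * Bt) := by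
        rw [← sum_filter, sum_const, nsmul_eq_mul]
    _ ≤ Dy * (B0 * Bt) := mul_le_mul_of_nonneg_right H.hDy (mul_nonneg (B0_nonneg H) H.hBt0)
    _ = _ := by ring

theorem sum_c1 (M L : ℕ) : ∑ n ∈ Ico M (M + L), ww Q P P2 y n =
    ∑ T ∈ P2.powerset, y T * (c1 Q P T M L : ℝ) := by
  rw [sum_congr rfl fun n _ => ww_eq Q P P2 y n, sum_comm]
  refine sum_congr rfl fun T _ => ?_
  rw [← mul_sum, c1, card_filter]
  push_cast
  rfl

theorem sum_c2 (h M L : ℕ) : ∑ n ∈ Ico M (M + L), ww Q P P2 y n * ww Q P P2 y (n + h) =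
    ∑ T ∈ P2.powerset, ∑ T' ∈ P2.powerset, y T * y T' * (c2 Q P T T' h M L : ℝ) := by
  have e : ∀ n ∈ Ico M (M + L), ww Q P P2 y n * ww Q P P2 y (n + h) =
      ∑ T ∈ P2.powerset, ∑ T' ∈ P2.powerset, y T * y T' *
        (if ((∀ p ∈ T, Q p n) ∧ ∀ p ∈ P, ¬ Q p n) ∧
          (∀ p ∈ T', Q p (n + h)) ∧ ∀ p ∈ P, ¬ Q p (n + h) then (1 : ℝ) else 0) := by
    intro n _
    rw [ww_eq, ww_eq, sum_mul_sum]
    refine sum_congr rfl fun T _ => sum_congr rfl fun T' _ => ?_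
    by_cases h1 : (∀ p ∈ T, Q p n) ∧ ∀ p ∈ P, ¬ Q p n
    · by_cases h2 : (∀ p ∈ T', Q p (n + h)) ∧ ∀ p ∈ P, ¬ Q p (n + h)
      · rw [if_pos h1, if_pos h2, if_pos ⟨h1, h2⟩]
        ring
      · rw [if_neg h2, mul_zero, mul_zero, if_neg fun h3 => h2 h3.2, mul_zero]
    · rw [if_neg h1, mul_zero, zero_mul, if_neg fun h3 => h1 h3.1, mul_zero]
  rw [sum_congr rfl e, sum_comm]
  refine sum_congr rfl fun T _ => ?_
  rw [sum_comm]
  refine sum_congr rfl fun T' _ => ?_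
  rw [← mul_sum, c2, card_filter]
  push_cast
  rfl

/-- **the first moment** -/
theorem first (H : Hyp Q c P P2 y B0 δ E0 Bt Dy) (M L : ℕ) :
    L * V1 Q P * (VV P2 y (gg Q) - δ * Sy Q P2 B0) - E0 * (B0 * Dy * Bt) ≤
      ∑ n ∈ Ico M (M + L), ww Q P P2 y n := by
  rw [sum_c1]
  have hV := (V1_pos H.hQ H.hP).le
  have h1 : ∀ T ∈ P2.powerset, L * V1 Q P * (y T * ∏ p ∈ T, gg Q p) -
      (δ * (L * V1 Q P) * (|y T| * ∏ p ∈ T, gg Q p) +
        E0 * (|y T| * Bt)) ≤ y T * (c1 Q P T M L : ℝ) := by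
    intro T hT
    have h2 := H.F1 T (mem_powerset.1 hT) M L
    have h3 : |y T * ((c1 Q P T M L : ℝ) - L * (∏ p ∈ T, gg Q p) * V1 Q P)| ≤
        |y T| * (δ * (L * (∏ p ∈ T, gg Q p) * V1 Q P) + E0 * ∏ p ∈ T, (rr Q p : ℝ)) := by
      rw [abs_mul]
      exact mul_le_mul_of_nonneg_left h2 (abs_nonneg _)
    have h4 := (abs_le.1 h3).1
    have h5 : |y T| * (E0 * ∏ p ∈ T, (rr Q p : ℝ)) ≤ |y T| * (E0 * Bt) := by
      by_cases hy : y T = 0
      · rw [hy, abs_zero, zero_mul, zero_mul]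
      · apply mul_le_mul_of_nonneg_left _ (abs_nonneg _)
        exact mul_le_mul_of_nonneg_left (H.hBt T (mem_powerset.1 hT) hy T (subset_refl _)) H.hE
    linarith
  refine le_trans ?_ (sum_le_sum h1)
  rw [sum_sub_distrib, sum_add_distrib, ← mul_sum, ← mul_sum, ← mul_sum]
  have h5 := mul_le_mul_of_nonneg_left (sum_abs H)
    (mul_nonneg H.hδ (mul_nonneg (Nat.cast_nonneg L) hV))
  have h6 := mul_le_mul_of_nonneg_left (sum_err H) H.hE
  unfold VV
  linarith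

/-- the sets containing a given prime -/
theorem sum_mem (H : Hyp Q c P P2 y B0 δ E0 Bt Dy) {p : ℕ} (hp : p ∈ P2) :
    ∑ T ∈ P2.powerset.filter (fun T => p ∈ T), |y T| * ∏ q ∈ T, gg Q q ≤
      gg Q p * Sy Q P2 B0 := by
  have e1 : P2.powerset.filter (fun T => p ∈ T) = (P2.erase p).powerset.image (insert p) := by
    ext T
    rw [mem_filter, mem_powerset, mem_image]
    constructor
    · rintro ⟨h1, h2⟩
      exact ⟨T.erase p, mem_powerset.2 (erase_subset_erase p h1), insert_erase h2⟩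
    · rintro ⟨U, hU, rfl⟩
      rw [mem_powerset] at hU
      refine ⟨?_, mem_insert_self _ _⟩
      intro q hq
      rcases mem_insert.1 hq with rfl | hq
      · exact hp
      · exact (mem_erase.1 (hU hq)).2
  have hnot : ∀ U ∈ (P2.erase p).powerset, p ∉ U := by
    intro U hU hpU
    exact (mem_erase.1 (mem_powerset.1 hU hpU)).1 rfl
  have hB0 := B0_nonneg H
  calc ∑ T ∈ P2.powerset.filter (fun T => p ∈ T), |y T| * ∏ q ∈ T, gg Q q ≤
      ∑ T ∈ P2.powerset.filter (fun T => p ∈ T), B0 * ∏ q ∈ T, gg Q q :=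
        sum_le_sum fun T _ => mul_le_mul_of_nonneg_right (H.hB T)
          (prod_nonneg fun p _ => gg_nonneg Q p)
    _ = ∑ U ∈ (P2.erase p).powerset, B0 * (gg Q p * ∏ q ∈ U, gg Q q) := by
        rw [e1, sum_image]
        · exact sum_congr rfl fun U hU => by rw [prod_insert (hnot U hU)]
        · intro U hU U' hU' h
          have h1 : (insert p U).erase p = (insert p U').erase p := by rw [h]
          rwa [erase_insert (hnot U hU), erase_insert (hnot U' hU')] at h1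
    _ = gg Q p * (B0 * ∏ q ∈ P2.erase p, (1 + gg Q q)) := by
        rw [← pow_one_add, mul_sum, mul_sum]
        exact sum_congr rfl fun U _ => by ring
    _ ≤ gg Q p * Sy Q P2 B0 := by
        apply mul_le_mul_of_nonneg_left _ (gg_nonneg Q p)
        unfold Sy
        apply mul_le_mul_of_nonneg_left _ hB0
        rw [← mul_prod_erase _ _ hp]
        have h1 : 0 ≤ ∏ q ∈ P2.erase p, (1 + gg Q q) :=
          prod_nonneg fun q _ => by have := gg_nonneg Q q; linarith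
        have h2 := gg_nonneg Q p
        nlinarith

/-- pairs of sets which are not disjoint -/
theorem sum_nd (H : Hyp Q c P P2 y B0 δ E0 Bt Dy) :
    ∑ T ∈ P2.powerset, ∑ T' ∈ P2.powerset, (if Disjoint T T' then 0 else
      (|y T| * ∏ p ∈ T, gg Q p) * (|y T'| * ∏ p ∈ T', gg Q p)) ≤
      Sy Q P2 B0 ^ 2 * ∑ p ∈ P2, gg Q p ^ 2 := by
  have hn : ∀ T, 0 ≤ |y T| * ∏ p ∈ T, gg Q p := fun T =>
    mul_nonneg (abs_nonneg _) (prod_nonneg fun p _ => gg_nonneg Q p)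
  have h1 : ∀ T ∈ P2.powerset, ∀ T' ∈ P2.powerset, (if Disjoint T T' then 0 else
      (|y T| * ∏ p ∈ T, gg Q p) * (|y T'| * ∏ p ∈ T', gg Q p)) ≤
      ∑ p ∈ P2, (if p ∈ T then |y T| * ∏ p ∈ T, gg Q p else 0) *
        (if p ∈ T' then |y T'| * ∏ p ∈ T', gg Q p else 0) := by
    intro T hT T' _
    have hnn : ∀ p ∈ P2, 0 ≤ (if p ∈ T then |y T| * ∏ p ∈ T, gg Q p else 0) *
        (if p ∈ T' then |y T'| * ∏ p ∈ T', gg Q p else 0) := by
      intro p _
      apply mul_nonneg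
      · split_ifs
        · exact hn T
        · exact le_rfl
      · split_ifs
        · exact hn T'
        · exact le_rfl
    split_ifs with hd
    · exact sum_nonneg hnn
    · rw [not_disjoint_iff] at hd
      obtain ⟨p, hp, hp'⟩ := hd
      refine le_trans (le_of_eq ?_) (single_le_sum hnn (mem_powerset.1 hT hp))
      rw [if_pos hp, if_pos hp']
  refine (sum_le_sum fun T hT => sum_le_sum fun T' hT' => h1 T hT T' hT').trans ?_
  have e : ∑ T ∈ P2.powerset, ∑ T' ∈ P2.powerset,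
      ∑ p ∈ P2, (if p ∈ T then |y T| * ∏ p ∈ T, gg Q p else 0) *
        (if p ∈ T' then |y T'| * ∏ p ∈ T', gg Q p else 0) =
      ∑ p ∈ P2, (∑ T ∈ P2.powerset.filter (fun T => p ∈ T), |y T| * ∏ q ∈ T, gg Q q) ^ 2 := by
    rw [sum_congr rfl fun T _ => sum_comm, sum_comm]
    refine sum_congr rfl fun p _ => ?_
    rw [sq, sum_filter, sum_mul_sum]
  rw [e, mul_sum]
  refine sum_le_sum fun p hp => ?_
  calc _ ≤ (gg Q p * Sy Q P2 B0) ^ 2 := by
        apply pow_le_pow_left₀ (sum_nonneg fun T _ => hn T) (sum_mem H hp)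
    _ = _ := by ring

/-- the modified density -/
noncomputable def g1 (Q : ℕ → ℕ → Prop) (Co : Finset ℕ) (p : ℕ) : ℝ := if p ∈ Co then 1 else gg Q p

theorem g1_nonneg (Q : ℕ → ℕ → Prop) (Co : Finset ℕ) (p : ℕ) : 0 ≤ g1 Q Co p := by
  unfold g1
  split_ifs
  · exact zero_le_one
  · exact gg_nonneg Q p

theorem sum_g1 (H : Hyp Q c P P2 y B0 δ E0 Bt Dy) {Co : Finset ℕ} (hCo : Co ⊆ P2) :
    ∑ T ∈ P2.powerset, |y T| * ∏ p ∈ T, g1 Q Co p ≤ 2 ^ Co.card * Sy Q P2 B0 := by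
  have hB0 := B0_nonneg H
  calc ∑ T ∈ P2.powerset, |y T| * ∏ p ∈ T, g1 Q Co p ≤
      ∑ T ∈ P2.powerset, B0 * ∏ p ∈ T, g1 Q Co p :=
        sum_le_sum fun T _ => mul_le_mul_of_nonneg_right (H.hB T)
          (prod_nonneg fun p _ => g1_nonneg Q Co p)
    _ = B0 * ∏ p ∈ P2, (1 + g1 Q Co p) := by rw [← mul_sum, pow_one_add]
    _ ≤ B0 * ∏ p ∈ P2, ((if p ∈ Co then 2 else 1) * (1 + gg Q p)) := by
        apply mul_le_mul_of_nonneg_left _ hB0
        apply prod_le_prod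
        · intro p _
          have := g1_nonneg Q Co p
          linarith
        · intro p _
          have := gg_nonneg Q p
          unfold g1
          split_ifs
          · linarith
          · linarith
    _ = B0 * (2 ^ Co.card * ∏ p ∈ P2, (1 + gg Q p)) := by
        rw [prod_mul_distrib]
        congr 2
        rw [← prod_filter, prod_const]
        congr 2
        ext p
        rw [mem_filter]
        exact ⟨fun h => h.2, fun h => ⟨hCo h, h⟩⟩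
    _ = _ := by unfold Sy; ring

/-- pairs of sets with collisions -/
theorem sum_co (H : Hyp Q c P P2 y B0 δ E0 Bt Dy) {Co : Finset ℕ} (hCo : Co ⊆ P2) :
    ∑ T ∈ P2.powerset, ∑ T' ∈ P2.powerset, (if (¬ Disjoint T T') ∧ T ∩ T' ⊆ Co then
      (|y T| * ∏ p ∈ T, gg Q p) * (|y T'| * ∏ p ∈ T', g1 Q Co p) else 0) ≤
      Sy Q P2 B0 ^ 2 * (2 ^ Co.card * ∑ p ∈ Co, gg Q p) := by
  have hn : ∀ T, 0 ≤ |y T| * ∏ p ∈ T, gg Q p := fun T =>
    mul_nonneg (abs_nonneg _) (prod_nonneg fun p _ => gg_nonneg Q p)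
  have hn1 : ∀ T, 0 ≤ |y T| * ∏ p ∈ T, g1 Q Co p := fun T =>
    mul_nonneg (abs_nonneg _) (prod_nonneg fun p _ => g1_nonneg Q Co p)
  have h1 : ∀ T ∈ P2.powerset, ∀ T' ∈ P2.powerset, (if (¬ Disjoint T T') ∧ T ∩ T' ⊆ Co then
      (|y T| * ∏ p ∈ T, gg Q p) * (|y T'| * ∏ p ∈ T', g1 Q Co p) else 0) ≤
      ∑ p ∈ Co, (if p ∈ T then |y T| * ∏ p ∈ T, gg Q p else 0) *
        (|y T'| * ∏ p ∈ T', g1 Q Co p) := by
    intro T hT T' _
    have hnn : ∀ p ∈ Co, 0 ≤ (if p ∈ T then |y T| * ∏ p ∈ T, gg Q p else 0) *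
        (|y T'| * ∏ p ∈ T', g1 Q Co p) := by
      intro p _
      apply mul_nonneg _ (hn1 T')
      split_ifs
      · exact hn T
      · exact le_rfl
    split_ifs with hd
    · obtain ⟨hd1, hd2⟩ := hd
      rw [not_disjoint_iff] at hd1
      obtain ⟨p, hp, hp'⟩ := hd1
      refine le_trans (le_of_eq ?_) (single_le_sum hnn (hd2 (mem_inter.2 ⟨hp, hp'⟩)))
      rw [if_pos hp]
    · exact sum_nonneg hnn
  refine (sum_le_sum fun T hT => sum_le_sum fun T' hT' => h1 T hT T' hT').trans ?_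
  have e : ∑ T ∈ P2.powerset, ∑ T' ∈ P2.powerset,
      ∑ p ∈ Co, (if p ∈ T then |y T| * ∏ p ∈ T, gg Q p else 0) *
        (|y T'| * ∏ p ∈ T', g1 Q Co p) =
      ∑ p ∈ Co, (∑ T ∈ P2.powerset.filter (fun T => p ∈ T), |y T| * ∏ q ∈ T, gg Q q) *
        ∑ T' ∈ P2.powerset, |y T'| * ∏ p ∈ T', g1 Q Co p := by
    rw [sum_congr rfl fun T _ => sum_comm, sum_comm]
    refine sum_congr rfl fun p _ => ?_
    rw [sum_filter, sum_mul_sum]
  rw [e]
  have hS := Sy_nonneg H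
  have h2 := sum_g1 H hCo
  calc _ ≤ ∑ p ∈ Co, (gg Q p * Sy Q P2 B0) * (2 ^ Co.card * Sy Q P2 B0) := by
        refine sum_le_sum fun p hp => ?_
        exact mul_le_mul (sum_mem H (hCo hp)) h2 (sum_nonneg fun T _ => hn1 T)
          (mul_nonneg (gg_nonneg Q p) hS)
    _ = _ := by
        rw [mul_sum, mul_sum]
        exact sum_congr rfl fun p _ => by ring

/-- **the second moment, off the diagonal** -/
theorem off (H : Hyp Q c P P2 y B0 δ E0 Bt Dy) (h M L : ℕ) {Co : Finset ℕ} (hCo : Co ⊆ P2)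
    (hh : ∀ p ∈ P2, Cd Q p h → p ∈ Co) {κ : ℝ} (hδ1 : δ ≤ 1)
    (hκ : 2 * (2 ^ Co.card * ∑ p ∈ Co, gg Q p) ≤ κ) :
    ∑ n ∈ Ico M (M + L), ww Q P P2 y n * ww Q P P2 y (n + h) ≤
      L * V2 Q h P * (VV P2 y (gg Q) ^ 2 + Sy Q P2 B0 ^ 2 * (δ + ∑ p ∈ P2, gg Q p ^ 2 + κ)) +
        E0 * (B0 * Dy * Bt) ^ 2 := by
  rw [sum_c2]
  have hV := V2_nonneg Q h H.hP
  obtain ⟨G, hG⟩ : ∃ G : Finset ℕ → ℝ, G = fun T => ∏ p ∈ T, gg Q p := ⟨_, rfl⟩
  obtain ⟨G1, hG1⟩ : ∃ G1 : Finset ℕ → ℝ, G1 = fun T => ∏ p ∈ T, g1 Q Co p := ⟨_, rfl⟩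
  have hG0 : ∀ T, 0 ≤ G T := fun T => by rw [hG]; exact prod_nonneg fun p _ => gg_nonneg Q p
  have hG10 : ∀ T, 0 ≤ G1 T := fun T => by rw [hG1]; exact prod_nonneg fun p _ => g1_nonneg Q Co p
  have hLV : 0 ≤ (L : ℝ) * V2 Q h P := mul_nonneg (Nat.cast_nonneg _) hV
  have hE := H.hE
  have hBt0 := H.hBt0
  have hδ := H.hδ
  have hRle : ∀ T ∈ P2.powerset, ∀ U ⊆ T, |y T| * ∏ p ∈ U, (rr Q p : ℝ) ≤ |y T| * Bt := by
    intro T hT U hU
    by_cases hy : y T = 0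
    · rw [hy, abs_zero, zero_mul, zero_mul]
    · exact mul_le_mul_of_nonneg_left (H.hBt T (mem_powerset.1 hT) hy U hU) (abs_nonneg _)
  have hR0 : ∀ T : Finset ℕ, 0 ≤ ∏ p ∈ T, (rr Q p : ℝ) := fun T => prod_nonneg fun p _ =>
    Nat.cast_nonneg _
  have h1 : ∀ T ∈ P2.powerset, ∀ T' ∈ P2.powerset, y T * y T' * (c2 Q P T T' h M L : ℝ) ≤
      L * V2 Q h P * ((y T * G T) * (y T' * G T')) +
      L * V2 Q h P * (if Disjoint T T' then 0 else (|y T| * G T) * (|y T'| * G T')) +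
      2 * (L * V2 Q h P) * (if (¬ Disjoint T T') ∧ T ∩ T' ⊆ Co then
        (|y T| * G T) * (|y T'| * G1 T') else 0) +
      (δ * (L * V2 Q h P) * ((|y T| * G T) * (|y T'| * G T')) +
        E0 * ((|y T| * Bt) * (|y T'| * Bt))) := by
    intro T hT T' hT'
    have hn1 : 0 ≤ (|y T| * G T) * (|y T'| * G T') :=
      mul_nonneg (mul_nonneg (abs_nonneg _) (hG0 T)) (mul_nonneg (abs_nonneg _) (hG0 T'))
    have hn2 : 0 ≤ (|y T| * Bt) * (|y T'| * Bt) :=
      mul_nonneg (mul_nonneg (abs_nonneg _) hBt0) (mul_nonneg (abs_nonneg _) hBt0)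
    by_cases hd : Disjoint T T'
    · rw [if_pos hd, mul_zero, add_zero, if_neg (fun h' => h'.1 hd), mul_zero, add_zero]
      have h2 := H.F2 T (mem_powerset.1 hT) T' (mem_powerset.1 hT') hd h M L
      have h3 : |(y T * y T') * ((c2 Q P T T' h M L : ℝ) - L * (G T * G T') * V2 Q h P)| ≤
          |y T * y T'| * (δ * (L * (G T * G T') * V2 Q h P) +
            E0 * ((∏ p ∈ T, (rr Q p : ℝ)) * ∏ p ∈ T', (rr Q p : ℝ))) := by
        rw [abs_mul]
        apply mul_le_mul_of_nonneg_left _ (abs_nonneg _)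
        rw [hG]
        exact h2
      rw [abs_mul (y T)] at h3
      have h4 := (abs_le.1 h3).2
      have h5 : E0 * ((|y T| * ∏ p ∈ T, (rr Q p : ℝ)) * (|y T'| * ∏ p ∈ T', (rr Q p : ℝ))) ≤
          E0 * ((|y T| * Bt) * (|y T'| * Bt)) := by
        apply mul_le_mul_of_nonneg_left _ hE
        exact mul_le_mul (hRle T hT T (subset_refl _)) (hRle T' hT' T' (subset_refl _))
          (mul_nonneg (abs_nonneg _) (hR0 _)) (mul_nonneg (abs_nonneg _) hBt0)
      linarith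
    · rw [if_neg hd]
      have h5 : -((|y T| * G T) * (|y T'| * G T')) ≤ (y T * G T) * (y T' * G T') := by
        have e : (|y T| * G T) * (|y T'| * G T') = |(y T * G T) * (y T' * G T')| := by
          rw [abs_mul, abs_mul, abs_mul, abs_of_nonneg (hG0 T), abs_of_nonneg (hG0 T')]
        rw [e]
        exact neg_abs_le _
      have h6 := mul_le_mul_of_nonneg_left h5 hLV
      have h7 := mul_nonneg (mul_nonneg hδ hLV) hn1
      have h8 := mul_nonneg hE hn2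
      by_cases hsub : T ∩ T' ⊆ Co
      · rw [if_pos ⟨hd, hsub⟩]
        -- drop the conditions at `n + h` modulo the common primes
        have hle : (c2 Q P T T' h M L : ℝ) ≤ (c2 Q P T (T' \ T) h M L : ℝ) := by
          have : c2 Q P T T' h M L ≤ c2 Q P T (T' \ T) h M L := by
            unfold c2
            apply card_le_card
            intro n hn
            rw [mem_filter] at hn ⊢
            exact ⟨hn.1, hn.2.1, fun p hp => hn.2.2.1 p (mem_sdiff.1 hp).1, hn.2.2.2⟩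
          exact_mod_cast this
        have h2 := H.F2 T (mem_powerset.1 hT) (T' \ T)
          (sdiff_subset.trans (mem_powerset.1 hT')) disjoint_sdiff h M L
        have h3 := (abs_le.1 h2).2
        have hGT : ∏ p ∈ T, gg Q p = G T := by rw [hG]
        have hG1T : ∏ p ∈ T' \ T, gg Q p ≤ G1 T' := by
          rw [hG1]
          simp only
          rw [← prod_sdiff (show T' ∩ T ⊆ T' from inter_subset_left)]
          have e1 : T' \ (T' ∩ T) = T' \ T := by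
            ext p
            simp only [mem_sdiff, mem_inter]
            tauto
          have e2 : ∏ p ∈ T' ∩ T, g1 Q Co p = 1 := by
            apply prod_eq_one
            intro p hp
            unfold g1
            rw [if_pos (hsub (by rw [mem_inter] at hp ⊢; exact ⟨hp.2, hp.1⟩))]
          rw [e1, e2, mul_one]
          apply prod_le_prod
          · intro p _
            exact gg_nonneg Q p
          · intro p _
            unfold g1
            split_ifs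
            · exact gg_le_one Q p
            · exact le_rfl
        rw [hGT] at h3
        obtain ⟨G', hG'⟩ : ∃ G', G' = ∏ p ∈ T' \ T, gg Q p := ⟨_, rfl⟩
        have hG'0 : 0 ≤ G' := hG' ▸ prod_nonneg fun p _ => gg_nonneg Q p
        rw [← hG'] at h3 hG1T
        have h9 : (c2 Q P T (T' \ T) h M L : ℝ) ≤ 2 * (L * V2 Q h P * (G T * G1 T')) +
            E0 * ((∏ p ∈ T, (rr Q p : ℝ)) * ∏ p ∈ T' \ T, (rr Q p : ℝ)) := by
          have u1 : L * (G T * G') * V2 Q h P ≤ L * V2 Q h P * (G T * G1 T') := by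
            calc L * (G T * G') * V2 Q h P = L * V2 Q h P * (G T * G') := by ring
              _ ≤ _ := by
                  apply mul_le_mul_of_nonneg_left _ hLV
                  exact mul_le_mul_of_nonneg_left hG1T (hG0 T)
          have u2 : 0 ≤ L * (G T * G') * V2 Q h P := by
            have := mul_nonneg hLV (mul_nonneg (hG0 T) hG'0)
            linarith
          have u3 : δ * (L * (G T * G') * V2 Q h P) ≤ 1 * (L * (G T * G') * V2 Q h P) :=
            mul_le_mul_of_nonneg_right hδ1 u2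
          linarith
        have hyy : y T * y T' ≤ |y T| * |y T'| := by
          rw [← abs_mul]
          exact le_abs_self _
        have hc0 : (0 : ℝ) ≤ (c2 Q P T T' h M L : ℝ) := Nat.cast_nonneg _
        have h10 : y T * y T' * (c2 Q P T T' h M L : ℝ) ≤
            |y T| * |y T'| * (2 * (L * V2 Q h P * (G T * G1 T')) +
            E0 * ((∏ p ∈ T, (rr Q p : ℝ)) * ∏ p ∈ T' \ T, (rr Q p : ℝ))) := by
          refine (mul_le_mul_of_nonneg_right hyy hc0).trans ?_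
          apply mul_le_mul_of_nonneg_left (hle.trans h9) (by positivity)
        have h11 : E0 * ((|y T| * ∏ p ∈ T, (rr Q p : ℝ)) * (|y T'| * ∏ p ∈ T' \ T, (rr Q p : ℝ))) ≤
            E0 * ((|y T| * Bt) * (|y T'| * Bt)) := by
          apply mul_le_mul_of_nonneg_left _ hE
          exact mul_le_mul (hRle T hT T (subset_refl _)) (hRle T' hT' _ sdiff_subset)
            (mul_nonneg (abs_nonneg _) (hR0 _)) (mul_nonneg (abs_nonneg _) hBt0)
        linarith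
      · rw [if_neg (fun h' => hsub h'.2), mul_zero, add_zero]
        have h2 : c2 Q P T T' h M L = 0 := by
          rw [c2, card_eq_zero, filter_eq_empty_iff]
          intro n _ hn
          apply hsub
          intro p hp
          rw [mem_inter] at hp
          exact hh p (mem_powerset.1 hT hp.1) ⟨n, hn.1.1 p hp.1, hn.2.1 p hp.2⟩
        rw [h2, Nat.cast_zero, mul_zero]
        linarith
  refine (sum_le_sum fun T hT => sum_le_sum fun T' hT' => h1 T hT T' hT').trans ?_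
  have e5 : ∑ T ∈ P2.powerset, ∑ T' ∈ P2.powerset, (L * V2 Q h P * ((y T * G T) * (y T' * G T')) +
      L * V2 Q h P * (if Disjoint T T' then 0 else (|y T| * G T) * (|y T'| * G T')) +
      2 * (L * V2 Q h P) * (if (¬ Disjoint T T') ∧ T ∩ T' ⊆ Co then
        (|y T| * G T) * (|y T'| * G1 T') else 0) +
      (δ * (L * V2 Q h P) * ((|y T| * G T) * (|y T'| * G T')) +
        E0 * ((|y T| * Bt) * (|y T'| * Bt)))) =
      L * V2 Q h P * ∑ T ∈ P2.powerset, ∑ T' ∈ P2.powerset, ((y T * G T) * (y T' * G T')) +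
      L * V2 Q h P * ∑ T ∈ P2.powerset, ∑ T' ∈ P2.powerset,
        (if Disjoint T T' then 0 else (|y T| * G T) * (|y T'| * G T')) +
      2 * (L * V2 Q h P) * ∑ T ∈ P2.powerset, ∑ T' ∈ P2.powerset,
        (if (¬ Disjoint T T') ∧ T ∩ T' ⊆ Co then (|y T| * G T) * (|y T'| * G1 T') else 0) +
      (δ * (L * V2 Q h P) * ∑ T ∈ P2.powerset, ∑ T' ∈ P2.powerset,
        ((|y T| * G T) * (|y T'| * G T')) +
        E0 * ∑ T ∈ P2.powerset, ∑ T' ∈ P2.powerset, ((|y T| * Bt) * (|y T'| * Bt))) := by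
    simp only [mul_sum, sum_add_distrib]
  rw [e5]
  have e1 : ∑ T ∈ P2.powerset, ∑ T' ∈ P2.powerset, (y T * G T) * (y T' * G T') =
      VV P2 y (gg Q) ^ 2 := by
    rw [← sum_mul_sum, sq, hG]
    rfl
  have e2 : ∑ T ∈ P2.powerset, ∑ T' ∈ P2.powerset, (|y T| * G T) * (|y T'| * G T') ≤
      Sy Q P2 B0 ^ 2 := by
    rw [← sum_mul_sum, sq]
    have h2 := sum_abs H
    have h3 : ∑ T ∈ P2.powerset, |y T| * G T ≤ Sy Q P2 B0 := by rw [hG]; exact h2
    exact mul_le_mul h3 h3 (sum_nonneg fun T _ => mul_nonneg (abs_nonneg _) (hG0 T)) (Sy_nonneg H)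
  have e3 : ∑ T ∈ P2.powerset, ∑ T' ∈ P2.powerset, (|y T| * Bt) * (|y T'| * Bt) ≤
      (B0 * Dy * Bt) ^ 2 := by
    rw [← sum_mul_sum, sq]
    have h3 := sum_err H
    have h4 : 0 ≤ ∑ T ∈ P2.powerset, |y T| * Bt :=
      sum_nonneg fun T _ => mul_nonneg (abs_nonneg _) hBt0
    exact mul_le_mul h3 h3 h4 (h4.trans h3)
  have e4 : ∑ T ∈ P2.powerset, ∑ T' ∈ P2.powerset, (if Disjoint T T' then 0 else
      (|y T| * G T) * (|y T'| * G T')) ≤ Sy Q P2 B0 ^ 2 * ∑ p ∈ P2, gg Q p ^ 2 := by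
    rw [hG]
    exact sum_nd H
  have e6 : ∑ T ∈ P2.powerset, ∑ T' ∈ P2.powerset, (if (¬ Disjoint T T') ∧ T ∩ T' ⊆ Co then
      (|y T| * G T) * (|y T'| * G1 T') else 0) ≤
      Sy Q P2 B0 ^ 2 * (2 ^ Co.card * ∑ p ∈ Co, gg Q p) := by
    rw [hG, hG1]
    exact sum_co H hCo
  have k1 := mul_le_mul_of_nonneg_left e4 hLV
  have k2 := mul_le_mul_of_nonneg_left e2 (mul_nonneg H.hδ hLV)
  have k3 := mul_le_mul_of_nonneg_left e3 H.hE
  have k4 := mul_le_mul_of_nonneg_left e6 (mul_nonneg (zero_le_two) hLV)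
  have k5 : L * V2 Q h P * (Sy Q P2 B0 ^ 2 * (2 * (2 ^ Co.card * ∑ p ∈ Co, gg Q p))) ≤
      L * V2 Q h P * (Sy Q P2 B0 ^ 2 * κ) := by
    apply mul_le_mul_of_nonneg_left _ hLV
    exact mul_le_mul_of_nonneg_left hκ (sq_nonneg _)
  rw [e1]
  linarith

/-- **the diagonal** -/
theorem diag (H : Hyp Q c P P2 y B0 δ E0 Bt Dy) (M L : ℕ) {vm : ℝ}
    (hv : ∀ n ∈ Ico M (M + L), (∀ p ∈ P, ¬ Q p n) → |vv Q P2 y n| ≤ vm) :
    ∑ n ∈ Ico M (M + L), ww Q P P2 y n ^ 2 ≤ vm ^ 2 * ((1 + δ) * (L * V1 Q P) + E0) := by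
  have h1 := H.F0 P (subset_refl _) M L
  have h2 := (abs_le.1 h1).2
  have h3 : ∑ n ∈ Ico M (M + L), ww Q P P2 y n ^ 2 ≤ vm ^ 2 * (c1 Q P ∅ M L : ℝ) := by
    rw [c1, card_filter]
    push_cast
    rw [mul_sum]
    refine sum_le_sum fun n hn => ?_
    unfold ww
    by_cases h4 : ∀ p ∈ P, ¬ Q p n
    · rw [if_pos h4, if_pos ⟨by simp, h4⟩, mul_one, ← sq_abs]
      exact pow_le_pow_left₀ (abs_nonneg _) (hv n hn h4) 2
    · rw [if_neg h4, if_neg fun h5 => h4 h5.2]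
      simp
  refine h3.trans (mul_le_mul_of_nonneg_left ?_ (sq_nonneg _))
  linarith

end

end Run7.h870.LG
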