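import Pool.Agent.Run7.h870.LG.Main
import Pool.Agent.Run7.h870.LI.Par

/-!
# The parameters, for the values of a function `F` with the properties of an irreducible polynomial
-/

set_option autoImplicit false
set_option linter.all false

namespace Run7.h870.LG

open Finset Filter
open Pool.Agent.Y882
open Pool.Agent.W23.DC
open Pool.Agent.Y882.SI Pool.Agent.Y882.PX Pool.Agent.Y882.KW
open Run7.h870.LI (Per rr ind_prod rr_le card_le_of_prod fac_nonneg fac_le_one VV_hcongr)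
open scoped Classical

/-- `p` divides `F n` -/
def Qf (F : ℕ → ℤ) (p n : ℕ) : Prop := (p : ℤ) ∣ F n

/-- the properties of the values of an irreducible polynomial -/
structure Dat (F : ℕ → ℤ) (c g D : ℕ) (cl : ℝ) (R : ℕ → ℕ) : Prop where
  base : Base (Qf F) c
  hc : 1 ≤ c
  hcl : 0 < cl
  low : ∀ y : ℕ, 3 ≤ y → cl / Real.log y ≤ V1 (Qf F) ((Icc 1 y).filter Nat.Prime)
  mer : ∀ ε₁ υ η : ℝ, 0 < ε₁ → υ ≤ 1 → 0 < η → ∃ Y0 : ℕ, ∀ Y : ℕ, Y0 ≤ Y →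
    Mer (pr Y ε₁ υ) (tt Y) (gg (Qf F)) ε₁ υ η
  hR : ∀ h, 1 ≤ h → R h ≠ 0
  hR2 : ∀ p n h : ℕ, Qf F p n → Qf F p (n + h) → p ∣ R h
  hR3 : ∀ h, 1 ≤ h → R h ≤ D * h ^ D
  size : ∀ n, 1 ≤ n → (F n).natAbs ≤ D * n ^ g
  gD : g ≤ D
  per : ∀ m n : ℕ, (m : ℤ) ∣ F (n + m) - F n
  lift : ∀ p : ℕ, p.Prime → D < p → ∀ n n' : ℕ, n ≡ n' [MOD p] → ((p ^ 2 : ℕ) : ℤ) ∣ F n →
    ((p ^ 2 : ℕ) : ℤ) ∣ F n' → n ≡ n' [MOD p ^ 2]

section

variable {F : ℕ → ℤ} {c g D : ℕ} {cl : ℝ} {R : ℕ → ℕ}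

theorem gg_le {Q : ℕ → ℕ → Prop} (hQ : Base Q c) {p : ℕ} (hp : p.Prime) : gg Q p ≤ c / p := by
  unfold gg
  have h : (rr Q p : ℝ) ≤ c := by exact_mod_cast hQ.le p hp
  exact div_le_div_of_nonneg_right h (Nat.cast_nonneg _)

theorem sum_gg {Q : ℕ → ℕ → Prop} {X : ℕ} {ε₁ υ : ℝ} (hε : 0 < ε₁) (hευ : ε₁ ≤ υ) (hυ : υ ≤ 1)
    (hM : Mer (pr X ε₁ υ) (tt X) (gg Q) ε₁ υ 1) :
    ∑ p ∈ pr X ε₁ υ, gg Q p ≤ Real.log (υ / ε₁) + 1 := by
  have h1 := hM ε₁ υ le_rfl hευ le_rfl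
  have e : (pr X ε₁ υ).filter (fun p => ε₁ ≤ tt X p ∧ tt X p < υ) = pr X ε₁ υ := by
    apply filter_true_of_mem
    intro p hp
    unfold pr at hp
    rw [mem_filter] at hp
    exact hp.2.2
  rw [e] at h1
  have h2 := (abs_le.1 h1).2
  linarith

theorem Sy_le {Q : ℕ → ℕ → Prop} {X : ℕ} {ε₁ υ B0 : ℝ} (hε : 0 < ε₁) (hευ : ε₁ ≤ υ) (hυ : υ ≤ 1)
    (hB : 0 ≤ B0) (hM : Mer (pr X ε₁ υ) (tt X) (gg Q) ε₁ υ 1) :
    Sy Q (pr X ε₁ υ) B0 ≤ 3 * B0 / ε₁ := by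
  have h1 := sum_gg hε hευ hυ hM
  have h2 : ∏ p ∈ pr X ε₁ υ, (1 + gg Q p) ≤ 3 / ε₁ := by
    calc ∏ p ∈ pr X ε₁ υ, (1 + gg Q p) ≤ ∏ p ∈ pr X ε₁ υ, Real.exp (gg Q p) :=
          prod_le_prod (fun p _ => by have := gg_nonneg Q p; linarith)
            (fun p _ => by have := Real.add_one_le_exp (gg Q p); linarith)
      _ = Real.exp (∑ p ∈ pr X ε₁ υ, gg Q p) := (Real.exp_sum _ _).symm
      _ ≤ Real.exp (Real.log (υ / ε₁) + 1) := Real.exp_le_exp.2 h1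
      _ = υ / ε₁ * Real.exp 1 := by
          rw [Real.exp_add, Real.exp_log (by have : 0 < υ := by linarith
                                             positivity)]
      _ ≤ 1 / ε₁ * 3 := by
          apply mul_le_mul _ _ (Real.exp_pos _).le (by positivity)
          · exact div_le_div_of_nonneg_right hυ hε.le
          · linarith [Real.exp_one_lt_d9]
      _ = 3 / ε₁ := by ring
  unfold Sy
  calc B0 * ∏ p ∈ pr X ε₁ υ, (1 + gg Q p) ≤ B0 * (3 / ε₁) := mul_le_mul_of_nonneg_left h2 hB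
    _ = _ := by ring

theorem gg2_le {Q : ℕ → ℕ → Prop} (hQ : Base Q c) {X : ℕ} (hX : 2 ≤ X) {ε₁ υ : ℝ} (hε : 0 < ε₁)
    (hευ : ε₁ ≤ υ) (hυ : υ ≤ 1) (hM : Mer (pr X ε₁ υ) (tt X) (gg Q) ε₁ υ 1) :
    ∑ p ∈ pr X ε₁ υ, gg Q p ^ 2 ≤ c / (X : ℝ) ^ ε₁ * (1 / ε₁ + 1) := by
  have hXr : (2 : ℝ) ≤ X := by exact_mod_cast hX
  have h1 := sum_gg hε hευ hυ hM
  have hυ0 : 0 < υ := by linarith
  have h2 : Real.log (υ / ε₁) ≤ 1 / ε₁ := by
    have h3 := Real.log_le_sub_one_of_pos (show 0 < υ / ε₁ by positivity)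
    have h4 : υ / ε₁ ≤ 1 / ε₁ := div_le_div_of_nonneg_right hυ hε.le
    linarith
  calc ∑ p ∈ pr X ε₁ υ, gg Q p ^ 2 ≤ ∑ p ∈ pr X ε₁ υ, c / (X : ℝ) ^ ε₁ * gg Q p := by
        apply sum_le_sum
        intro p hp
        obtain ⟨h5, h6, h7⟩ := pr_mem X p ε₁ υ hX hp
        rw [sq]
        apply mul_le_mul_of_nonneg_right _ (gg_nonneg Q p)
        refine (gg_le hQ h5).trans ?_
        exact div_le_div_of_nonneg_left (Nat.cast_nonneg _) (by positivity) h6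
    _ = c / (X : ℝ) ^ ε₁ * ∑ p ∈ pr X ε₁ υ, gg Q p := by rw [mul_sum]
    _ ≤ _ := by
        apply mul_le_mul_of_nonneg_left _ (by positivity)
        linarith

theorem prod_rr_le {Q : ℕ → ℕ → Prop} (hQ : Base Q c) (hc : 1 ≤ c) {T : Finset ℕ}
    (hT : ∀ p ∈ T, p.Prime) {m : ℕ} (hm : T.card ≤ m) :
    ∏ p ∈ T, (rr Q p : ℝ) ≤ (c : ℝ) ^ m := by
  have hcr : (1 : ℝ) ≤ c := by exact_mod_cast hc
  calc ∏ p ∈ T, (rr Q p : ℝ) ≤ ∏ p ∈ T, (c : ℝ) :=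
        prod_le_prod (fun _ _ => Nat.cast_nonneg _)
          (fun p hp => by exact_mod_cast hQ.le p (hT p hp))
    _ = (c : ℝ) ^ T.card := by rw [prod_const]
    _ ≤ (c : ℝ) ^ m := pow_le_pow_right₀ hcr hm

/-- the divisor sum is bounded -/
theorem vv_le {Q : ℕ → ℕ → Prop} {P2 : Finset ℕ} {y : Finset ℕ → ℝ} {B0 : ℝ}
    (hB : ∀ T, |y T| ≤ B0) {n m : ℕ} (hm : (P2.filter fun p => Q p n).card ≤ m) :
    |vv Q P2 y n| ≤ B0 * 2 ^ m := by
  have hB0 : 0 ≤ B0 := (abs_nonneg _).trans (hB ∅)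
  unfold vv VV
  calc |∑ T ∈ P2.powerset, y T * ∏ p ∈ T, (if Q p n then (1 : ℝ) else 0)| ≤
      ∑ T ∈ P2.powerset, (if ∀ p ∈ T, Q p n then B0 else 0) := by
        refine (abs_sum_le_sum_abs _ _).trans (sum_le_sum fun T _ => ?_)
        rw [ind_prod]
        by_cases h : ∀ p ∈ T, Q p n
        · rw [if_pos h, if_pos h, mul_one]
          exact hB T
        · rw [if_neg h, if_neg h, mul_zero, abs_zero]
    _ = ((P2.powerset.filter fun T => ∀ p ∈ T, Q p n).card : ℝ) * B0 := by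
        rw [← sum_filter, sum_const, nsmul_eq_mul]
    _ = (2 : ℝ) ^ (P2.filter fun p => Q p n).card * B0 := by
        have e : P2.powerset.filter (fun T => ∀ p ∈ T, Q p n) =
            (P2.filter fun p => Q p n).powerset := by
          ext T
          rw [mem_filter, mem_powerset, mem_powerset]
          constructor
          · rintro ⟨h1, h2⟩ p hp
            exact mem_filter.2 ⟨h1 hp, h2 p hp⟩
          · intro h
            exact ⟨fun p hp => (mem_filter.1 (h hp)).1, fun p hp => (mem_filter.1 (h hp)).2⟩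
        rw [e, card_powerset]
        push_cast
        rfl
    _ ≤ 2 ^ m * B0 := mul_le_mul_of_nonneg_right (pow_le_pow_right₀ (by norm_num) hm) hB0
    _ = _ := mul_comm _ _

/-- few large primes divide a number -/
theorem few_div {X N : ℕ} (hX : 2 ≤ X) {ε₁ υ σ : ℝ} (hε : 0 < ε₁) {m : ℕ}
    (hm : σ / ε₁ ≤ m) (hne : N ≠ 0) (hsz : (N : ℝ) ≤ (X : ℝ) ^ σ) {s : Finset ℕ}
    (hs : s ⊆ pr X ε₁ υ) (hd : ∀ p ∈ s, p ∣ N) : s.card ≤ m := by
  apply card_le_of_prod hX hε (σ := σ) _ _ hm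
  · intro p hp
    exact (pr_mem X p ε₁ υ hX (hs hp)).2.1
  · refine le_trans ?_ hsz
    have h1 : ∏ p ∈ s, p ∣ N := by
      apply Finset.prod_primes_dvd
      · intro p hp
        exact (pr_mem X p ε₁ υ hX (hs hp)).1.prime
      · exact hd
    have h2 := Nat.le_of_dvd (Nat.pos_of_ne_zero hne) h1
    exact_mod_cast h2

/-- the density of the small primes -/
theorem V1_low (hF : Dat F c g D cl R) : ∀ ε₁ : ℝ, 0 < ε₁ →
    ∃ X0 : ℕ, ∀ X : ℕ, X0 ≤ X → cl / 2 / (ε₁ * Real.log X) ≤ V1 (Qf F) (PZ X ε₁) := by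
  intro ε₁ hε
  have hc := hF.hcl
  have ev1 : ∀ᶠ X : ℕ in atTop, (3 : ℝ) ≤ (X : ℝ) ^ ε₁ :=
    ((tendsto_rpow_atTop hε).comp tendsto_natCast_atTop_atTop).eventually_ge_atTop _
  obtain ⟨X0, hX0⟩ := eventually_atTop.1 (ev1.and (eventually_ge_atTop 3))
  refine ⟨X0, fun X hX => ?_⟩
  obtain ⟨e1, e2⟩ := hX0 X hX
  have hXr : (3 : ℝ) ≤ X := by exact_mod_cast e2
  have hX0 : (0 : ℝ) < X := by linarith
  have hlX : 0 < Real.log X := Real.log_pos (by linarith)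
  obtain ⟨Z, hZ⟩ : ∃ Z, Z = ⌈(X : ℝ) ^ ε₁⌉₊ := ⟨_, rfl⟩
  have hZ1 : (X : ℝ) ^ ε₁ ≤ Z := hZ ▸ Nat.le_ceil _
  have hZ2 : (Z : ℝ) ≤ (X : ℝ) ^ (2 * ε₁) := by
    have h1 := Nat.ceil_lt_add_one (show 0 ≤ (X : ℝ) ^ ε₁ by positivity)
    rw [← hZ] at h1
    have h2 : (X : ℝ) ^ (2 * ε₁) = (X : ℝ) ^ ε₁ * (X : ℝ) ^ ε₁ := by
      rw [← Real.rpow_add hX0]
      congr 1
      ring
    rw [h2]
    nlinarith
  have hZ3 : 3 ≤ Z := by
    have : (3 : ℝ) ≤ Z := e1.trans hZ1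
    exact_mod_cast this
  have hZr : (3 : ℝ) ≤ Z := by exact_mod_cast hZ3
  have h1 := hF.low Z hZ3
  have h2 : V1 (Qf F) ((Icc 1 Z).filter Nat.Prime) ≤ V1 (Qf F) (PZ X ε₁) := by
    have hsub : PZ X ε₁ ⊆ (Icc 1 Z).filter Nat.Prime := by
      intro p hp
      unfold PZ at hp
      rw [mem_filter, mem_Icc] at hp
      rw [mem_filter, mem_Icc]
      refine ⟨⟨hp.1.1, ?_⟩, hp.2.1⟩
      have h3 := (tt_lt X p ε₁ (by omega) hp.2.1.pos).1 hp.2.2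
      exact_mod_cast (h3.le.trans hZ1)
    have e : V1 (Qf F) ((Icc 1 Z).filter Nat.Prime) =
        V1 (Qf F) ((Icc 1 Z).filter Nat.Prime \ PZ X ε₁) * V1 (Qf F) (PZ X ε₁) :=
      (prod_sdiff hsub).symm
    rw [e]
    apply mul_le_of_le_one_left
    · exact (V1_pos hF.base fun p hp => (mem_filter.1 (hsub hp)).2).le
    · exact V1_le_one _ fun p hp => (mem_filter.1 (Finset.mem_sdiff.1 hp).1).2
  refine le_trans ?_ (h1.trans h2)
  have h3 : Real.log Z ≤ 2 * ε₁ * Real.log X := by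
    rw [← Real.log_rpow hX0]
    exact Real.log_le_log (by linarith) hZ2
  have h4 : 0 < Real.log Z := Real.log_pos (by linarith)
  calc cl / 2 / (ε₁ * Real.log X) = cl / (2 * ε₁ * Real.log X) := by
        rw [div_div]
        congr 1
        ring
    _ ≤ cl / Real.log Z := div_le_div_of_nonneg_left hc.le h4 h3

/-- the indices with a positive weight -/
noncomputable def pos (F : ℕ → ℤ) (X : ℕ) (ζ υ aw bw : ℝ) (s H n : ℕ) : Finset ℕ :=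
  (range H).filter fun j => 0 < WW X ζ υ aw bw (F (n + j * s)).natAbs

/-- the weights and the weights of the almost primes -/
theorem ww_le {X : ℕ} {ε₁ ζ υ aw bw : ℝ} (hεζ : ε₁ ≤ ζ) (hb : 0 ≤ bw) (hab : bw * υ ≤ aw)
    {y : Finset ℕ → ℝ} (hy : ∀ N : ℕ, VV (pr X ε₁ υ) y (fun p => if p ∣ N then 1 else 0) ≤
      WB X ε₁ ζ υ aw bw N) (F : ℕ → ℤ) (n : ℕ) :
    ww (Qf F) (PZ X ε₁) (pr X ε₁ υ) y n ≤
      if 0 < WW X ζ υ aw bw (F n).natAbs then 1 else 0 := by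
  by_cases h : ∀ p ∈ PZ X ε₁, ¬ Qf F p n
  · unfold ww
    rw [if_pos h]
    obtain ⟨N, hN⟩ : ∃ N, N = (F n).natAbs := ⟨_, rfl⟩
    have hQ : ∀ p : ℕ, (Qf F p n ↔ p ∣ N) := by
      intro p
      rw [hN]
      unfold Qf
      exact Int.natCast_dvd
    have h1 : vv (Qf F) (pr X ε₁ υ) y n = VV (pr X ε₁ υ) y (fun p => if p ∣ N then 1 else 0) := by
      unfold vv
      refine VV_hcongr _ _ fun p _ => ?_
      by_cases h2 : p ∣ N
      · rw [if_pos h2, if_pos ((hQ p).2 h2)]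
      · rw [if_neg h2, if_neg fun h3 => h2 ((hQ p).1 h3)]
    have h2 : WB X ε₁ ζ υ aw bw N = WW X ζ υ aw bw N := by
      unfold WB WW
      congr 1
      have h3 : (∀ p ∈ pr X ε₁ ζ, ¬ p ∣ N) ↔ ∀ p ∈ PZ X ζ, ¬ p ∣ N := by
        constructor
        · intro h4 p hp
          unfold PZ at hp
          rw [mem_filter] at hp
          rcases lt_or_ge (tt X p) ε₁ with h5 | h5
          · intro h6
            exact h p (by unfold PZ; rw [mem_filter]; exact ⟨hp.1, hp.2.1, h5⟩) ((hQ p).2 h6)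
          · exact h4 p (by unfold pr; rw [mem_filter]; exact ⟨hp.1, hp.2.1, h5, hp.2.2⟩)
        · intro h4 p hp
          unfold pr at hp
          rw [mem_filter] at hp
          exact h4 p (by unfold PZ; rw [mem_filter]; exact ⟨hp.1, hp.2.1, hp.2.2.2⟩)
      by_cases h4 : ∀ p ∈ pr X ε₁ ζ, ¬ p ∣ N
      · rw [if_pos h4, if_pos (h3.1 h4)]
      · rw [if_neg h4, if_neg fun h5 => h4 (h3.2 h5)]
    rw [h1, ← hN]
    refine (hy N).trans ?_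
    rw [h2]
    split_ifs with h3
    · exact WW_le_one X ζ υ aw bw hb hab N
    · exact not_lt.1 h3
  · unfold ww
    rw [if_neg h]
    split_ifs <;> norm_num

theorem AA_le {X : ℕ} {ε₁ ζ υ aw bw : ℝ} (hεζ : ε₁ ≤ ζ) (hb : 0 ≤ bw)
    (hab : bw * υ ≤ aw)
    {y : Finset ℕ → ℝ} (hy : ∀ N : ℕ, VV (pr X ε₁ υ) y (fun p => if p ∣ N then 1 else 0) ≤
      WB X ε₁ ζ υ aw bw N) (F : ℕ → ℤ) (s H n : ℕ) :
    AA (Qf F) (PZ X ε₁) (pr X ε₁ υ) y s H n ≤ ((pos F X ζ υ aw bw s H n).card : ℝ) := by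
  have h1 : ((pos F X ζ υ aw bw s H n).card : ℝ) = ∑ j ∈ range H,
      if 0 < WW X ζ υ aw bw (F (n + j * s)).natAbs then (1 : ℝ) else 0 := by
    unfold pos
    rw [card_filter]
    push_cast
    rfl
  rw [h1]
  unfold AA
  exact sum_le_sum fun j _ => ww_le hεζ hb hab hy F _

end

end Run7.h870.LG
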