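import Pool.Agent.Run7.h870.LG.Cls

/-!
# The choice of the parameters for `2 g + 1` prime factors
-/

set_option autoImplicit false
set_option linter.all false

namespace Run7.h870.LG

open Real

theorem params (g : ℕ) (hg : 1 ≤ g) (z : ℝ) (hz : z < (3 - √5) / 4) :
    ∃ τ ζ υ lam S σ : ℝ, Par τ ζ υ lam ∧ 0 < σ ∧ σ ≤ 1 ∧ g * (1 + σ) < S ∧
      1 / lam + S / υ ≤ ((2 * g + 1 : ℕ) : ℝ) + 1 ∧ z ≤ ζ := by
  have hgr : (1 : ℝ) ≤ g := by exact_mod_cast hg
  have h5 : (√5) ^ 2 = 5 := Real.sq_sqrt (by norm_num)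
  have h50 : 0 ≤ √5 := Real.sqrt_nonneg 5
  have h51 : √5 < 2.24 := by
    rw [Real.sqrt_lt' (by norm_num)]
    norm_num
  have h52 : 2.2 < √5 := by
    rw [Real.lt_sqrt (by norm_num)]
    norm_num
  obtain ⟨z', hz'⟩ : ∃ z', z' = max z (1 / 7) := ⟨_, rfl⟩
  have hz1 : z ≤ z' := hz' ▸ le_max_left _ _
  have hz2 : 1 / 7 ≤ z' := hz' ▸ le_max_right _ _
  have hz3 : z' < (3 - √5) / 4 := by
    rw [hz']
    exact max_lt hz (by linarith)
  have hz0 : 0 < z' := by linarith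
  -- the ratio
  obtain ⟨φ, hφ⟩ : ∃ φ, φ = (3 + √5) / 2 := ⟨_, rfl⟩
  have hφ1 : φ < 1 / (2 * z') := by
    rw [lt_div_iff₀ (by positivity)]
    have h1 : φ * (2 * z') < φ * (2 * ((3 - √5) / 4)) := by
      apply mul_lt_mul_of_pos_left
      · linarith
      · rw [hφ]; linarith
    have h2 : φ * (2 * ((3 - √5) / 4)) = (9 - (√5) ^ 2) / 4 := by rw [hφ]; ring
    rw [h2, h5] at h1
    linarith
  obtain ⟨s, hs⟩ : ∃ s, s = (φ + 1 / (2 * z')) / 2 := ⟨_, rfl⟩
  have hs1 : φ < s := by rw [hs]; linarith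
  have hs2 : s < 1 / (2 * z') := by rw [hs]; linarith
  have hs3 : s * (2 * z') < 1 := by rwa [lt_div_iff₀ (by positivity)] at hs2
  have hφ2 : 2.6 < φ := by rw [hφ]; linarith
  have hs0 : 0 < s := by linarith
  have hs4 : s < 4 := by
    have : s * (2 / 7) ≤ s * (2 * z') := mul_le_mul_of_nonneg_left (by linarith) hs0.le
    linarith
  have hsq : s < (s - 1) ^ 2 := by
    have h1 : φ ^ 2 - 3 * φ + 1 = 0 := by
      have e : φ ^ 2 - 3 * φ + 1 = ((√5) ^ 2 - 5) / 4 := by rw [hφ]; ring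
      rw [e, h5]
      norm_num
    have h2 : (s - 1) ^ 2 - s = (s - φ) * (s + φ - 3) + (φ ^ 2 - 3 * φ + 1) := by ring
    have h3 : 0 < (s - φ) * (s + φ - 3) := mul_pos (by linarith) (by linarith)
    linarith
  have hls : 0 < log s := log_pos (by linarith)
  have hls1 : log s < 2 * log (s - 1) := by
    have := log_lt_log hs0 hsq
    rwa [log_pow] at this
  obtain ⟨q, hq⟩ : ∃ q, q = log (s - 1) / log s := ⟨_, rfl⟩
  have hq1 : 1 / 2 < q := by
    rw [hq, lt_div_iff₀ hls]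
    linarith
  obtain ⟨lam, hlam⟩ : ∃ lam, lam = (1 / 2 + q) / 2 := ⟨_, rfl⟩
  have hl1 : 1 / 2 < lam := by rw [hlam]; linarith
  have hl2 : lam < q := by rw [hlam]; linarith
  have hl0 : 0 < lam := by linarith
  have hl3 : log s < 1 / lam * log (s - 1) := by
    rw [hq, lt_div_iff₀ hls] at hl2
    rw [one_div, inv_mul_eq_div, lt_div_iff₀ hl0]
    linarith
  obtain ⟨γ, hγ⟩ : ∃ γ, γ = 2 - 1 / lam := ⟨_, rfl⟩
  have hγ0 : 0 < γ := by
    have : 1 / lam < 2 := by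
      rw [div_lt_iff₀ hl0]
      linarith
    rw [hγ]
    linarith
  obtain ⟨t, ht⟩ : ∃ t, t = min (1 / 10) (min (γ / (12 * g)) (1 - s * (2 * z'))) := ⟨_, rfl⟩
  have ht0 : 0 < t := by
    rw [ht]
    refine lt_min (by norm_num) (lt_min (by positivity) (by linarith))
  have ht1 : t ≤ 1 / 10 := ht ▸ min_le_left _ _
  have ht2 : t ≤ γ / (12 * g) := ht ▸ (min_le_right _ _).trans (min_le_left _ _)
  have ht3 : t ≤ 1 - s * (2 * z') := ht ▸ (min_le_right _ _).trans (min_le_right _ _)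
  obtain ⟨τ, hτ⟩ : ∃ τ, τ = (1 - t) / 2 := ⟨_, rfl⟩
  have hτ0 : 0 < τ := by rw [hτ]; linarith
  obtain ⟨υ, hυ⟩ : ∃ υ, υ = (1 - t) * τ := ⟨_, rfl⟩
  have hυ0 : 0 < υ := by rw [hυ]; exact mul_pos (by linarith) hτ0
  have hυτ : υ < τ := by
    have := mul_pos ht0 hτ0
    rw [hυ]
    linarith
  obtain ⟨ζ, hζ⟩ : ∃ ζ, ζ = τ / s := ⟨_, rfl⟩
  have hζ0 : 0 < ζ := by rw [hζ]; positivity
  have hζs : ζ * s = τ := by rw [hζ]; field_simp
  have hζυ : ζ ≤ υ := by
    rw [hυ, ← hζs]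
    have h1 : (9 / 10 : ℝ) * 2.6 ≤ (1 - t) * s :=
      mul_le_mul (by linarith) (by linarith) (by norm_num) (by linarith)
    have h2 := mul_nonneg hζ0.le (show 0 ≤ (1 - t) * s - 1 by linarith)
    linarith
  have hz2 : 0 < ζ * (s - 2) := mul_pos hζ0 (by linarith)
  have hz4 : 0 < ζ * (4 - s) := mul_pos hζ0 (by linarith)
  have hgt : 0 < (g : ℝ) * t := by positivity
  refine ⟨τ, ζ, υ, lam, g * (1 + 2 * t), t, ⟨hζ0, by linarith, by linarith, by linarith, hζυ, hυτ,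
    hl0, ?_⟩, ht0, by linarith, by linarith, ?_, ?_⟩
  · apply Pool.Agent.Y882.KW.cond_log lam τ ζ υ hl0 hζ0 hζυ hυτ
    have e1 : τ / ζ = s := by rw [← hζs]; field_simp
    rw [e1]
    have h1 : log (υ / ζ) ≤ log s := by
      apply log_le_log (by positivity)
      rw [← e1]
      exact div_le_div_of_nonneg_right hυτ.le hζ0.le
    have h2 : 0 ≤ (τ / υ - 1) * log ((τ - ζ) / (τ - υ)) := by
      apply mul_nonneg
      · rw [sub_nonneg, le_div_iff₀ hυ0]
        linarith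
      · apply log_nonneg
        rw [le_div_iff₀ (by linarith)]
        linarith
    linarith
  · have h1 : g * (1 + 2 * t) / υ ≤ 2 * g * (1 + 6 * t) := by
      rw [div_le_iff₀ hυ0, hυ, hτ]
      have h2 : 1 + 2 * t ≤ (1 + 6 * t) * (1 - t) ^ 2 := by
        have : (1 + 6 * t) * (1 - t) ^ 2 - (1 + 2 * t) = t * (2 - 11 * t + 6 * t ^ 2) := by ring
        have h3 : 0 ≤ t * (2 - 11 * t + 6 * t ^ 2) := by
          apply mul_nonneg ht0.le
          linarith [sq_nonneg t]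
        linarith
      have h3 := mul_le_mul_of_nonneg_left h2 (show (0 : ℝ) ≤ g by linarith)
      linarith
    have h4 : 12 * g * t ≤ γ := by
      rw [le_div_iff₀ (by positivity)] at ht2
      linarith
    push_cast
    linarith
  · refine hz1.trans ?_
    rw [hζ, le_div_iff₀ hs0, hτ]
    linarith

end Run7.h870.LG
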