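import Pool.Agent.Run7.h870.LG.Mer
import Pool.Agent.Run7.h870.LG.Prm
import Pool.Agent.W123.RU.PolyV

/-!
# The data of an irreducible polynomial
-/

set_option autoImplicit false
set_option linter.all false

namespace Run7.h870.LG

open Finset Filter Topology NumberField Polynomial
open Pool.Agent.Y882
open Pool.Agent.W23.DC
open Pool.Agent.Y882.KW Pool.Agent.Y882.PX
open Pool.Agent.H474R2.PG (rho)
open Run7.h870.LI (Per rr per_mod)
open scoped Classical

theorem pc_tendsto : Tendsto (fun N : ℕ => (Nat.primeCounting N : ℝ)) atTop atTop :=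
  tendsto_natCast_atTop_atTop.comp Nat.tendsto_primeCounting

/-- the mean number of the roots -/
theorem mean_rho (f : ℤ[X]) (hf : Irreducible f) (hd : 0 < f.natDegree) :
    Tendsto (fun N : ℕ => (∑ p ∈ (range (N + 1)).filter Nat.Prime, (rho f p : ℝ)) /
      (Nat.primeCounting N : ℝ)) atTop (𝓝 1) := by
  obtain ⟨K1, iF1, iN1, B1, h1⟩ := Pool.Agent.H474R2.PG.homs_le_rho f hf hd
  obtain ⟨K2, iF2, iN2, B2, h2⟩ := Pool.Agent.H474R2.GE.rho_le_homs f hf hd
  have p1 := Pool.Agent.H484R2.pit K1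
  have p2 := Pool.Agent.H484R2.pit K2
  obtain ⟨g1, hg1⟩ : ∃ g1 : ℕ → ℝ, g1 = fun p => (Nat.card (𝓞 K1 →+* ZMod p) : ℝ) := ⟨_, rfl⟩
  obtain ⟨g2, hg2⟩ : ∃ g2 : ℕ → ℝ, g2 = fun p => (Nat.card (𝓞 K2 →+* ZMod p) : ℝ) := ⟨_, rfl⟩
  have q1 : Tendsto (fun N : ℕ => (∑ p ∈ (range (N + 1)).filter Nat.Prime, g1 p) /
      (Nat.primeCounting N : ℝ)) atTop (𝓝 1) := by rw [hg1]; exact p1
  have q2 : Tendsto (fun N : ℕ => (∑ p ∈ (range (N + 1)).filter Nat.Prime, g2 p) /
      (Nat.primeCounting N : ℝ)) atTop (𝓝 1) := by rw [hg2]; exact p2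
  have hg10 : ∀ p, 0 ≤ g1 p := fun p => by rw [hg1]; exact Nat.cast_nonneg _
  obtain ⟨C1, hC1⟩ : ∃ C1, C1 = ∑ p ∈ range (B1 + 1), g1 p := ⟨_, rfl⟩
  obtain ⟨C2, hC2⟩ : ∃ C2 : ℝ, C2 = ∑ p ∈ range (B2 + 1), (rho f p : ℝ) := ⟨_, rfl⟩
  have t1 : Tendsto (fun N : ℕ => (∑ p ∈ (range (N + 1)).filter Nat.Prime, g1 p) /
      (Nat.primeCounting N : ℝ) - C1 / (Nat.primeCounting N : ℝ)) atTop (𝓝 1) := by
    have := q1.sub (tendsto_const_nhds.div_atTop pc_tendsto (a := C1))
    rwa [sub_zero] at this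
  have t2 : Tendsto (fun N : ℕ => (∑ p ∈ (range (N + 1)).filter Nat.Prime, g2 p) /
      (Nat.primeCounting N : ℝ) + C2 / (Nat.primeCounting N : ℝ)) atTop (𝓝 1) := by
    have := q2.add (tendsto_const_nhds.div_atTop pc_tendsto (a := C2))
    rwa [add_zero] at this
  refine tendsto_of_tendsto_of_tendsto_of_le_of_le t1 t2 ?_ ?_
  · intro N
    simp only
    rw [← sub_div]
    apply div_le_div_of_nonneg_right _ (Nat.cast_nonneg _)
    have k1 : ∀ p ∈ (range (N + 1)).filter Nat.Prime, g1 p - (if p < B1 + 1 then g1 p else 0) ≤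
        (rho f p : ℝ) := by
      intro p hp
      rw [mem_filter] at hp
      split_ifs with h
      · rw [sub_self]
        exact Nat.cast_nonneg _
      · rw [sub_zero, hg1]
        simp only
        exact_mod_cast h1 p hp.2 (by omega)
    have k2 := sum_le_sum k1
    rw [sum_sub_distrib] at k2
    have k3 : ∑ p ∈ (range (N + 1)).filter Nat.Prime, (if p < B1 + 1 then g1 p else 0) ≤ C1 := by
      rw [← sum_filter, hC1]
      apply sum_le_sum_of_subset_of_nonneg
      · intro p hp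
        rw [mem_filter] at hp
        exact mem_range.2 hp.2
      · intro p _ _
        exact hg10 p
    linarith
  · intro N
    simp only
    rw [← add_div]
    apply div_le_div_of_nonneg_right _ (Nat.cast_nonneg _)
    have k1 : ∀ p ∈ (range (N + 1)).filter Nat.Prime, (rho f p : ℝ) ≤
        g2 p + (if p < B2 + 1 then (rho f p : ℝ) else 0) := by
      intro p hp
      rw [mem_filter] at hp
      split_ifs with h
      · have : 0 ≤ g2 p := by rw [hg2]; exact Nat.cast_nonneg _
        linarith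
      · rw [add_zero, hg2]
        simp only
        exact_mod_cast h2 p hp.2 (by omega)
    have k2 := sum_le_sum k1
    rw [sum_add_distrib] at k2
    have k3 : ∑ p ∈ (range (N + 1)).filter Nat.Prime,
        (if p < B2 + 1 then (rho f p : ℝ) else 0) ≤ C2 := by
      rw [← sum_filter, hC2]
      apply sum_le_sum_of_subset_of_nonneg
      · intro p hp
        rw [mem_filter] at hp
        exact mem_range.2 hp.2
      · intro p _ _
        exact Nat.cast_nonneg _
    linarith

end Run7.h870.LG
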