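import Pool.Agent.Run7.h870.LG.Sq

/-!
# Almost prime values in almost all very short progressions
-/

set_option autoImplicit false
set_option linter.all false

namespace Run7.h870.LG

open Finset Filter
open Pool.Agent.Y882
open Pool.Agent.W23.DC
open Pool.Agent.Y882.PX Pool.Agent.Y882.KW
open Run7.h870.LI (Per rr evlog per_mod)
open scoped Classical

section

variable {F : ℕ → ℤ} {c g D : ℕ} {cl : ℝ} {R : ℕ → ℕ}

/-- the conditions on the parameters -/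
structure Par (τ ζ υ lam : ℝ) : Prop where
  hζ : 0 < ζ
  h2 : 2 * ζ < τ
  h4 : τ ≤ 4 * ζ
  hτ : 2 * τ < 1
  hζυ : ζ ≤ υ
  hυτ : υ < τ
  hlam : 0 < lam
  hJ0 : ∫ x in ζ..υ, (lam - lam / υ * x) / (τ - x) / x < Real.log (τ / ζ - 1) / τ

theorem V1_anti {Q : ℕ → ℕ → Prop} (hQ : Base Q c) {P P' : Finset ℕ} (hP : ∀ p ∈ P, p.Prime)
    (hsub : P' ⊆ P) : V1 Q P ≤ V1 Q P' := by
  have e : V1 Q P = V1 Q (P \ P') * V1 Q P' := (prod_sdiff hsub).symm
  rw [e]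
  apply mul_le_of_le_one_left
  · exact (V1_pos hQ fun p hp => hP p (hsub hp)).le
  · exact V1_le_one Q fun p hp => hP p (mem_sdiff.1 hp).1

set_option maxHeartbeats 4000000 in
/-- **Almost primes in almost all very short progressions** -/
theorem short (hF : Dat F c g D cl R) (r : ℕ) {τ ζ υ lam S σ : ℝ} (hP : Par τ ζ υ lam)
    (hσ : 0 ≤ σ) (hS : g * (1 + σ) < S) (hr : 1 / lam + S / υ ≤ r + 1) :
    ∃ δ : ℝ, 0 < δ ∧ ∀ ε : ℝ, 0 < ε → ∃ K ε₁ : ℝ, 0 < K ∧ 0 < ε₁ ∧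
      ∃ X0 : ℕ, ∀ X : ℕ, X0 ≤ X → ∀ s H M : ℕ, 1 ≤ s → s ≤ X → 1 ≤ M → M ≤ X →
      K * Real.log X ≤ H → H ≤ X → ((H * s : ℕ) : ℝ) ≤ (X : ℝ) ^ (1 + σ) →
      (((Gd (Qf F) (PZ X ε₁) s M X).filter (fun n =>
        ((gset F r ((X : ℝ) ^ ζ) s n H).card : ℝ) <
        δ * H / (V1 (Qf F) ((PZ X ε₁).filter fun p => p ∣ s) * Real.log X))).card : ℝ) ≤
        ε * (X * V1 (Qf F) ((PZ X ε₁).filter fun p => p ∣ s)) := by
  obtain ⟨hζ, h2, h4, hτ, hζυ, hυτ, hlam, hJ0⟩ := hP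
  have hυ0 : 0 < υ := by linarith
  have hυ1 : υ ≤ 1 := by linarith
  obtain ⟨δ, hδ, HM⟩ := many hF τ ζ υ lam hζ h2 h4 hτ hζυ hυτ hlam hJ0
  obtain ⟨Y1, HP⟩ := pos_le hF r ζ υ lam S σ hζ hζυ hυ0 hυ1 hlam hσ hS hr
  refine ⟨δ / 2, by positivity, fun ε hε => ?_⟩
  obtain ⟨K, ε₁, hK, hε₁, Y3, HM'⟩ := HM (ε / 2) (by positivity)
  refine ⟨K, ε₁, hK, hε₁, ?_⟩
  have hcl := hF.hcl
  obtain ⟨c1, hc1⟩ : ∃ c1, c1 = cl / 2 := ⟨_, rfl⟩
  have hc10 : 0 < c1 := by rw [hc1]; positivity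
  obtain ⟨Y2, HV⟩ := V1_low hF ε₁ hε₁
  rw [← hc1] at HV
  have ev1 := evlog (2 / δ) 1 (show 0 < ζ / 2 by positivity)
  have ev2 := evlog (6 * c * ε₁ / (ε * c1)) 1 (show 0 < ζ / 2 by positivity)
  have ev3 : ∀ᶠ X : ℕ in atTop, (D : ℝ) + 4 ≤ (X : ℝ) ^ ζ :=
    ((tendsto_rpow_atTop hζ).comp tendsto_natCast_atTop_atTop).eventually_ge_atTop _
  obtain ⟨Y4, hY4⟩ := eventually_atTop.1 (ev1.and (ev2.and (ev3.and (eventually_ge_atTop 3))))
  refine ⟨max (max Y1 Y2) (max Y3 Y4), fun X hX s H M hs1 hsX hM1 hMX hH1 hHX hHs => ?_⟩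
  have hX1 : Y1 ≤ X := ((le_max_left _ _).trans (le_max_left _ _)).trans hX
  have hX2 : Y2 ≤ X := ((le_max_right _ _).trans (le_max_left _ _)).trans hX
  have hX3 : Y3 ≤ X := ((le_max_left _ _).trans (le_max_right _ _)).trans hX
  obtain ⟨e1, e2, e4, e3⟩ := hY4 X (((le_max_right _ _).trans (le_max_right _ _)).trans hX)
  rw [pow_one] at e1 e2
  have hXr : (3 : ℝ) ≤ X := by exact_mod_cast e3
  have hX0 : (0 : ℝ) < X := by linarith
  have hX1r : (1 : ℝ) ≤ X := by linarith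
  have hlX : 0 < Real.log X := Real.log_pos (by linarith)
  have hHr : (0 : ℝ) < H := lt_of_lt_of_le (by positivity) hH1
  have hH0 : 0 < H := by exact_mod_cast hHr
  obtain ⟨t, ht⟩ : ∃ t, t = (X : ℝ) ^ (ζ / 2) := ⟨_, rfl⟩
  have ht0 : 0 < t := by rw [ht]; positivity
  rw [← ht] at e1 e2
  have hA := HM' X hX3 s H M hs1 hsX hM1 hMX hH1 hHX
  have hV := HV X hX2
  have hPZ : ∀ p ∈ PZ X ε₁, p.Prime := by
    intro p hp
    unfold PZ at hp
    exact (mem_filter.1 hp).2.1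
  have hVW := V1_anti hF.base hPZ (filter_subset (fun p => p ∣ s) (PZ X ε₁))
  obtain ⟨W, hW⟩ : ∃ W, W = V1 (Qf F) ((PZ X ε₁).filter fun p => p ∣ s) := ⟨_, rfl⟩
  have hW1 : W ≤ 1 := hW ▸ V1_le_one (Qf F) fun p hp => hPZ p (mem_filter.1 hp).1
  rw [← hW] at hA hVW ⊢
  have hWl : c1 / (ε₁ * Real.log X) ≤ W := hV.trans hVW
  have hW0 : 0 < W := lt_of_lt_of_le (by positivity) hWl
  have hB := bad_pos (Bad F X ζ υ) (M := M) (L := X) (H := H) (s := s) ht0 hH0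
    (fun M => bad_count hF e3 hυ1 e4 M X)
  obtain ⟨A1, hA1⟩ : ∃ A1, A1 = (Gd (Qf F) (PZ X ε₁) s M X).filter (fun n =>
    ((pos F X ζ υ lam (lam / υ) s H n).card : ℝ) < δ * H / (W * Real.log X)) := ⟨_, rfl⟩
  obtain ⟨A2, hA2⟩ : ∃ A2, A2 = (Ico M (M + X)).filter (fun n => (H : ℝ) / t <
      (((range H).filter (fun j => Bad F X ζ υ (n + j * s))).card : ℝ)) := ⟨_, rfl⟩
  rw [← hA1] at hA
  rw [← hA2] at hB
  have hsub : (Gd (Qf F) (PZ X ε₁) s M X).filter (fun n =>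
      ((gset F r ((X : ℝ) ^ ζ) s n H).card : ℝ) < δ / 2 * H / (W * Real.log X)) ⊆ A1 ∪ A2 := by
    intro N hN
    rw [mem_filter] at hN
    have hN1 : N ∈ Ico M (M + X) := by
      unfold Gd at hN
      exact (mem_filter.1 hN.1).1
    have hN2 := mem_Ico.1 hN1
    rw [mem_union]
    by_contra hcon
    push Not at hcon
    obtain ⟨hc1, hc2⟩ := hcon
    have g1 : δ * H / (W * Real.log X) ≤ ((pos F X ζ υ lam (lam / υ) s H N).card : ℝ) := by
      by_contra h'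
      exact hc1 (by rw [hA1, mem_filter]; exact ⟨hN.1, not_le.1 h'⟩)
    have g2 : (((range H).filter (fun j => Bad F X ζ υ (N + j * s))).card : ℝ) ≤ (H : ℝ) / t := by
      by_contra h'
      exact hc2 (by rw [hA2, mem_filter]; exact ⟨hN1, not_le.1 h'⟩)
    have g3 := HP X hX1 H s N (by omega) (by omega) hHs
    have g3r : ((pos F X ζ υ lam (lam / υ) s H N).card : ℝ) ≤
        ((gset F r ((X : ℝ) ^ ζ) s N H).card : ℝ) +
          (((range H).filter (fun j => Bad F X ζ υ (N + j * s))).card : ℝ) := by exact_mod_cast g3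
    have g6 : (H : ℝ) / t ≤ δ / 2 * H / (W * Real.log X) := by
      have g7 : (H : ℝ) / t ≤ δ / 2 * H / Real.log X := by
        rw [div_le_div_iff₀ ht0 hlX]
        have := mul_le_mul_of_nonneg_left e1 (show 0 ≤ δ / 2 * H by positivity)
        calc (H : ℝ) * Real.log X = δ / 2 * H * (2 / δ * Real.log X) := by field_simp
          _ ≤ _ := this
      refine g7.trans ?_
      apply div_le_div_of_nonneg_left (by positivity) (by positivity)
      exact mul_le_of_le_one_left hlX.le hW1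
    have g7 : δ * H / (W * Real.log X) =
        δ / 2 * H / (W * Real.log X) + δ / 2 * H / (W * Real.log X) := by ring
    linarith [hN.2]
  have r2 : (A2.card : ℝ) ≤ ε / 2 * (X * W) := by
    refine hB.trans ?_
    have hυζ : υ ≤ 1 - ζ := by linarith
    have u2 : (X : ℝ) ^ υ ≤ (X : ℝ) ^ (1 - ζ) := Real.rpow_le_rpow_of_exponent_le hX1r hυζ
    have u3 : (X : ℝ) * (2 / (X : ℝ) ^ ζ) = 2 * (X : ℝ) ^ (1 - ζ) := by
      rw [Real.rpow_sub hX0, Real.rpow_one]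
      ring
    have u4 : t * (X : ℝ) ^ (1 - ζ) * t = X := by
      rw [ht, ← Real.rpow_add hX0, ← Real.rpow_add hX0]
      conv_rhs => rw [← Real.rpow_one (X : ℝ)]
      congr 1
      ring
    have hcr : (1 : ℝ) ≤ c := by exact_mod_cast hF.hc
    calc t * (c * (X * (2 / (X : ℝ) ^ ζ) + (X : ℝ) ^ υ)) ≤
        t * (c * (2 * (X : ℝ) ^ (1 - ζ) + (X : ℝ) ^ (1 - ζ))) := by
          rw [u3]
          gcongr
      _ = t * (X : ℝ) ^ (1 - ζ) * (ε / 2 * ((6 * c * ε₁ / (ε * c1) * Real.log X) *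
            (c1 / (ε₁ * Real.log X)))) := by
          field_simp
          ring
      _ ≤ t * (X : ℝ) ^ (1 - ζ) * (ε / 2 * (t * W)) := by
          gcongr
      _ = ε / 2 * ((t * (X : ℝ) ^ (1 - ζ) * t) * W) := by ring
      _ = _ := by rw [u4]
  calc (((Gd (Qf F) (PZ X ε₁) s M X).filter (fun n =>
      ((gset F r ((X : ℝ) ^ ζ) s n H).card : ℝ) < δ / 2 * H / (W * Real.log X))).card : ℝ) ≤
        ((A1 ∪ A2).card : ℝ) := by
        exact_mod_cast card_le_card hsub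
    _ ≤ A1.card + A2.card := by exact_mod_cast card_union_le _ _
    _ ≤ ε / 2 * (X * W) + ε / 2 * (X * W) := add_le_add hA r2
    _ = _ := by ring

end

end Run7.h870.LG
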