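import Pool.Agent.Run7.h870.LG.Many
import Pool.Agent.Y882.SI.Sq

/-!
# Few values with a large square factor; almost primes in almost all very short progressions
-/

set_option autoImplicit false
set_option linter.all false

namespace Run7.h870.LG

open Finset Filter
open Pool.Agent.Y882
open Pool.Agent.W23.DC
open Pool.Agent.Y882.PX Pool.Agent.Y882.KW
open Pool.Agent.W378.DC.TMP
open Run7.h870.LI (Per rr evlog per_mod)
open scoped Classical

theorem card_cong {S : Finset ℕ} {M L m : ℕ} (hm : 0 < m) (hS : S ⊆ Ico M (M + L))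
    (h : ∀ n ∈ S, ∀ n' ∈ S, n ≡ n' [MOD m]) : S.card ≤ L / m + 1 := by
  rw [← card_range (L / m + 1)]
  apply card_le_card_of_injOn (fun n => (n - M) / m)
  · intro n hn
    have h1 := mem_Ico.1 (hS hn)
    rw [mem_coe, mem_range]
    have : (n - M) / m ≤ L / m := Nat.div_le_div_right (by omega)
    show (n - M) / m < L / m + 1
    omega
  · intro n hn n' hn' he
    have h1 := mem_Ico.1 (hS hn)
    have h2 := mem_Ico.1 (hS hn')
    have h3 := h n hn n' hn'
    simp only at he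
    have h4 : n - M ≡ n' - M [MOD m] := by
      have e1 : n = (n - M) + M := by omega
      have e2 : n' = (n' - M) + M := by omega
      rw [e1, e2] at h3
      exact Nat.ModEq.add_right_cancel' M h3
    have h5 : n - M = n' - M := by
      rw [← Nat.div_add_mod (n - M) m, ← Nat.div_add_mod (n' - M) m, he, h4]
    omega

section

variable {F : ℕ → ℤ} {c g D : ℕ} {cl : ℝ} {R : ℕ → ℕ}

theorem sq_count (hF : Dat F c g D cl R) {q : ℕ} (hq : q.Prime) (hqD : D < q) (M L : ℕ) :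
    (((Ico M (M + L)).filter (fun n => ((q ^ 2 : ℕ) : ℤ) ∣ F n)).card : ℝ) ≤
      c * (L / (q : ℝ) ^ 2 + 1) := by
  have h1 : ((Ico M (M + L)).filter (fun n => ((q ^ 2 : ℕ) : ℤ) ∣ F n)).card ≤
      (L / q ^ 2 + 1) * ((range q).filter fun r => Qf F q r).card := by
    apply card_le_mul_card_image_of_maps_to (f := fun n => n % q)
    · intro n hn
      rw [mem_filter] at hn
      rw [mem_filter, mem_range]
      refine ⟨Nat.mod_lt _ hq.pos, ?_⟩
      apply (per_mod hF.base.per q _ _ (Nat.mod_modEq n q)).2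
      unfold Qf
      refine dvd_trans ?_ hn.2
      push_cast
      exact dvd_pow_self _ (by norm_num)
    · intro r _
      apply card_cong (pow_pos hq.pos 2) ((filter_subset _ _).trans (filter_subset _ _))
      intro n hn n' hn'
      rw [mem_filter, mem_filter] at hn hn'
      apply hF.lift q hq hqD n n' _ hn.1.2 hn'.1.2
      show n % q = n' % q
      rw [hn.2, hn'.2]
  have h2 : ((range q).filter fun r => Qf F q r).card ≤ c := hF.base.le q hq
  have h3 : ((Ico M (M + L)).filter (fun n => ((q ^ 2 : ℕ) : ℤ) ∣ F n)).card ≤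
      (L / q ^ 2 + 1) * c := h1.trans (Nat.mul_le_mul_left _ h2)
  have h4 : (((L / q ^ 2 : ℕ)) : ℝ) ≤ L / (q : ℝ) ^ 2 := by
    have := @Nat.cast_div_le ℝ _ _ _ L (q ^ 2)
    push_cast at this
    exact this
  calc (((Ico M (M + L)).filter (fun n => ((q ^ 2 : ℕ) : ℤ) ∣ F n)).card : ℝ) ≤
      (((L / q ^ 2 : ℕ) : ℝ) + 1) * c := by exact_mod_cast h3
    _ ≤ (L / (q : ℝ) ^ 2 + 1) * c := mul_le_mul_of_nonneg_right (by linarith) (Nat.cast_nonneg _)
    _ = _ := by ring

/-- values with a large square factor -/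
def Bad (F : ℕ → ℤ) (X : ℕ) (ζ υ : ℝ) (n : ℕ) : Prop :=
  ∃ q ∈ pr X ζ υ, ((q ^ 2 : ℕ) : ℤ) ∣ F n

theorem sum_inv_sq {Y M : ℕ} {ζ υ : ℝ} (hY : 3 ≤ Y) (hυ : υ ≤ 1) (e1 : 4 ≤ (Y : ℝ) ^ ζ) :
    ∑ q ∈ pr Y ζ υ, ((M : ℝ) / (q : ℝ) ^ 2 + 1) ≤ M * (2 / (Y : ℝ) ^ ζ) + (Y : ℝ) ^ υ := by
  have hYr : (3 : ℝ) ≤ Y := by exact_mod_cast hY
  rw [sum_add_distrib, sum_const, nsmul_eq_mul, mul_one]
  have hA1 : 1 ≤ ⌈(Y : ℝ) ^ ζ⌉₊ := Nat.ceil_pos.2 (by positivity)
  set A := ⌈(Y : ℝ) ^ ζ⌉₊ - 1 with hA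
  have hAl : (Y : ℝ) ^ ζ - 1 ≤ (A : ℝ) := by
    have h2 := Nat.le_ceil ((Y : ℝ) ^ ζ)
    rw [hA, Nat.cast_sub hA1]
    push_cast
    linarith
  have hA3 : (3 : ℝ) ≤ A := by linarith
  have hA0 : 1 ≤ A := by
    have : (1 : ℝ) ≤ A := by linarith
    exact_mod_cast this
  have hsum : ∑ q ∈ pr Y ζ υ, (M : ℝ) / (q : ℝ) ^ 2 ≤ M * (2 / (Y : ℝ) ^ ζ) := by
    rw [pr_eq (by omega) hυ, ← hA]
    have h3 : ∑ q ∈ (Ioc A (⌈(Y : ℝ) ^ υ⌉₊ - 1)).filter Nat.Prime, (M : ℝ) / (q : ℝ) ^ 2 =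
        M * ∑ q ∈ (Ioc A (⌈(Y : ℝ) ^ υ⌉₊ - 1)).filter Nat.Prime, 1 / (q : ℝ) ^ 2 := by
      rw [mul_sum]
      apply sum_congr rfl
      intro q _
      ring
    rw [h3]
    apply mul_le_mul_of_nonneg_left _ (Nat.cast_nonneg _)
    have h4 : ∀ B : ℕ, A ≤ B → ∑ q ∈ Ioc A B, 1 / (q : ℝ) ^ 2 ≤ 1 / (A : ℝ) - 1 / (B : ℝ) := by
      intro B hB
      induction B, hB using Nat.le_induction with
      | base => simp
      | succ B hB ih =>
        rw [sum_Ioc_succ_top hB]
        have hB0 : (0 : ℝ) < B := by exact_mod_cast (by omega : 0 < B)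
        have h5 : 1 / (((B + 1 : ℕ) : ℝ)) ^ 2 ≤ 1 / (B : ℝ) - 1 / ((B + 1 : ℕ) : ℝ) := by
          push_cast
          rw [div_sub_div _ _ hB0.ne' (by positivity),
            div_le_div_iff₀ (by positivity) (by positivity)]
          nlinarith
        linarith
    calc ∑ q ∈ (Ioc A (⌈(Y : ℝ) ^ υ⌉₊ - 1)).filter Nat.Prime, 1 / (q : ℝ) ^ 2 ≤
        ∑ q ∈ Ioc A (⌈(Y : ℝ) ^ υ⌉₊ - 1), 1 / (q : ℝ) ^ 2 :=
          sum_le_sum_of_subset_of_nonneg (filter_subset _ _) (fun _ _ _ => by positivity)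
      _ ≤ 1 / (A : ℝ) := by
          rcases le_or_gt A (⌈(Y : ℝ) ^ υ⌉₊ - 1) with h | h
          · have h7 := h4 _ h
            have : (0 : ℝ) ≤ 1 / ((⌈(Y : ℝ) ^ υ⌉₊ - 1 : ℕ) : ℝ) := by positivity
            linarith
          · rw [Ioc_eq_empty (by omega), sum_empty]
            positivity
      _ ≤ 2 / (Y : ℝ) ^ ζ := by
          rw [div_le_div_iff₀ (by linarith) (by positivity)]
          linarith
  have hcard : ((pr Y ζ υ).card : ℝ) ≤ (Y : ℝ) ^ υ := by
    rw [pr_eq (by omega) hυ]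
    calc (((Ioc (⌈(Y : ℝ) ^ ζ⌉₊ - 1) (⌈(Y : ℝ) ^ υ⌉₊ - 1)).filter Nat.Prime).card : ℝ) ≤
        ((Ioc (⌈(Y : ℝ) ^ ζ⌉₊ - 1) (⌈(Y : ℝ) ^ υ⌉₊ - 1)).card : ℝ) := by
          exact_mod_cast card_filter_le _ _
      _ ≤ ((⌈(Y : ℝ) ^ υ⌉₊ - 1 : ℕ) : ℝ) := by
          rw [Nat.card_Ioc]
          exact_mod_cast Nat.sub_le _ _
      _ ≤ _ := by
          have h3 : 1 ≤ ⌈(Y : ℝ) ^ υ⌉₊ := Nat.ceil_pos.2 (by positivity)
          have h4 := Nat.ceil_lt_add_one (show 0 ≤ (Y : ℝ) ^ υ by positivity)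
          rw [Nat.cast_sub h3]
          push_cast
          linarith
  linarith

theorem bad_count (hF : Dat F c g D cl R) {X : ℕ} {ζ υ : ℝ} (hX : 3 ≤ X) (hυ : υ ≤ 1)
    (e1 : (D : ℝ) + 4 ≤ (X : ℝ) ^ ζ) (M L : ℕ) :
    (((Ico M (M + L)).filter (Bad F X ζ υ)).card : ℝ) ≤
      c * (L * (2 / (X : ℝ) ^ ζ) + (X : ℝ) ^ υ) := by
  have hsub : (Ico M (M + L)).filter (Bad F X ζ υ) ⊆ (pr X ζ υ).biUnion
      (fun q => (Ico M (M + L)).filter (fun n : ℕ => ((q ^ 2 : ℕ) : ℤ) ∣ F n)) := by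
    intro n hn
    rw [mem_filter] at hn
    obtain ⟨hn1, q, hq, hqn⟩ := hn
    rw [mem_biUnion]
    exact ⟨q, hq, by rw [mem_filter]; exact ⟨hn1, hqn⟩⟩
  have hD0 : (0 : ℝ) ≤ D := Nat.cast_nonneg _
  calc (((Ico M (M + L)).filter (Bad F X ζ υ)).card : ℝ) ≤
      ((∑ q ∈ pr X ζ υ, ((Ico M (M + L)).filter
        (fun n : ℕ => ((q ^ 2 : ℕ) : ℤ) ∣ F n)).card : ℕ) : ℝ) := by
        exact_mod_cast (card_le_card hsub).trans card_biUnion_le
    _ ≤ ∑ q ∈ pr X ζ υ, c * ((L : ℝ) / (q : ℝ) ^ 2 + 1) := by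
        push_cast
        apply sum_le_sum
        intro q hq
        obtain ⟨hq1, hq2, _⟩ := pr_mem X q ζ υ (by omega) hq
        have h3 : (D : ℝ) + 4 ≤ q := e1.trans hq2
        have h4 : D + 4 ≤ q := by exact_mod_cast h3
        have h5 := sq_count hF hq1 (by omega) M L
        push_cast at h5
        exact h5
    _ = c * ∑ q ∈ pr X ζ υ, ((L : ℝ) / (q : ℝ) ^ 2 + 1) := by rw [mul_sum]
    _ ≤ _ := by
        apply mul_le_mul_of_nonneg_left _ (Nat.cast_nonneg _)
        exact sum_inv_sq hX hυ (by linarith)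

/-- few positions with many bad values -/
theorem bad_pos (Pr : ℕ → Prop) {M L H s : ℕ} {t Y : ℝ} (ht : 0 < t) (hH : 0 < H)
    (hY : ∀ M : ℕ, (((Ico M (M + L)).filter Pr).card : ℝ) ≤ Y) :
    (((Ico M (M + L)).filter (fun n => (H : ℝ) / t <
      (((range H).filter (fun j => Pr (n + j * s))).card : ℝ))).card : ℝ) ≤ t * Y := by
  have hh : (0 : ℝ) < H := by exact_mod_cast hH
  set A := (Ico M (M + L)).filter (fun n => (H : ℝ) / t <
      (((range H).filter (fun j => Pr (n + j * s))).card : ℝ)) with hA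
  have h1 : (A.card : ℝ) * (H / t) ≤
      ∑ n ∈ Ico M (M + L), (((range H).filter (fun j => Pr (n + j * s))).card : ℝ) := by
    calc (A.card : ℝ) * (H / t) = ∑ n ∈ A, (H / t : ℝ) := by rw [sum_const, nsmul_eq_mul]
      _ ≤ ∑ n ∈ A, (((range H).filter (fun j => Pr (n + j * s))).card : ℝ) := by
          apply sum_le_sum
          intro N hN
          rw [hA, mem_filter] at hN
          exact hN.2.le
      _ ≤ _ := sum_le_sum_of_subset_of_nonneg (filter_subset _ _) (fun _ _ _ => Nat.cast_nonneg _)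
  have h2 : ∑ n ∈ Ico M (M + L), (((range H).filter (fun j => Pr (n + j * s))).card : ℝ) ≤
      H * Y := by
    have h3 : ∑ n ∈ Ico M (M + L), (((range H).filter (fun j => Pr (n + j * s))).card : ℝ) =
        ∑ j ∈ range H, (((Ico M (M + L)).filter (fun n => Pr (n + j * s))).card : ℝ) := by
      simp_rw [card_filter]
      push_cast
      rw [sum_comm]
    rw [h3]
    calc ∑ j ∈ range H, (((Ico M (M + L)).filter (fun n => Pr (n + j * s))).card : ℝ) ≤
        ∑ j ∈ range H, Y := by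
          apply sum_le_sum
          intro j _
          refine le_trans ?_ (hY (M + j * s))
          have h4 : ((Ico M (M + L)).filter (fun n => Pr (n + j * s))).card ≤
              ((Ico (M + j * s) (M + j * s + L)).filter Pr).card := by
            apply card_le_card_of_injOn (fun n => n + j * s)
            · intro n hn
              rw [mem_coe, mem_filter, mem_Ico] at hn
              show n + j * s ∈ _
              rw [mem_coe, mem_filter, mem_Ico]
              exact ⟨⟨by omega, by omega⟩, hn.2⟩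
            · intro x _ y _ hxy
              simpa using hxy
          exact_mod_cast h4
      _ = _ := by rw [sum_const, nsmul_eq_mul, card_range]
  have h3 := h1.trans h2
  rw [mul_div_assoc', div_le_iff₀ ht] at h3
  have h4 : (A.card : ℝ) * H ≤ (t * Y) * H := by
    calc (A.card : ℝ) * H ≤ H * Y * t := h3
      _ = _ := by ring
  exact le_of_mul_le_mul_right h4 hh

/-- the indices of the almost primes -/
noncomputable def gset (F : ℕ → ℤ) (r : ℕ) (z : ℝ) (s N H : ℕ) : Finset ℕ :=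
  (range H).filter fun j => (F (N + j * s)).natAbs.primeFactorsList.length ≤ r ∧
    ∀ p : ℕ, p.Prime → (p : ℤ) ∣ F (N + j * s) → z ≤ p

/-- positive weights outside the values with a square factor -/
theorem pos_le (hF : Dat F c g D cl R) (r : ℕ) (ζ υ lam S σ : ℝ) (hζ : 0 < ζ) (hζυ : ζ ≤ υ)
    (hυ0 : 0 < υ) (hυ1 : υ ≤ 1) (hlam : 0 < lam) (hσ : 0 ≤ σ) (hS : g * (1 + σ) < S)
    (hr : 1 / lam + S / υ ≤ r + 1) :
    ∃ X0 : ℕ, ∀ X : ℕ, X0 ≤ X → ∀ H s N : ℕ, 1 ≤ N → N ≤ 2 * X →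
      ((H * s : ℕ) : ℝ) ≤ (X : ℝ) ^ (1 + σ) →
      (pos F X ζ υ lam (lam / υ) s H N).card ≤ (gset F r ((X : ℝ) ^ ζ) s N H).card +
        ((range H).filter (fun j => Bad F X ζ υ (N + j * s))).card := by
  have ev4 := evlog (D * (3 : ℝ) ^ g) 0 (show 0 < S - g * (1 + σ) by linarith)
  have ev5 : ∀ᶠ X : ℕ in atTop, (3 : ℝ) ≤ (X : ℝ) ^ ζ :=
    ((tendsto_rpow_atTop hζ).comp tendsto_natCast_atTop_atTop).eventually_ge_atTop _
  obtain ⟨Y4, hY4⟩ := eventually_atTop.1 (ev4.and (ev5.and (eventually_ge_atTop 3)))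
  refine ⟨Y4, fun X hX H s N hN1 hNX hHs => ?_⟩
  obtain ⟨e4, e6, e5⟩ := hY4 X hX
  rw [pow_zero, mul_one] at e4
  have hXr : (3 : ℝ) ≤ X := by exact_mod_cast e5
  have hX0 : (0 : ℝ) < X := by linarith
  have g4 : pos F X ζ υ lam (lam / υ) s H N ⊆ gset F r ((X : ℝ) ^ ζ) s N H ∪
      (range H).filter (fun j => Bad F X ζ υ (N + j * s)) := by
    intro j hj
    unfold pos at hj
    rw [mem_filter, mem_range] at hj
    obtain ⟨hj4, hj5⟩ := hj
    rw [mem_union, mem_filter]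
    by_cases hb : Bad F X ζ υ (N + j * s)
    · exact Or.inr ⟨mem_range.2 hj4, hb⟩
    · left
      unfold gset
      rw [mem_filter, mem_range]
      refine ⟨hj4, ?_⟩
      have hne : F (N + j * s) ≠ 0 := by
        intro h0
        rw [h0] at hj5
        unfold WW at hj5
        have h2 : ¬ ∀ p ∈ PZ X ζ, ¬ p ∣ Int.natAbs 0 := by
          push Not
          refine ⟨2, ?_, by simp⟩
          unfold PZ
          rw [mem_filter, mem_Icc]
          refine ⟨⟨by omega, by omega⟩, Nat.prime_two, (tt_lt X 2 ζ (by omega) (by omega)).2 ?_⟩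
          push_cast
          linarith
        rw [if_neg h2] at hj5
        simp at hj5
      have hsize : ((F (N + j * s)).natAbs : ℝ) ≤ (X : ℝ) ^ S := by
        have u1 := hF.size (N + j * s) (by omega)
        have u2 : ((N + j * s : ℕ) : ℝ) ≤ 3 * (X : ℝ) ^ (1 + σ) := by
          have u3 : ((j * s : ℕ) : ℝ) ≤ (X : ℝ) ^ (1 + σ) := by
            refine le_trans ?_ hHs
            exact_mod_cast Nat.mul_le_mul_right s hj4.le
          have u4 : (N : ℝ) ≤ 2 * (X : ℝ) ^ (1 + σ) := by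
            have u5 : (N : ℝ) ≤ 2 * X := by exact_mod_cast hNX
            have u6 : (X : ℝ) ≤ (X : ℝ) ^ (1 + σ) := by
              conv_lhs => rw [← Real.rpow_one (X : ℝ)]
              exact Real.rpow_le_rpow_of_exponent_le (by linarith) (by linarith)
            linarith
          push_cast at u3 ⊢
          linarith
        calc ((F (N + j * s)).natAbs : ℝ) ≤ D * ((N + j * s : ℕ) : ℝ) ^ g := by exact_mod_cast u1
          _ ≤ D * (3 * (X : ℝ) ^ (1 + σ)) ^ g := by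
              apply mul_le_mul_of_nonneg_left _ (Nat.cast_nonneg _)
              exact pow_le_pow_left₀ (Nat.cast_nonneg _) u2 g
          _ = D * (3 : ℝ) ^ g * (X : ℝ) ^ (g * (1 + σ)) := by
              rw [mul_pow, ← Real.rpow_natCast ((X : ℝ) ^ (1 + σ)) g, ← Real.rpow_mul hX0.le,
                mul_comm (1 + σ) (g : ℝ), mul_assoc]
          _ ≤ (X : ℝ) ^ (S - g * (1 + σ)) * (X : ℝ) ^ (g * (1 + σ)) :=
              mul_le_mul_of_nonneg_right e4 (by positivity)
          _ = (X : ℝ) ^ S := by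
              rw [← Real.rpow_add hX0]
              congr 1
              ring
      have hres := almost X (by omega) ζ υ lam S r hζυ hυ0 hυ1 hlam hr
        (F (N + j * s)).natAbs (Int.natAbs_ne_zero.2 hne) hsize hj5 (by
          intro q hq hqd
          exact hb ⟨q, hq, Int.natCast_dvd.2 hqd⟩)
      exact ⟨hres.1, fun p hp hpd => hres.2 p hp (Int.natCast_dvd.1 hpd)⟩
  exact (card_le_card g4).trans (card_union_le _ _)

end

end Run7.h870.LG
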